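import Mathlib

/-!
# KA-17. Bijective exchange

`x e` (`e ∈ P`) and `y f` (`f ∈ Q`) are two bases of `V / W`. Proof. Let `M` be the matrix with `W.mkQ (x e) = ∑_f M e f • W.mkQ (y f)`
(`P x Q`, coordinates in the basis `y` of `V / W`: `basisOfLinearIndependentOfCardEqFinrank`). It is invertible, so after a bijection
`P ≃ Q` its determinant is nonzero and there is a bijection `sigma : P ≃ Q` with `M e (sigma e) ≠ 0` for all `e` (a nonzero
term of `Matrix.det_apply`). Extend `sigma` to `Fin n` arbitrarily. For `e ∈ P`: if `∑_{f ≠ sigma e} c f • y f ∈ W + span (x e)`,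
say `= t • x e` mod `W`, then the coordinate at `sigma e` gives `t * M e (sigma e) = 0`, so `t = 0` and all `c f = 0`.
-/

set_option autoImplicit false

namespace Pool.Agent.H61.KA

theorem exchange {K V : Type*} [Field K] [AddCommGroup V] [Module K V] {n : ℕ} (W : Submodule K V)
    (x y : Fin n → V) (P Q : Finset (Fin n)) [FiniteDimensional K (V ⧸ W)]
    (hP : LinearIndependent K fun e : {e // e ∈ P} => W.mkQ (x e))
    (hQ : LinearIndependent K fun f : {f // f ∈ Q} => W.mkQ (y f)) (hc : P.card = Q.card)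
    (hfin : Module.finrank K (V ⧸ W) = P.card) :
    ∃ sigma : Fin n → Fin n, Set.BijOn sigma P Q ∧ ∀ e ∈ P,
      LinearIndependent K fun f : {f // f ∈ Q.erase (sigma e)} =>
        (W ⊔ Submodule.span K {x e}).mkQ (y f) := by
  classical
  have hcQ : Fintype.card {f // f ∈ Q} = Module.finrank K (V ⧸ W) := by
    rw [Fintype.card_coe, hfin, hc]
  have hcP : Fintype.card {e // e ∈ P} = Module.finrank K (V ⧸ W) := by
    rw [Fintype.card_coe, hfin]
  have htQ := hQ.span_eq_top_of_card_eq_finrank' hcQ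
  have htP := hP.span_eq_top_of_card_eq_finrank' hcP
  set b : Module.Basis {f // f ∈ Q} K (V ⧸ W) := Module.Basis.mk hQ htQ.ge with hb
  let e0 : {e // e ∈ P} ≃ {f // f ∈ Q} := Finset.equivOfCardEq hc
  have hv : LinearIndependent K (fun f : {f // f ∈ Q} => W.mkQ (x (e0.symm f))) := by
    have h := hP.comp e0.symm e0.symm.injective
    exact h
  have hvt : Submodule.span K (Set.range (fun f : {f // f ∈ Q} => W.mkQ (x (e0.symm f)))) = ⊤ :=
    hv.span_eq_top_of_card_eq_finrank' hcQ
  have hdet : IsUnit (b.det (fun f : {f // f ∈ Q} => W.mkQ (x (e0.symm f)))) :=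
    (b.is_basis_iff_det).1 ⟨hv, hvt⟩
  have hne : b.det (fun f : {f // f ∈ Q} => W.mkQ (x (e0.symm f))) ≠ 0 := hdet.ne_zero
  rw [Module.Basis.det_apply, Matrix.det_apply] at hne
  obtain ⟨s, -, hs⟩ := Finset.exists_ne_zero_of_sum_ne_zero hne
  have hprod : ∏ i, b.toMatrix (fun f : {f // f ∈ Q} => W.mkQ (x (e0.symm f))) (s i) i ≠ 0 := by
    intro h
    rw [h, smul_zero] at hs
    exact hs rfl
  have hcoef : ∀ i, b.repr (W.mkQ (x (e0.symm i))) (s i) ≠ 0 := by
    intro i
    have := (Finset.prod_ne_zero_iff.1 hprod) i (Finset.mem_univ i)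
    rwa [Module.Basis.toMatrix_apply] at this
  let sg : Fin n → Fin n := fun e => if h : e ∈ P then (s (e0 ⟨e, h⟩) : Fin n) else e
  have hsg : ∀ e (h : e ∈ P), sg e = (s (e0 ⟨e, h⟩) : Fin n) := fun e h => dif_pos h
  refine ⟨sg, ⟨?_, ?_, ?_⟩, ?_⟩
  · intro e he
    have he' : e ∈ P := he
    rw [hsg e he']
    exact (s (e0 ⟨e, he'⟩)).2
  · intro e he e' he' h
    have h1 : e ∈ P := he
    have h2 : e' ∈ P := he'
    rw [hsg e h1, hsg e' h2] at h
    have := e0.injective (s.injective (Subtype.ext h))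
    exact congrArg Subtype.val this
  · intro f hf
    have hf' : f ∈ Q := hf
    refine ⟨(e0.symm (s.symm ⟨f, hf'⟩) : Fin n), (e0.symm (s.symm ⟨f, hf'⟩)).2, ?_⟩
    rw [hsg _ (e0.symm (s.symm ⟨f, hf'⟩)).2]
    simp
  · intro e he
    rw [hsg e he]
    set q : {f // f ∈ Q} := s (e0 ⟨e, he⟩) with hq
    have hM : b.repr (W.mkQ (x e)) q ≠ 0 := by
      have := hcoef (e0 ⟨e, he⟩)
      simpa using this
    rw [Fintype.linearIndependent_iff]
    intro g hg
    have hg' : (W ⊔ Submodule.span K {x e}).mkQ (∑ i : {f // f ∈ Q.erase (q : Fin n)}, g i • y i) = 0 := by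
      rw [map_sum]
      simpa only [map_smul] using hg
    rw [Submodule.mkQ_apply, Submodule.Quotient.mk_eq_zero] at hg'
    obtain ⟨w, hw, z, hz, hwz⟩ := Submodule.mem_sup.1 hg'
    obtain ⟨t, rfl⟩ := Submodule.mem_span_singleton.1 hz
    have hW : t • W.mkQ (x e) = ∑ i : {f // f ∈ Q.erase (q : Fin n)}, g i • W.mkQ (y i) := by
      have h1 := congrArg W.mkQ hwz
      rw [map_add, map_smul, map_sum] at h1
      have h2 : W.mkQ w = 0 := by
        rw [Submodule.mkQ_apply, Submodule.Quotient.mk_eq_zero]; exact hw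
      rw [h2, zero_add] at h1
      rw [h1]
      exact Finset.sum_congr rfl fun i _ => map_smul _ _ _
    let j : {f // f ∈ Q.erase (q : Fin n)} → {f // f ∈ Q} := fun i => ⟨i, Finset.mem_of_mem_erase i.2⟩
    have hj : Function.Injective j := by
      intro a a' h
      have h' : ((j a : {f // f ∈ Q}) : Fin n) = (j a' : {f // f ∈ Q}) := by rw [h]
      exact Subtype.ext h'
    have hby : ∀ i : {f // f ∈ Q.erase (q : Fin n)}, W.mkQ (y i) = b (j i) := by
      intro i
      rw [hb, Module.Basis.mk_apply]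
    have ht : t = 0 := by
      have h1 := congrArg (fun z => b.repr z q) hW
      simp only [map_smul, map_sum, Finsupp.smul_apply, smul_eq_mul, Finsupp.finsetSum_apply] at h1
      have h2 : ∀ i : {f // f ∈ Q.erase (q : Fin n)}, b.repr (W.mkQ (y i)) q = 0 := by
        intro i
        rw [hby, Module.Basis.repr_self, Finsupp.single_apply, if_neg]
        intro h
        exact (Finset.mem_erase.1 i.2).1 (congrArg Subtype.val h)
      have h3 : t * b.repr (W.mkQ (x e)) q = 0 := by
        rw [h1]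
        exact Finset.sum_eq_zero fun i _ => by rw [h2 i, mul_zero]
      exact (mul_eq_zero.1 h3).resolve_right hM
    rw [ht, zero_smul] at hW
    have hli : LinearIndependent K fun i : {f // f ∈ Q.erase (q : Fin n)} => W.mkQ (y i) := by
      have h := hQ.comp j hj
      exact h
    exact (Fintype.linearIndependent_iff.1 hli) g hW.symm

end Pool.Agent.H61.KA
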