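import Pool.Agent.H61.KA.Defs
import Pool.Agent.H61.KA.Exch

/-!
# KA-18. The deletion system of a line

State after `k` picks: a submodule `W` (the span of the picks) and alive sets `A : Fin m → Finset (Fin n)`. `Ok W A k` (for `k <= n`):
`finrank W = k`, and for all `u` the vectors `B u f` (`f ∈ A u`) are linearly independent mod `W` and `(A u).card + k = n`
(so they are a basis of `V / W`). If `Ok W A k`, `k < m`, then by `exchange` there is
`T : Fin m → Fin n → Fin n` such that for all `u`, `T u` is a bijection from `A k` (slot `k`) to `A u`, and for all `e ∈ A k` the vectors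
`B u f` with `f ∈ (A u).erase (T u e)` are independent mod `W ⊔ span {B k e}`; so
`Ok (W ⊔ span {B k e}) (fun u => (A u).erase (T u e)) (k + 1)` (`B k e ∉ W`). Choose such a `T` for every `(W, A, k)` classically
(identity if there is none) and define the states of a history `g` by recursion: `st g 0 = (⊥, univ)`,
`st g (k + 1) = (W ⊔ span {B k (g k)}, fun u => (A u).erase (T u (g k)))` for `k < m`. `A g k u` and `tau g k u = T u` are given by the
state at `k`. For a valid history all states are `Ok` (induction), which gives `card`, `bij`, `step`. Linear independence of the picks: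
`B s (g s) ∉ W_s` = span of the earlier picks (`linearIndependent_fin_snoc` style induction, or `finrank W_m = m` and
`linearIndependent_iff_card_le_finrank_span`); the span of the picks is `W_m`.
-/

set_option autoImplicit false

namespace Pool.Agent.H61.KA

open Finset

section

variable {K V : Type*} [Field K] [AddCommGroup V] [Module K V] {n m : ℕ}

/-- the state `(W, A)` after `k` picks is fine -/
def DOk (B : Fin m → Module.Basis (Fin n) K V) (W : Submodule K V) (A : Fin m → Finset (Fin n))
    (k : ℕ) : Prop :=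
  Module.finrank K W = k ∧
    ∀ u, (LinearIndependent K fun f : {f // f ∈ A u} => W.mkQ (B u f)) ∧ (A u).card + k = n

/-- `T` is a system of exchange bijections of the state `(W, A)` for slot `k` -/
def DT (B : Fin m → Module.Basis (Fin n) K V) (k : Fin m) (W : Submodule K V)
    (A : Fin m → Finset (Fin n)) (T : Fin m → Fin n → Fin n) : Prop :=
  ∀ u, Set.BijOn (T u) (A k) (A u) ∧ ∀ e ∈ A k,
    LinearIndependent K fun f : {f // f ∈ (A u).erase (T u e)} =>
      (W ⊔ Submodule.span K {B k e}).mkQ (B u f)

theorem exists_DT (B : Fin m → Module.Basis (Fin n) K V) (k : Fin m) (W : Submodule K V)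
    (A : Fin m → Finset (Fin n)) (h : DOk B W A k) : ∃ T, DT B k W A T := by
  have hfd : FiniteDimensional K V := Module.Finite.of_basis (B k)
  have hV : Module.finrank K V = n := by
    rw [Module.finrank_eq_card_basis (B k), Fintype.card_fin]
  have hfin : Module.finrank K (V ⧸ W) = (A k).card := by
    have h1 := W.finrank_quotient_add_finrank
    have h2 := h.1
    have h3 := (h.2 k).2
    omega
  have hex : ∀ u, ∃ sigma : Fin n → Fin n, Set.BijOn sigma (A k) (A u) ∧ ∀ e ∈ A k,
      LinearIndependent K fun f : {f // f ∈ (A u).erase (sigma e)} =>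
        (W ⊔ Submodule.span K {B k e}).mkQ (B u f) := by
    intro u
    refine exchange W (B k) (B u) (A k) (A u) (h.2 k).1 (h.2 u).1 ?_ hfin
    have h3 := (h.2 k).2
    have h4 := (h.2 u).2
    omega
  choose T hT using hex
  exact ⟨T, hT⟩

theorem DOk_succ (B : Fin m → Module.Basis (Fin n) K V) (k : Fin m) (W : Submodule K V)
    (A : Fin m → Finset (Fin n)) (T : Fin m → Fin n → Fin n) (h : DOk B W A k)
    (hT : DT B k W A T) (e : Fin n) (he : e ∈ A k) :
    DOk B (W ⊔ Submodule.span K {B k e}) (fun u => (A u).erase (T u e)) (k + 1) := by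
  have hfd : FiniteDimensional K V := Module.Finite.of_basis (B k)
  refine ⟨?_, fun u => ⟨(hT u).2 e he, ?_⟩⟩
  · have h1 := (h.2 k).1.ne_zero ⟨e, he⟩
    have hW : B k e ∉ W := by
      intro hmem
      refine h1 ?_
      change W.mkQ (B k e) = 0
      rw [Submodule.mkQ_apply, Submodule.Quotient.mk_eq_zero]
      exact hmem
    have h0 : B k e ≠ 0 := fun h0 => hW (h0 ▸ W.zero_mem)
    have hd : Disjoint W (Submodule.span K {B k e}) :=
      (Submodule.disjoint_span_singleton' h0).2 hW
    have h2 := Submodule.finrank_sup_add_finrank_inf_eq W (Submodule.span K {B k e})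
    rw [hd.eq_bot, finrank_bot, finrank_span_singleton h0, h.1] at h2
    omega
  · have h1 : T u e ∈ A u := (hT u).1.mapsTo he
    have h2 := Finset.card_erase_of_mem h1
    have h3 := Finset.card_pos.2 ⟨_, h1⟩
    have h4 := (h.2 u).2
    change ((A u).erase (T u e)).card + (k + 1) = n
    omega

open Classical in
/-- the chosen exchange bijections -/
noncomputable def Dtr (B : Fin m → Module.Basis (Fin n) K V) (k : Fin m)
    (s : Submodule K V × (Fin m → Finset (Fin n))) : Fin m → Fin n → Fin n :=
  if h : ∃ T, DT B k s.1 s.2 T then h.choose else fun _ => id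

theorem Dtr_spec (B : Fin m → Module.Basis (Fin n) K V) (k : Fin m)
    (s : Submodule K V × (Fin m → Finset (Fin n))) (h : DOk B s.1 s.2 k) :
    DT B k s.1 s.2 (Dtr B k s) := by
  have hex := exists_DT B k s.1 s.2 h
  unfold Dtr
  rw [dif_pos hex]
  exact hex.choose_spec

/-- the states of a history -/
noncomputable def Dst (B : Fin m → Module.Basis (Fin n) K V) (g : Fin m → Fin n) :
    ℕ → Submodule K V × (Fin m → Finset (Fin n))
  | 0 => (⊥, fun _ => univ)
  | k + 1 => if h : k < m then
      ((Dst B g k).1 ⊔ Submodule.span K {B ⟨k, h⟩ (g ⟨k, h⟩)},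
        fun u => ((Dst B g k).2 u).erase (Dtr B ⟨k, h⟩ (Dst B g k) u (g ⟨k, h⟩)))
    else Dst B g k

theorem Dst_succ (B : Fin m → Module.Basis (Fin n) K V) (g : Fin m → Fin n) (k : Fin m) :
    Dst B g (k + 1) = ((Dst B g k).1 ⊔ Submodule.span K {B k (g k)},
        fun u => ((Dst B g k).2 u).erase (Dtr B k (Dst B g k) u (g k))) := by
  rw [Dst, dif_pos k.2]

theorem Dst_congr (B : Fin m → Module.Basis (Fin n) K V) (g g' : Fin m → Fin n) (k : ℕ)
    (h : ∀ s : Fin m, (s : ℕ) < k → g s = g' s) : Dst B g k = Dst B g' k := by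
  induction k with
  | zero => rfl
  | succ k ih =>
    have h1 := ih fun s hs => h s (Nat.lt_succ_of_lt hs)
    rw [Dst, Dst]
    by_cases hk : k < m
    · rw [dif_pos hk, dif_pos hk, h1, h ⟨k, hk⟩ (Nat.lt_succ_self k)]
    · rw [dif_neg hk, dif_neg hk, h1]

theorem Dst_ok (B : Fin m → Module.Basis (Fin n) K V) (g : Fin m → Fin n) (k : ℕ) (hk : k ≤ m)
    (h : ∀ s : Fin m, (s : ℕ) < k → g s ∈ (Dst B g s).2 s) :
    DOk B (Dst B g k).1 (Dst B g k).2 k := by
  induction k with
  | zero =>
    refine ⟨finrank_bot K V, fun u => ⟨?_, ?_⟩⟩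
    · have h1 : LinearIndependent K (fun e : Fin n => (⊥ : Submodule K V).mkQ (B u e)) := by
        refine (B u).linearIndependent.map' (⊥ : Submodule K V).mkQ ?_
        rw [Submodule.ker_mkQ]
      exact h1.comp (fun f : {f // f ∈ (univ : Finset (Fin n))} => (f : Fin n))
        Subtype.val_injective
    · change (univ : Finset (Fin n)).card + 0 = n
      rw [card_univ, Fintype.card_fin, add_zero]
  | succ k ih =>
    have h1 := ih (by omega) fun s hs => h s (Nat.lt_succ_of_lt hs)
    have h2 := Dst_succ B g ⟨k, hk⟩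
    rw [h2]
    exact DOk_succ B ⟨k, hk⟩ _ _ _ h1 (Dtr_spec B ⟨k, hk⟩ _ h1) _ (h ⟨k, hk⟩ (Nat.lt_succ_self k))

theorem Dst_span (B : Fin m → Module.Basis (Fin n) K V) (g : Fin m → Fin n) (k : ℕ) (hk : k ≤ m) :
    (Dst B g k).1 = Submodule.span K ((fun s => B s (g s)) '' {s : Fin m | (s : ℕ) < k}) := by
  induction k with
  | zero =>
    have h0 : {s : Fin m | (s : ℕ) < 0} = ∅ := by
      ext s
      simp
    rw [h0, Set.image_empty, Submodule.span_empty]
    rfl
  | succ k ih =>
    have h2 := Dst_succ B g ⟨k, hk⟩
    rw [h2]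
    change (Dst B g k).1 ⊔ Submodule.span K {B ⟨k, hk⟩ (g ⟨k, hk⟩)} = _
    rw [ih (by omega), ← Submodule.span_union]
    congr 1
    have h3 : {s : Fin m | (s : ℕ) < k + 1} = {s : Fin m | (s : ℕ) < k} ∪ {(⟨k, hk⟩ : Fin m)} := by
      ext s
      simp only [Set.mem_ofPred_eq, Set.mem_union, Set.mem_singleton_iff, Fin.ext_iff]
      omega
    rw [h3, Set.image_union, Set.image_singleton]

end

theorem exists_DS {K V : Type*} [Field K] [AddCommGroup V] [Module K V] {n m : ℕ} (hnm : m ≤ n)
    (B : Fin m → Module.Basis (Fin n) K V) :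
    ∃ S : DS n m, ∀ g : Fin m → Fin n, (∀ s : Fin m, g s ∈ S.A g s s) →
      (LinearIndependent K fun s => B s (g s)) ∧
      ∀ u, LinearIndependent K fun f : {f // f ∈ S.A g m u} =>
        (Submodule.span K (Set.range fun s => B s (g s))).mkQ (B u f) := by
  let S : DS n m :=
    { A := fun g k u => (Dst B g k).2 u
      tau := fun g k u => Dtr B k (Dst B g k) u
      A_congr := by
        intro g g' k h
        funext u
        rw [Dst_congr B g g' k h]
      tau_congr := by
        intro g g' k h
        funext u
        rw [Dst_congr B g g' k h]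
      zero := fun g u => rfl
      card := by
        intro g k u hk h
        exact ((Dst_ok B g k hk h).2 u).2
      bij := by
        intro g k u h
        exact ((Dtr_spec B k _ (Dst_ok B g k k.2.le h)) u).1
      step := by
        intro g k u _
        rw [Dst_succ B g k] }
  refine ⟨S, fun g hg => ?_⟩
  have hok := Dst_ok B g m le_rfl fun s _ => hg s
  have hsp := Dst_span B g m le_rfl
  have huniv : {s : Fin m | (s : ℕ) < m} = Set.univ := by
    ext s
    simp
  rw [huniv, Set.image_univ] at hsp
  constructor
  · rw [linearIndependent_iff_card_le_finrank_span, Fintype.card_fin, Set.finrank, ← hsp]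
    exact hok.1.ge
  · intro u
    have h1 := (hok.2 u).1
    rw [hsp] at h1
    exact h1

end Pool.Agent.H61.KA
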