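import Pool.Agent.H61.KA.Fill

/-!
# KA-22. Filling the last cells by switching

Induction on the number of cells not in `P`, with a counter `u j` of the uses of column `j` as `j' ≠ j` in `fill`. It is best to prove a
general statement with the data `q P R Q u` and the invariants: `Sel K B q P`; `W i <= R i`, `W' j <= Q j`, the selected vectors of row `i` are in
`R i`, of column `j` in `Q j`;
`finrank (R i) + unf i <= finrank (W i) + b`, `finrank (Q j) + unf' j <= finrank (W' j) + b + u j`, `u j <= cap`;
`∑ u + (number of cells not in P) <= b m`. (`unf i`, `unf' j` = number of cells of the line not in `P`, `m = card ι`.) Start: `R = W`,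
`Q = W'`, `u = 0`. Step: apply `fill` with `ex = poor ∪ ovr`,
`poor = {j' | (Fs i j').card < s}`, `over = {j' | cap <= u j'}`: `ovr.card * cap <= ∑ u <= b m < cap (n - m - b + 1)`, so
`ovr.card <= n - m - b` and `ex.card + m <= n`.
For `j' ∉ ex`: `(Fs i j').card >= s > 2 b + cap`, and by `card_mem_le` at most `finrank (R i) - finrank (W i) <= b` elements of
`Fs i j'` are in `R i`, at most `finrank (Q j') - finrank (W' j') <= b + cap` in `Q j'`; so `hrich` holds.
New data: `q'`, `insert (i, j) P`, `R i ⊔ span {x}`, `Q j ⊔ span {y}`, `Q j' ⊔ span {x}` and `u j' + 1` if `j' ≠ j`.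
When all cells are in `P`, `Sel` is the conclusion.
-/

set_option autoImplicit false

namespace Pool.Agent.H61.KA

open Finset

section

variable {K V ι : Type*} [Field K] [AddCommGroup V] [Module K V] {n : ℕ}

private theorem switch_row_same [Fintype ι] [DecidableEq ι] (P : Finset (ι × ι)) (i j : ι)
    (h : (i, j) ∉ P) :
    (univ.filter fun j₁ => (i, j₁) ∉ insert (i, j) P).card + 1 =
      (univ.filter fun j₁ => (i, j₁) ∉ P).card := by
  have e : (univ.filter fun j₁ => (i, j₁) ∉ insert (i, j) P) =
      (univ.filter fun j₁ => (i, j₁) ∉ P).erase j := by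
    ext j₁
    simp only [mem_filter, mem_univ, true_and, mem_insert, Prod.mk.injEq, mem_erase, not_or]
  rw [e]
  exact card_erase_add_one (by simpa using h)

private theorem switch_row_other [Fintype ι] [DecidableEq ι] (P : Finset (ι × ι)) (i j i₁ : ι)
    (h : i₁ ≠ i) :
    (univ.filter fun j₁ => (i₁, j₁) ∉ insert (i, j) P) = univ.filter fun j₁ => (i₁, j₁) ∉ P := by
  ext j₁
  simp only [mem_filter, mem_univ, true_and, mem_insert, Prod.mk.injEq, h, false_and, false_or]

private theorem switch_col_same [Fintype ι] [DecidableEq ι] (P : Finset (ι × ι)) (i j : ι)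
    (h : (i, j) ∉ P) :
    (univ.filter fun i₁ => (i₁, j) ∉ insert (i, j) P).card + 1 =
      (univ.filter fun i₁ => (i₁, j) ∉ P).card := by
  have e : (univ.filter fun i₁ => (i₁, j) ∉ insert (i, j) P) =
      (univ.filter fun i₁ => (i₁, j) ∉ P).erase i := by
    ext i₁
    simp only [mem_filter, mem_univ, true_and, mem_insert, Prod.mk.injEq, mem_erase, not_or,
      and_true]
  rw [e]
  exact card_erase_add_one (by simpa using h)

private theorem switch_col_other [Fintype ι] [DecidableEq ι] (P : Finset (ι × ι)) (i j j₁ : ι)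
    (h : j₁ ≠ j) :
    (univ.filter fun i₁ => (i₁, j₁) ∉ insert (i, j) P) = univ.filter fun i₁ => (i₁, j₁) ∉ P := by
  ext i₁
  simp only [mem_filter, mem_univ, true_and, mem_insert, Prod.mk.injEq, h, and_false, false_or]

private theorem switch_sup_le [FiniteDimensional K V] (R : Submodule K V) (x : V) :
    Module.finrank K ↥(R ⊔ Submodule.span K {x}) ≤ Module.finrank K R + 1 := by
  refine (Submodule.finrank_add_le_finrank_add_finrank R (Submodule.span K {x})).trans ?_
  have h := finrank_span_le_card (R := K) ({x} : Set V)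
  simp only [Set.toFinset_singleton, card_singleton] at h
  omega

private theorem switch_aux [Fintype ι] [DecidableEq ι] [FiniteDimensional K V]
    (B : ι → ι → Fin n → V) (hB : ∀ i j, LinearIndependent K (B i j))
    (W W' : ι → Submodule K V) (Fs : ι → ι → Finset (Fin n))
    (hF : ∀ i j, LinearIndependent K fun f : {f // f ∈ Fs i j} => (W i).mkQ (B i j f))
    (hF' : ∀ i j, LinearIndependent K fun f : {f // f ∈ Fs i j} => (W' j).mkQ (B i j f))
    (b s cap : ℕ) (hpoor : ∀ i, (univ.filter fun j => (Fs i j).card < s).card ≤ b)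
    (hs : 2 * b + cap < s)
    (hcap : Fintype.card ι + b ≤ n)
    (hcap' : b * Fintype.card ι < cap * (n - Fintype.card ι - b + 1)) :
    ∀ (k : ℕ) (q : ι → ι → Fin n) (P : Finset (ι × ι)) (R Q : ι → Submodule K V) (u : ι → ℕ),
      (univ.filter fun c : ι × ι => c ∉ P).card = k → Sel K B q P →
      (∀ i, W i ≤ R i) → (∀ j, W' j ≤ Q j) →
      (∀ i j, (i, j) ∈ P → B i j (q i j) ∈ R i) → (∀ i j, (i, j) ∈ P → B i j (q i j) ∈ Q j) →
      (∀ i, Module.finrank K (R i) + (univ.filter fun j => (i, j) ∉ P).card ≤
        Module.finrank K (W i) + b) →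
      (∀ j, Module.finrank K (Q j) + (univ.filter fun i => (i, j) ∉ P).card ≤
        Module.finrank K (W' j) + b + u j) →
      (∀ j, u j ≤ cap) → ∑ j, u j + k ≤ b * Fintype.card ι →
      ∃ q' : ι → ι → Fin n, (∀ i, LinearIndependent K fun j => B i j (q' i j)) ∧
        ∀ j, LinearIndependent K fun i => B i j (q' i j) := by
  intro k
  induction k with
  | zero =>
    intro q P R Q u hk hS _ _ _ _ _ _ _ _
    have hall : ∀ i j, (i, j) ∈ P := by
      intro i j
      by_contra h
      have : (i, j) ∈ univ.filter fun c : ι × ι => c ∉ P := by simpa using h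
      rw [card_eq_zero.1 hk] at this
      exact absurd this (notMem_empty _)
    refine ⟨q, fun i => ?_, fun j => ?_⟩
    · exact (hS.1 i).comp (fun j => ⟨j, hall i j⟩) fun a c h => congrArg Subtype.val h
    · exact (hS.2 j).comp (fun i => ⟨i, hall i j⟩) fun a c h => congrArg Subtype.val h
  | succ k ih =>
    intro q P R Q u hk hS hWR hWQ hR hQ hr hc hu hsum
    obtain ⟨⟨i, j⟩, hij'⟩ : (univ.filter fun c : ι × ι => c ∉ P).Nonempty := by
      rw [← card_pos, hk]; omega
    have hij : (i, j) ∉ P := (mem_filter.1 hij').2
    set poor := univ.filter fun j' => (Fs i j').card < s with hpo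
    set ovr := univ.filter fun j' => cap ≤ u j' with hov
    have hov1 : ovr.card * cap ≤ ∑ j, u j := by
      rw [← smul_eq_mul]
      refine (card_nsmul_le_sum ovr u cap fun j' hj' => (mem_filter.1 hj').2).trans ?_
      exact sum_le_sum_of_subset (subset_univ _)
    have hov2 : ovr.card ≤ n - Fintype.card ι - b := by
      by_contra hcon
      have h1 : n - Fintype.card ι - b + 1 ≤ ovr.card := by omega
      have h2 : cap * (n - Fintype.card ι - b + 1) ≤ cap * ovr.card := Nat.mul_le_mul_left _ h1
      rw [mul_comm cap ovr.card] at h2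
      omega
    have hex : (poor ∪ ovr).card + Fintype.card ι ≤ n := by
      have h1 := card_union_le poor ovr
      have h2 := hpoor i
      rw [← hpo] at h2
      omega
    have hrich : ∀ j', j' ∉ poor ∪ ovr → ∃ f, B i j' f ∉ R i ∧ B i j' f ∉ Q j' := by
      intro j' hj'
      classical
      rw [mem_union, not_or] at hj'
      have h1 : s ≤ (Fs i j').card := by
        by_contra hcon
        exact hj'.1 (mem_filter.2 ⟨mem_univ _, by omega⟩)
      have h2 : u j' < cap := by
        by_contra hcon
        exact hj'.2 (mem_filter.2 ⟨mem_univ _, by omega⟩)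
      have g1 := card_mem_le (W i) (R i) (hWR i) (B i j') (Fs i j')
        ((Fs i j').filter fun f => B i j' f ∈ R i) (hF i j') (filter_subset _ _)
        fun f hf => (mem_filter.1 hf).2
      have g2 := card_mem_le (W' j') (Q j') (hWQ j') (B i j') (Fs i j')
        ((Fs i j').filter fun f => B i j' f ∈ Q j') (hF' i j') (filter_subset _ _)
        fun f hf => (mem_filter.1 hf).2
      have g3 := hr i
      have g4 := hc j'
      by_contra hcon
      push Not at hcon
      have h5 : Fs i j' ⊆ ((Fs i j').filter fun f => B i j' f ∈ R i) ∪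
          ((Fs i j').filter fun f => B i j' f ∈ Q j') := by
        intro f hf
        rw [mem_union, mem_filter, mem_filter]
        by_cases h6 : B i j' f ∈ R i
        · exact Or.inl ⟨hf, h6⟩
        · exact Or.inr ⟨hf, hcon f h6⟩
      have h6 := (card_le_card h5).trans (card_union_le _ _)
      omega
    obtain ⟨q', j', x, y, hj', hS', hx, hy, hx', hq⟩ :=
      fill B hB q P hS R Q hR hQ i j hij (poor ∪ ovr) hex hrich
    have hne : j' ≠ j → u j' < cap := by
      intro h
      rcases hj' with h1 | h1
      · exact absurd h1 h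
      · rw [mem_union, not_or] at h1
        by_contra hcon
        exact h1.2 (mem_filter.2 ⟨mem_univ _, by omega⟩)
    have hins : ∀ i₁ j₁, (i₁, j₁) ∈ insert (i, j) P → ¬ (i₁ = i ∧ j₁ = j) → (i₁, j₁) ∈ P := by
      intro i₁ j₁ h h'
      rw [mem_insert, Prod.mk.injEq] at h
      exact h.resolve_left h'
    refine ih q' (insert (i, j) P) (fun i₁ => if i₁ = i then R i ⊔ Submodule.span K {x} else R i₁)
      (fun j₁ => if j₁ = j then Q j ⊔ Submodule.span K {y} else
        if j₁ = j' then Q j' ⊔ Submodule.span K {x} else Q j₁)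
      (fun j₁ => if j₁ = j' ∧ j' ≠ j then u j' + 1 else u j₁) ?_ hS' ?_ ?_ ?_ ?_ ?_ ?_ ?_ ?_
    · have e : (univ.filter fun c : ι × ι => c ∉ insert (i, j) P) =
          (univ.filter fun c : ι × ι => c ∉ P).erase (i, j) := by
        ext c
        simp only [mem_filter, mem_univ, true_and, mem_insert, mem_erase, not_or]
      rw [e, card_erase_of_mem hij', hk]
      rfl
    · intro i₁
      by_cases h : i₁ = i
      · simp only [h, if_true]; exact (hWR i).trans le_sup_left
      · simp only [if_neg h]; exact hWR i₁
    · intro j₁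
      by_cases h : j₁ = j
      · simp only [h, if_true]; exact (hWQ j).trans le_sup_left
      · by_cases h' : j₁ = j'
        · simp only [if_neg h, if_pos h']
          rw [h']
          exact (hWQ j').trans le_sup_left
        · simp only [if_neg h, if_neg h']; exact hWQ j₁
    · intro i₁ j₁ h
      by_cases h1 : i₁ = i
      · subst h1
        simp only [if_true]
        exact hx j₁ h
      · simp only [if_neg h1]
        rw [hq i₁ j₁ fun h2 => h1 h2.1]
        exact hR i₁ j₁ (hins i₁ j₁ h fun h2 => h1 h2.1)
    · intro i₁ j₁ h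
      by_cases h1 : j₁ = j
      · subst h1
        simp only [if_true]
        exact hy i₁ h
      · by_cases h2 : j₁ = j'
        · subst h2
          simp only [if_neg h1, if_true]
          exact hx' i₁ h h1
        · simp only [if_neg h1, if_neg h2]
          rw [hq i₁ j₁ fun h3 => h3.2.elim h1 h2]
          exact hQ i₁ j₁ (hins i₁ j₁ h fun h3 => h1 h3.2)
    · intro i₁
      by_cases h1 : i₁ = i
      · subst h1
        have e : (if i₁ = i₁ then R i₁ ⊔ Submodule.span K {x} else R i₁) =
            R i₁ ⊔ Submodule.span K {x} := if_pos rfl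
        have a1 := switch_row_same P i₁ j hij
        have a2 := switch_sup_le (K := K) (R i₁) x
        have a3 := hr i₁
        show Module.finrank K ↥(if i₁ = i₁ then R i₁ ⊔ Submodule.span K {x} else R i₁) + _ ≤ _
        rw [e]
        omega
      · have e : (if i₁ = i then R i ⊔ Submodule.span K {x} else R i₁) = R i₁ := if_neg h1
        show Module.finrank K ↥(if i₁ = i then R i ⊔ Submodule.span K {x} else R i₁) + _ ≤ _
        rw [e, switch_row_other P i j i₁ h1]
        exact hr i₁
    · intro j₁
      show Module.finrank K ↥(if j₁ = j then Q j ⊔ Submodule.span K {y} else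
        if j₁ = j' then Q j' ⊔ Submodule.span K {x} else Q j₁) + _ ≤
        _ + b + (if j₁ = j' ∧ j' ≠ j then u j' + 1 else u j₁)
      by_cases h1 : j₁ = j
      · have e : (if j₁ = j then Q j ⊔ Submodule.span K {y} else
          if j₁ = j' then Q j' ⊔ Submodule.span K {x} else Q j₁) = Q j ⊔ Submodule.span K {y} :=
          if_pos h1
        rw [e, h1]
        have a1 := switch_col_same P i j hij
        have a2 := switch_sup_le (K := K) (Q j) y
        have a3 := hc j
        have a4 : u j ≤ if j = j' ∧ j' ≠ j then u j' + 1 else u j := by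
          split_ifs with h
          · exact absurd h.1.symm h.2
          · exact le_rfl
        omega
      · rw [switch_col_other P i j j₁ h1]
        by_cases h2 : j₁ = j'
        · have e : (if j₁ = j then Q j ⊔ Submodule.span K {y} else
            if j₁ = j' then Q j' ⊔ Submodule.span K {x} else Q j₁) = Q j' ⊔ Submodule.span K {x} := by
            rw [if_neg h1, if_pos h2]
          have e2 : (if j₁ = j' ∧ j' ≠ j then u j' + 1 else u j₁) = u j' + 1 :=
            if_pos ⟨h2, fun h3 => h1 (h2.trans h3)⟩
          rw [e, e2, h2]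
          have a2 := switch_sup_le (K := K) (Q j') x
          have a3 := hc j'
          omega
        · have e : (if j₁ = j then Q j ⊔ Submodule.span K {y} else
            if j₁ = j' then Q j' ⊔ Submodule.span K {x} else Q j₁) = Q j₁ := by
            rw [if_neg h1, if_neg h2]
          have e2 : (if j₁ = j' ∧ j' ≠ j then u j' + 1 else u j₁) = u j₁ :=
            if_neg fun h3 => h2 h3.1
          rw [e, e2]
          exact hc j₁
    · intro j₁
      split_ifs with h
      · have := hne h.2
        omega
      · exact hu j₁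
    · have h1 : ∑ j₁, (if j₁ = j' ∧ j' ≠ j then u j' + 1 else u j₁) ≤
          ∑ j₁, (u j₁ + if j₁ = j' then 1 else 0) := by
        refine sum_le_sum fun j₁ _ => ?_
        split_ifs with h2 h3
        · rw [h2.1]
        · exact absurd h2.1 h3
        · omega
        · omega
      rw [sum_add_distrib, sum_ite_eq' univ j' fun _ => 1, if_pos (mem_univ _)] at h1
      omega

theorem switch [Fintype ι] [DecidableEq ι] [FiniteDimensional K V] (B : ι → ι → Fin n → V)
    (hB : ∀ i j, LinearIndependent K (B i j)) (q : ι → ι → Fin n) (P : Finset (ι × ι))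
    (hS : Sel K B q P) (W W' : ι → Submodule K V)
    (hW : ∀ i j, (i, j) ∈ P → B i j (q i j) ∈ W i) (hW' : ∀ i j, (i, j) ∈ P → B i j (q i j) ∈ W' j)
    (Fs : ι → ι → Finset (Fin n))
    (hF : ∀ i j, LinearIndependent K fun f : {f // f ∈ Fs i j} => (W i).mkQ (B i j f))
    (hF' : ∀ i j, LinearIndependent K fun f : {f // f ∈ Fs i j} => (W' j).mkQ (B i j f))
    (b s cap : ℕ) (hb1 : ∀ i, (univ.filter fun j => (i, j) ∉ P).card ≤ b)
    (hb2 : ∀ j, (univ.filter fun i => (i, j) ∉ P).card ≤ b)
    (hpoor : ∀ i, (univ.filter fun j => (Fs i j).card < s).card ≤ b)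
    (hs : 2 * b + cap < s)
    (hcap : Fintype.card ι + b ≤ n) (hcap' : b * Fintype.card ι < cap * (n - Fintype.card ι - b + 1)) :
    ∃ q' : ι → ι → Fin n, (∀ i, LinearIndependent K fun j => B i j (q' i j)) ∧
      ∀ j, LinearIndependent K fun i => B i j (q' i j) := by
  refine switch_aux B hB W W' Fs hF hF' b s cap hpoor hs hcap hcap'
    _ q P W W' (fun _ => 0) rfl hS (fun _ => le_rfl) (fun _ => le_rfl) hW hW' ?_ ?_
    (fun _ => Nat.zero_le _) ?_
  · intro i
    have := hb1 i
    omega
  · intro j
    have := hb2 j
    omega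
  · have e : (univ.filter fun c : ι × ι => c ∉ P).card =
        ∑ i, (univ.filter fun j => (i, j) ∉ P).card := by
      simp only [card_filter]
      rw [Fintype.sum_prod_type]
    rw [e]
    simp only [sum_const_zero, zero_add]
    refine (sum_le_card_nsmul univ _ b fun i _ => hb1 i).trans ?_
    rw [card_univ, smul_eq_mul, mul_comm]

end

end Pool.Agent.H61.KA
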