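import Pool.Agent.H61.KA.Core
import Pool.Agent.H61.KA.DSC
import Pool.Agent.H61.KA.Switch

/-!
# KA-23. Assembly

`b = a^3 / 64`, `K`, `N` from `core a b`. For the lines take `DS` from `exists_DS`: row `i`: bases `s |-> B i (i + s)`, column `j`:
bases `s |-> B (j - s) j` (`s : Fin m` cast to `ZMod m`). With the path `c` of `core` (`valid_hist`: the histories are valid):
`P = {(i, j) | Good a n (own (false, i) s) (own (true, j) s), s = slot (j - i)}`, `q i j = hist c (false, i) (slot (j - i))`; for `(i, j) ∈ P` the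
choice `c s i` is a pair `(e, e)` (`choices`), so `hist c (true, j) s = e` as well. `W i` = span of the picks of row `i`, `W' j` = span of the picks
of column `j`, `Fs i j = alive (false, i) m s ∩ alive (true, j) m s`. `Sel`: subfamilies of the independent picks, reindexed by the bijection
`s <-> i + s` (`s <-> j - s`). Numbers for `switch`: `bb = ⌊b n⌋`, `s0 = ⌈a^2 n / 4⌉`, `cap = ⌊a^2 n / 8⌋`: `2 bb + cap < s0`
(`a^3 n / 32 + a^2 n / 8 < a^2 n / 4`), `m + bb <= n`, and `bb m <= a^3 n^2 / 64 < cap (n - m - bb + 1)` since `n - m - bb >= 63 a n / 64` and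
`cap >= a^2 n / 8 - 1 >= a^2 n / 16` for `n >= 16 / a^2`. (`Good` with the final alive sets means `(Fs i j).card >= a^2 n / 4`, i.e. `>= s0`.)
-/

set_option autoImplicit false

namespace Pool.Agent.H61.KA

open Finset

/-- The bases of the line `l`. -/
noncomputable def assemBl {n m : ℕ} {F : Type*} [Field F]
    (B : ZMod m → ZMod m → Module.Basis (Fin n) F (Fin n → F)) (l : Ln m) (s : Fin m) :
    Module.Basis (Fin n) F (Fin n → F) :=
  if l.1 then B (l.2 - ((s : ℕ) : ZMod m)) l.2 else B l.2 (l.2 + ((s : ℕ) : ZMod m))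

theorem assem_slot_inj {m : ℕ} [NeZero m] {x y : ZMod m} (h : slot x = slot y) : x = y := by
  rw [← cast_slot x, ← cast_slot y, h]

theorem assem_Bl_row {n m : ℕ} [NeZero m] {F : Type*} [Field F]
    (B : ZMod m → ZMod m → Module.Basis (Fin n) F (Fin n → F)) (i j : ZMod m) :
    assemBl B (false, i) (slot (j - i)) = B i j := by
  simp [assemBl, cast_slot]

theorem assem_Bl_col {n m : ℕ} [NeZero m] {F : Type*} [Field F]
    (B : ZMod m → ZMod m → Module.Basis (Fin n) F (Fin n → F)) (i j : ZMod m) :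
    assemBl B (true, j) (slot (j - i)) = B i j := by
  simp [assemBl, cast_slot]

theorem assem_ptn_row {m : ℕ} [NeZero m] (i j : ZMod m) :
    ptn (false, i) (slot (j - i)) = (true, j) := by
  simp [ptn, cast_slot]

theorem assem_ptn_col {m : ℕ} [NeZero m] (i j : ZMod m) :
    ptn (true, j) (slot (j - i)) = (false, i) := by
  simp [ptn, cast_slot]

theorem assem_Good_comm (a : ℝ) (n : ℕ) (P Q : Finset (Fin n)) : Good a n P Q ↔ Good a n Q P := by
  unfold Good
  rw [inter_comm]

theorem assem_hist {n m : ℕ} [NeZero m] {a : ℝ} {S : Ln m → DS n m} {c : Pth n m}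
    (hv : Valid a S c m) (i j : ZMod m)
    (hg : Good a n (own S c (false, i) (slot (j - i))) (own S c (true, j) (slot (j - i)))) :
    hist c (true, j) (slot (j - i)) = hist c (false, i) (slot (j - i)) := by
  have h1 := hv (slot (j - i)) (slot (j - i)).2 i
  unfold C at h1
  rw [assem_ptn_row] at h1
  unfold choices at h1
  rw [if_pos hg, mem_image] at h1
  obtain ⟨e, -, he⟩ := h1
  simp only [hist, cast_slot]
  simp only [sub_sub_cancel, if_true, Bool.false_eq_true, if_false]
  rw [← he]

theorem assem_num {a : ℝ} (ha : 0 < a) (ha1 : a ≤ 1) {n m : ℕ} (hn : 16 / a ^ 2 ≤ n)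
    (hnm : a * n ≤ (n : ℝ) - m) :
    2 * ⌊a ^ 3 / 64 * (n : ℝ)⌋₊ + ⌊a ^ 2 * (n : ℝ) / 8⌋₊ < ⌈a ^ 2 * (n : ℝ) / 4⌉₊ ∧
    m + ⌊a ^ 3 / 64 * (n : ℝ)⌋₊ ≤ n ∧
    ⌊a ^ 3 / 64 * (n : ℝ)⌋₊ * m <
      ⌊a ^ 2 * (n : ℝ) / 8⌋₊ * (n - m - ⌊a ^ 3 / 64 * (n : ℝ)⌋₊ + 1) := by
  have ha2 : 0 < a ^ 2 := by positivity
  have ha3 : 0 < a ^ 3 := by positivity
  have h1 : 16 ≤ a ^ 2 * n := by
    rw [div_le_iff₀ ha2] at hn; linarith
  have hn0 : (0 : ℝ) < n := by
    by_contra h
    have : a ^ 2 * (n : ℝ) ≤ 0 := mul_nonpos_of_nonneg_of_nonpos ha2.le (not_lt.1 h)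
    linarith
  have h32 : a ^ 3 ≤ a ^ 2 := by nlinarith
  have h31 : a ^ 3 ≤ a := by nlinarith [mul_nonneg ha.le (sub_nonneg.2 ha1)]
  set bb := ⌊a ^ 3 / 64 * (n : ℝ)⌋₊ with hbb
  set cap := ⌊a ^ 2 * (n : ℝ) / 8⌋₊ with hcap
  have hbb1 : (bb : ℝ) ≤ a ^ 3 / 64 * n := Nat.floor_le (by positivity)
  have hcap1 : (cap : ℝ) ≤ a ^ 2 * n / 8 := Nat.floor_le (by positivity)
  have hcap2 : a ^ 2 * n / 16 ≤ (cap : ℝ) := by
    have := Nat.lt_floor_add_one (a ^ 2 * (n : ℝ) / 8)
    linarith
  have hm0 : (0 : ℝ) ≤ m := Nat.cast_nonneg m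
  have hA : m + bb ≤ n := by
    have : (m : ℝ) + bb ≤ n := by nlinarith
    exact_mod_cast this
  refine ⟨?_, hA, ?_⟩
  · rw [Nat.lt_ceil]
    push_cast
    nlinarith
  · have hR : ((n - m - bb + 1 : ℕ) : ℝ) = (n : ℝ) - m - bb + 1 := by
      rw [Nat.sub_sub, Nat.cast_add, Nat.cast_sub hA]
      push_cast
      ring
    have : (bb : ℝ) * m < (cap : ℝ) * ((n - m - bb + 1 : ℕ) : ℝ) := by
      rw [hR]
      have hx : 63 / 64 * a * n ≤ (n : ℝ) - m - bb + 1 := by nlinarith
      have hmn : (m : ℝ) ≤ n := by nlinarith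
      have e1 : (bb : ℝ) * m ≤ a ^ 3 / 64 * n * n :=
        mul_le_mul hbb1 hmn hm0 (by positivity)
      have e2 : a ^ 2 * n / 16 * (63 / 64 * a * n) ≤ (cap : ℝ) * ((n : ℝ) - m - bb + 1) :=
        mul_le_mul hcap2 hx (by positivity) (by positivity)
      have e3 : a ^ 3 / 64 * n * n < a ^ 2 * n / 16 * (63 / 64 * a * n) := by
        have : 0 < a ^ 3 * (n * n) := by positivity
        nlinarith
      linarith
    exact_mod_cast this

theorem kahn_div (a : ℝ) (ha : 0 < a) (ha1 : a ≤ 1) : ∃ K N : ℕ, 0 < K ∧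
    ∀ n m : ℕ, ∀ [NeZero m], N ≤ n → K ∣ m → a * n ≤ (n : ℝ) - m →
      ∀ (F : Type*) [Field F] (B : ZMod m → ZMod m → Module.Basis (Fin n) F (Fin n → F)),
        ∃ q : ZMod m → ZMod m → Fin n, (∀ i, LinearIndependent F fun j => B i j (q i j)) ∧
          ∀ j, LinearIndependent F fun i => B i j (q i j) := by
  classical
  obtain ⟨K, N, hK, hcore⟩ := core a (a ^ 3 / 64) ha ha1 (by positivity)
  refine ⟨K, max N ⌈16 / a ^ 2⌉₊, hK, ?_⟩
  intro n m _ hN hKm hnm F _ B
  have hn16 : 16 / a ^ 2 ≤ (n : ℝ) :=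
    (Nat.le_ceil _).trans (by exact_mod_cast (le_max_right N _).trans hN)
  have hmn : m ≤ n := by
    have : (0 : ℝ) ≤ a * n := by positivity
    have : (m : ℝ) ≤ n := by linarith
    exact_mod_cast this
  obtain ⟨hs, hcap, hcap'⟩ := assem_num ha ha1 hn16 hnm
  choose S hS using fun l : Ln m => exists_DS (K := F) (V := Fin n → F) hmn (assemBl B l)
  obtain ⟨c, hv, hbad⟩ := hcore n m ((le_max_left _ _).trans hN) hKm hnm S
  have hval : ∀ l : Ln m, ∀ s : Fin m, hist c l s ∈ (S l).A (hist c l) s s :=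
    fun l s => valid_hist hv l s s.2
  have hL := fun l : Ln m => (hS l (hist c l) (hval l)).1
  have hA := fun l : Ln m => (hS l (hist c l) (hval l)).2
  set P : Finset (ZMod m × ZMod m) := univ.filter fun p =>
    Good a n (own S c (false, p.1) (slot (p.2 - p.1))) (own S c (true, p.2) (slot (p.2 - p.1)))
    with hP
  have hmem : ∀ i j, (i, j) ∈ P ↔
      Good a n (own S c (false, i) (slot (j - i))) (own S c (true, j) (slot (j - i))) := by
    intro i j
    simp [hP]
  set q : ZMod m → ZMod m → Fin n := fun i j => hist c (false, i) (slot (j - i)) with hq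
  have hrow : ∀ i j, B i j (q i j) =
      assemBl B (false, i) (slot (j - i)) (hist c (false, i) (slot (j - i))) := by
    intro i j
    rw [assem_Bl_row]
  have hcol : ∀ i j, (i, j) ∈ P → B i j (q i j) =
      assemBl B (true, j) (slot (j - i)) (hist c (true, j) (slot (j - i))) := by
    intro i j h
    rw [assem_Bl_col, assem_hist hv i j ((hmem i j).1 h)]
  have hSel : Sel F (fun i j e => B i j e) q P := by
    constructor
    · intro i
      have := (hL (false, i)).comp (fun j : {j // (i, j) ∈ P} => slot ((j : ZMod m) - i)) (by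
        intro j j' h
        have := assem_slot_inj h
        exact Subtype.ext (sub_left_injective this))
      convert this using 2 with j
      exact hrow i j
    · intro j
      have := (hL (true, j)).comp (fun i : {i // (i, j) ∈ P} => slot (j - (i : ZMod m))) (by
        intro i i' h
        have := assem_slot_inj h
        exact Subtype.ext (sub_right_injective this))
      convert this using 2 with i
      exact hcol i j i.2
  refine switch (K := F) (V := Fin n → F) (ι := ZMod m) (fun i j e => B i j e)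
    (fun i j => (B i j).linearIndependent) q P hSel
    (fun i => Submodule.span F (Set.range fun s => assemBl B (false, i) s (hist c (false, i) s)))
    (fun j => Submodule.span F (Set.range fun s => assemBl B (true, j) s (hist c (true, j) s)))
    ?_ ?_ (fun i j => alive S c (false, i) m (slot (j - i)) ∩ alive S c (true, j) m (slot (j - i)))
    ?_ ?_ ⌊a ^ 3 / 64 * (n : ℝ)⌋₊ ⌈a ^ 2 * (n : ℝ) / 4⌉₊ ⌊a ^ 2 * (n : ℝ) / 8⌋₊ ?_ ?_ ?_ hs
    ?_ ?_
  · intro i j _
    refine Submodule.subset_span ⟨slot (j - i), ?_⟩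
    exact (hrow i j).symm
  · intro i j h
    refine Submodule.subset_span ⟨slot (j - i), ?_⟩
    exact (hcol i j h).symm
  · intro i j
    have := (hA (false, i) (slot (j - i))).comp
      (fun f : {f // f ∈ alive S c (false, i) m (slot (j - i)) ∩
        alive S c (true, j) m (slot (j - i))} =>
        (⟨f.1, (mem_inter.1 f.2).1⟩ : {f // f ∈ (S (false, i)).A (hist c (false, i)) m
          (slot (j - i))})) (by
        intro f f' h
        exact Subtype.ext (congrArg (fun x => x.1) h))
    convert this using 2 with f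
    simp only [Function.comp_apply]
    rw [assem_Bl_row]
  · intro i j
    have := (hA (true, j) (slot (j - i))).comp
      (fun f : {f // f ∈ alive S c (false, i) m (slot (j - i)) ∩
        alive S c (true, j) m (slot (j - i))} =>
        (⟨f.1, (mem_inter.1 f.2).2⟩ : {f // f ∈ (S (true, j)).A (hist c (true, j)) m
          (slot (j - i))})) (by
        intro f f' h
        exact Subtype.ext (congrArg (fun x => x.1) h))
    convert this using 2 with f
    simp only [Function.comp_apply]
    rw [assem_Bl_col]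
  · intro i
    refine Nat.le_floor (le_trans ?_ (hbad (false, i)).1)
    exact_mod_cast card_le_card_of_injOn (fun j => slot (j - i)) (by
      intro j hj
      simp only [coe_filter, mem_univ, true_and, Set.mem_ofPred_eq] at hj ⊢
      rw [assem_ptn_row]
      exact fun h => hj ((hmem i j).2 h)) (by
      intro j _ j' _ h
      exact sub_left_injective (assem_slot_inj h))
  · intro j
    refine Nat.le_floor (le_trans ?_ (hbad (true, j)).1)
    exact_mod_cast card_le_card_of_injOn (fun i => slot (j - i)) (by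
      intro i hi
      simp only [coe_filter, mem_univ, true_and, Set.mem_ofPred_eq] at hi ⊢
      rw [assem_ptn_col]
      exact fun h => hi ((hmem i j).2 ((assem_Good_comm _ _ _ _).1 h))) (by
      intro i _ i' _ h
      exact sub_right_injective (assem_slot_inj h))
  · intro i
    refine Nat.le_floor (le_trans ?_ (hbad (false, i)).2)
    exact_mod_cast card_le_card_of_injOn (fun j => slot (j - i)) (by
      intro j hj
      simp only [coe_filter, mem_univ, true_and, Set.mem_ofPred_eq] at hj ⊢
      rw [assem_ptn_row]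
      intro h
      rw [Nat.lt_ceil] at hj
      exact absurd h (not_le.2 hj)) (by
      intro j _ j' _ h
      exact sub_left_injective (assem_slot_inj h))
  · rw [ZMod.card]; exact hcap
  · rw [ZMod.card]; exact hcap'

end Pool.Agent.H61.KA
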