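import Pool.Agent.H61.KA.Basic

/-!
# KA-04. The average decrease of a test in one time step

For one cell with alive sets `P` (row) and `Q` (column), both nonempty (in the good case `P ∩ Q` is nonempty):
the average over `choices a P Q` of the indicator of `v.1 ∈ Z` is `rho a P Q (P.filter (· ∈ Z))`, the average of the indicator of
`v.2 ∈ Z` is `rho a Q P (Q.filter (· ∈ Z))` (`P ∩ Q = Q ∩ P`, so `Good` is symmetric; in the bad case the choices are the product).
Then the sum over the rows is reindexed as in KA-03 (see the header of `StepX.lean`): for `w.1 = (true, j)` the row is `i = j - t = (ptn w.1 t).2` and the average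
is over `v.1`; for `w.1 = (false, i0)` the column is `i + s = i0 + t`, its partner at time `s` is the row `i`, and the average is
over `v.2`.
-/

set_option autoImplicit false

namespace Pool.Agent.H61.KA

open Finset

variable {n m : ℕ}

theorem avg_fst (a : ℝ) (P Q : Finset (Fin n)) (hQ : Q.card ≠ 0) (p : Fin n → Prop)
    [DecidablePred p] (f : Fin n × Fin n → ℝ) (hf : ∀ v, f v = if p v.1 then 1 else 0) :
    avg (choices a P Q) f = rho a P Q (P.filter p) := by
  classical
  unfold avg choices rho
  have hQ' : (Q.card : ℝ) ≠ 0 := by exact_mod_cast hQ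
  simp only [hf]
  split_ifs with hg
  · have h0 : ∀ x ∈ P ∩ Q, ∀ y ∈ P ∩ Q, ((x, x) : Fin n × Fin n) = (y, y) → x = y :=
      fun x _ y _ h => congrArg Prod.fst h
    rw [Finset.sum_image h0, Finset.card_image_of_injOn fun x hx y hy h => h0 x hx y hy h]
    congr 1
    rw [Finset.sum_boole]
    congr 2
    ext e
    simp only [mem_filter, mem_inter]
    tauto
  · rw [Finset.sum_product, Finset.card_product]
    have h1 : ∀ x ∈ P, ∑ y ∈ Q, (if p ((x, y) : Fin n × Fin n).1 then (1 : ℝ) else 0) =
        Q.card * (if p x then (1 : ℝ) else 0) := by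
      intro x _
      show ∑ y ∈ Q, (if p x then (1 : ℝ) else 0) = _
      rw [Finset.sum_const, nsmul_eq_mul]
    rw [Finset.sum_congr rfl h1, ← Finset.mul_sum, Finset.sum_boole, Nat.cast_mul,
      mul_comm (P.card : ℝ), mul_div_mul_left _ _ hQ']

theorem avg_snd (a : ℝ) (P Q : Finset (Fin n)) (hP : P.card ≠ 0) (p : Fin n → Prop)
    [DecidablePred p] (f : Fin n × Fin n → ℝ) (hf : ∀ v, f v = if p v.2 then 1 else 0) :
    avg (choices a P Q) f = rho a Q P (Q.filter p) := by
  classical
  have hg' : Good a n P Q ↔ Good a n Q P := by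
    unfold Good
    rw [inter_comm]
  unfold avg choices rho
  have hP' : (P.card : ℝ) ≠ 0 := by exact_mod_cast hP
  simp only [hf]
  by_cases hg : Good a n P Q
  · rw [if_pos hg, if_pos (hg'.1 hg)]
    have h0 : ∀ x ∈ P ∩ Q, ∀ y ∈ P ∩ Q, ((x, x) : Fin n × Fin n) = (y, y) → x = y :=
      fun x _ y _ h => congrArg Prod.fst h
    rw [Finset.sum_image h0, Finset.card_image_of_injOn fun x hx y hy h => h0 x hx y hy h,
      inter_comm P Q]
    congr 1
    rw [Finset.sum_boole]
    congr 2
    ext e
    simp only [mem_filter, mem_inter]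
    tauto
  · rw [if_neg hg, if_neg fun h => hg (hg'.2 h)]
    rw [Finset.sum_product, Finset.card_product]
    have h1 : ∀ x ∈ P, ∑ y ∈ Q, (if p ((x, y) : Fin n × Fin n).2 then (1 : ℝ) else 0) =
        ((Q.filter p).card : ℝ) := by
      intro x _
      show ∑ y ∈ Q, (if p y then (1 : ℝ) else 0) = _
      rw [Finset.sum_boole]
    rw [Finset.sum_congr rfl h1, Finset.sum_const, nsmul_eq_mul, Nat.cast_mul,
      mul_div_mul_left _ _ hP']

theorem avg_own_card {a : ℝ} {S : Ln m → DS n m} {c : Pth n m} (hnm : m < n)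
    (s : Fin m) (hv : Valid a S c s) (l : Ln m) : (own S c l s).card ≠ 0 := by
  have h := card_alive hv l s s le_rfl s.2.le
  have h2 := s.2
  unfold own
  omega

theorem sum_avg [NeZero m] {a : ℝ} (ha : 0 < a) {S : Ln m → DS n m} {c : Pth n m} (hnm : m < n)
    (w : Ln m × Idx n m) (s : Fin m) (hv : Valid a S c s) :
    ∑ i, avg (C a S s c i) (D S s c w i) =
      ∑ t : Fin m, rho a (own S c (ptn w.1 t) s) (own S c (ptn (ptn w.1 t) s) s)
        (hit S c (ptn w.1 t) s t (fam S w t)) := by
  obtain ⟨⟨b, j⟩, x⟩ := w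
  cases b with
  | true =>
    rw [sum_slot1 j]
    refine Finset.sum_congr rfl fun t _ => ?_
    have hp : ptn ((true, j) : Ln m) t = (false, j - ((t : ℕ) : ZMod m)) := rfl
    have hs : (slot (j - (j - ((t : ℕ) : ZMod m))) : Fin m) = t := by
      rw [sub_sub_cancel, slot_cast]
    show avg (C a S s c (j - ((t : ℕ) : ZMod m))) _ =
      rho a (own S c (ptn ((true, j) : Ln m) t) s) (own S c (ptn (ptn ((true, j) : Ln m) t) s) s)
        (hit S c (ptn ((true, j) : Ln m) t) s t (fam S ((true, j), x) t))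
    rw [hp]
    unfold C hit
    refine avg_fst a _ _ (avg_own_card hnm s hv _) _ _ fun v => ?_
    unfold D
    rw [if_pos rfl, hs]
  | false =>
    rw [sum_slot2 j ((s : ℕ) : ZMod m)]
    refine Finset.sum_congr rfl fun t _ => ?_
    have hp : ptn ((false, j) : Ln m) t = (true, j + ((t : ℕ) : ZMod m)) := rfl
    have hp2 : ptn ((true, j + ((t : ℕ) : ZMod m)) : Ln m) s =
        (false, j + ((t : ℕ) : ZMod m) - ((s : ℕ) : ZMod m)) := rfl
    have hp3 : ptn ((false, j + ((t : ℕ) : ZMod m) - ((s : ℕ) : ZMod m)) : Ln m) s =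
        (true, j + ((t : ℕ) : ZMod m)) := by
      show ((true, j + ((t : ℕ) : ZMod m) - ((s : ℕ) : ZMod m) + ((s : ℕ) : ZMod m)) : Ln m) = _
      rw [sub_add_cancel]
    have hs : (slot (j + ((t : ℕ) : ZMod m) - ((s : ℕ) : ZMod m) + ((s : ℕ) : ZMod m) - j) :
        Fin m) = t := by
      rw [sub_add_cancel, add_sub_cancel_left, slot_cast]
    show avg (C a S s c (j + ((t : ℕ) : ZMod m) - ((s : ℕ) : ZMod m))) _ =
      rho a (own S c (ptn ((false, j) : Ln m) t) s) (own S c (ptn (ptn ((false, j) : Ln m) t) s) s)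
        (hit S c (ptn ((false, j) : Ln m) t) s t (fam S ((false, j), x) t))
    rw [hp, hp2]
    unfold C hit
    rw [hp3]
    refine avg_snd a _ _ (avg_own_card hnm s hv _) _ _ fun v => ?_
    unfold D
    rw [if_neg (by simp), hs, sub_add_cancel]

end Pool.Agent.H61.KA
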