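import Pool.Agent.H61.KA.Defs

/-!
# KA-01. Basic properties, part 1

`hist c l t` uses only `c t`, so everything at time `s` depends only on `c` before time `s` (`S.A_congr`, `S.tau_congr`); note
`own S c l t = (S l).A (hist c l) t t`. `choices a P Q` is a subset of `P x Q`.
`sum_slot1`, `sum_slot2`: `t |-> (t : ZMod m)` is a bijection from `Fin m` to `ZMod m` (inverse `slot`).
-/

set_option autoImplicit false

namespace Pool.Agent.H61.KA

open Finset

variable {n m : ℕ}

theorem ptn_ptn (l : Ln m) (t : Fin m) : ptn (ptn l t) t = l := by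
  obtain ⟨b, z⟩ := l
  cases b <;> simp [ptn]

theorem ptn_fst (l : Ln m) (t : Fin m) : (ptn l t).1 = !l.1 := by
  obtain ⟨b, z⟩ := l
  cases b <;> simp [ptn]

theorem cast_slot [NeZero m] (z : ZMod m) : (((slot z : Fin m) : ℕ) : ZMod m) = z :=
  ZMod.natCast_zmod_val z

theorem slot_cast [NeZero m] (t : Fin m) : slot ((t : ℕ) : ZMod m) = t :=
  Fin.ext (ZMod.val_cast_of_lt t.2)

theorem sum_slot1 [NeZero m] (j : ZMod m) (G : ZMod m → ℝ) :
    ∑ i, G i = ∑ t : Fin m, G (j - ((t : ℕ) : ZMod m)) := by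
  refine Finset.sum_nbij' (fun i => slot (j - i)) (fun t => j - ((t : ℕ) : ZMod m)) ?_ ?_ ?_ ?_ ?_
  · intro i _
    exact Finset.mem_univ _
  · intro t _
    exact Finset.mem_univ _
  · intro i _
    simp only [cast_slot, sub_sub_cancel]
  · intro t _
    simp only [sub_sub_cancel, slot_cast]
  · intro i _
    simp only [cast_slot, sub_sub_cancel]

theorem sum_slot2 [NeZero m] (i₀ s : ZMod m) (G : ZMod m → ℝ) :
    ∑ i, G i = ∑ t : Fin m, G (i₀ + ((t : ℕ) : ZMod m) - s) := by
  refine Finset.sum_nbij' (fun i => slot (i + s - i₀))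
    (fun t => i₀ + ((t : ℕ) : ZMod m) - s) ?_ ?_ ?_ ?_ ?_
  · intro i _
    exact Finset.mem_univ _
  · intro t _
    exact Finset.mem_univ _
  · intro i _
    simp only [cast_slot]
    ring
  · intro t _
    have h : i₀ + ((t : ℕ) : ZMod m) - s + s - i₀ = ((t : ℕ) : ZMod m) := by ring
    simp only [h, slot_cast]
  · intro i _
    simp only [cast_slot]
    congr 1
    ring

theorem basic1_hist (c c' : Pth n m) (l : Ln m) (T : ℕ)
    (h : ∀ s : ℕ, s < T → c s = c' s) (s : Fin m) (hs : (s : ℕ) < T) :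
    hist c l s = hist c' l s := by
  unfold hist
  rw [h s hs]

theorem basic1_own (S : Ln m → DS n m) (c c' : Pth n m) (l : Ln m) (t : Fin m)
    (h : ∀ s : ℕ, s < t → c s = c' s) : own S c l t = own S c' l t := by
  unfold own alive
  rw [(S l).A_congr (hist c l) (hist c' l) t (fun s hs => basic1_hist c c' l t h s hs)]

theorem C_congr (a : ℝ) (S : Ln m → DS n m) (t : Fin m) (c c' : Pth n m)
    (h : ∀ s : ℕ, s < t → c s = c' s) : C a S t c = C a S t c' := by
  funext i
  unfold C
  rw [basic1_own S c c' (false, i) t h, basic1_own S c c' (ptn (false, i) t) t h]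

theorem D_congr [NeZero m] (S : Ln m → DS n m) (s : Fin m) (c c' : Pth n m)
    (h : ∀ t : ℕ, t < s → c t = c' t) (w : Ln m × Idx n m) : D S s c w = D S s c' w := by
  have key : ∀ l : Ln m, (S l).tau (hist c l) s = (S l).tau (hist c' l) s := fun l =>
    (S l).tau_congr (hist c l) (hist c' l) s (fun t ht => basic1_hist c c' l s h t ht)
  funext i v
  unfold D
  rw [key (false, i), key (true, i + ((s : ℕ) : ZMod m))]

theorem D_bound [NeZero m] (S : Ln m → DS n m) (s : Fin m) (c : Pth n m) (w : Ln m × Idx n m)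
    (i : ZMod m) (v : Fin n × Fin n) : 0 ≤ D S s c w i v ∧ D S s c w i v ≤ 1 := by
  unfold D
  split_ifs <;> norm_num

theorem choices_subset (a : ℝ) (P Q : Finset (Fin n)) : choices a P Q ⊆ P ×ˢ Q := by
  unfold choices
  split_ifs
  · intro v hv
    obtain ⟨e, he, rfl⟩ := Finset.mem_image.1 hv
    rw [Finset.mem_inter] at he
    exact Finset.mem_product.2 he
  · exact Finset.Subset.refl _

end Pool.Agent.H61.KA
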