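import Pool.Agent.H61.KA.Basic1

/-!
# KA-02. Basic properties, part 2 (valid paths)

`valid_hist`: `choices_subset`; for a row `(false, i)`: `hist c (false, i) t = (c t i).1`; for a column `(true, j)`: the cell at time `t` is
in row `i = j - t`, `ptn (false, i) t = (true, j)`, `hist c (true, j) t = (c t (j - t)).2`. The other statements are the fields of `DS`
applied to `hist c l` (`valid_hist` gives the hypotheses). `hit_card`: `tau` is a bijection from `own` to `alive S c l s u` (`DS.bij`),
so it maps `hit` bijectively to `alive S c l s u ∩ V`. `C_nonempty`: the own sets have `n - t > 0` elements; in the good case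
`a^2 n / 4 > 0`.
-/

set_option autoImplicit false

namespace Pool.Agent.H61.KA

open Finset

variable {n m : ℕ}

/-- the picks of the cells are in the own sets of the lines -/
theorem basic2_choices {a : ℝ} {P Q : Finset (Fin n)} {v : Fin n × Fin n}
    (h : v ∈ choices a P Q) : v.1 ∈ P ∧ v.2 ∈ Q := by
  unfold choices at h
  split_ifs at h with hg
  · rw [mem_image] at h
    obtain ⟨e, he, rfl⟩ := h
    rw [mem_inter] at he
    exact he
  · rw [mem_product] at h
    exact h

theorem valid_hist {a : ℝ} {S : Ln m → DS n m} {c : Pth n m} {T : ℕ} (hv : Valid a S c T)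
    (l : Ln m) (t : Fin m) (ht : (t : ℕ) < T) : hist c l t ∈ own S c l t := by
  obtain ⟨b, z⟩ := l
  cases b
  · exact (basic2_choices (hv t ht z)).1
  · have h := (basic2_choices (hv t ht (z - ((t : ℕ) : ZMod m)))).2
    have hp : ptn (false, z - ((t : ℕ) : ZMod m)) t = (true, z) := by
      unfold ptn
      simp
    rw [hp] at h
    exact h

theorem basic2_hyp {a : ℝ} {S : Ln m → DS n m} {c : Pth n m} {T : ℕ} (hv : Valid a S c T)
    (l : Ln m) (s : Fin m) (hs : (s : ℕ) < T) : hist c l s ∈ (S l).A (hist c l) s s :=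
  valid_hist hv l s hs

theorem card_alive {a : ℝ} {S : Ln m → DS n m} {c : Pth n m} {T : ℕ} (hv : Valid a S c T)
    (l : Ln m) (k : ℕ) (u : Fin m) (hk : k ≤ T) (hkm : k ≤ m) : (alive S c l k u).card + k = n :=
  (S l).card (hist c l) k u hkm fun s hs => basic2_hyp hv l s (by omega)

theorem basic2_bij {a : ℝ} {S : Ln m → DS n m} {c : Pth n m} {T : ℕ} (hv : Valid a S c T)
    (l : Ln m) (s u : Fin m) (hs : (s : ℕ) ≤ T) :
    Set.BijOn ((S l).tau (hist c l) s u) (own S c l s) (alive S c l s u) :=
  (S l).bij (hist c l) s u fun s' hs' => basic2_hyp hv l s' (by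
    have : (s' : ℕ) < s := hs'
    omega)

theorem tau_mem {a : ℝ} {S : Ln m → DS n m} {c : Pth n m} {T : ℕ} (hv : Valid a S c T)
    (l : Ln m) (s u : Fin m) (hs : (s : ℕ) ≤ T) (e : Fin n) (he : e ∈ own S c l s) :
    (S l).tau (hist c l) s u e ∈ alive S c l s u :=
  (basic2_bij hv l s u hs).mapsTo he

theorem alive_succ {a : ℝ} {S : Ln m → DS n m} {c : Pth n m} {T : ℕ} (hv : Valid a S c T)
    (l : Ln m) (s u : Fin m) (hs : (s : ℕ) < T) :
    alive S c l (s + 1) u = (alive S c l s u).erase ((S l).tau (hist c l) s u (hist c l s)) :=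
  (S l).step (hist c l) s u fun s' hs' => basic2_hyp hv l s' (by
    have : (s' : ℕ) ≤ s := hs'
    omega)

theorem alive_anti {a : ℝ} {S : Ln m → DS n m} {c : Pth n m} {T : ℕ} (hv : Valid a S c T)
    (l : Ln m) (k k' : ℕ) (u : Fin m) (h : k ≤ k') (hk : k' ≤ T) (hkm : k' ≤ m) :
    alive S c l k' u ⊆ alive S c l k u := by
  obtain ⟨d, rfl⟩ := Nat.exists_eq_add_of_le h
  clear h
  induction d with
  | zero => exact subset_rfl
  | succ d ih =>
    refine subset_trans ?_ (ih (by omega) (by omega))
    have h1 := alive_succ hv l ⟨k + d, by omega⟩ u (by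
      change k + d < T
      omega)
    change alive S c l (k + d + 1) u ⊆ alive S c l (k + d) u
    rw [h1]
    exact erase_subset _ _

theorem hit_subset (S : Ln m → DS n m) (c : Pth n m) (l : Ln m) (s u : Fin m)
    (V : Finset (Fin n)) : hit S c l s u V ⊆ own S c l s :=
  filter_subset _ _

theorem hit_card {a : ℝ} {S : Ln m → DS n m} {c : Pth n m} {T : ℕ} (hv : Valid a S c T)
    (l : Ln m) (s u : Fin m) (hs : (s : ℕ) ≤ T) (V : Finset (Fin n)) :
    (hit S c l s u V).card = (alive S c l s u ∩ V).card := by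
  have hb := basic2_bij hv l s u hs
  refine card_bij (fun e _ => (S l).tau (hist c l) s u e) ?_ ?_ ?_
  · intro e he
    unfold hit at he
    rw [mem_filter] at he
    exact mem_inter.2 ⟨hb.mapsTo he.1, he.2⟩
  · intro e he e' he' h
    unfold hit at he he'
    rw [mem_filter] at he he'
    exact hb.injOn he.1 he'.1 h
  · intro x hx
    rw [mem_inter] at hx
    obtain ⟨e, he, rfl⟩ := hb.surjOn hx.1
    refine ⟨e, ?_, rfl⟩
    unfold hit
    exact mem_filter.2 ⟨he, hx.2⟩

theorem C_nonempty {a : ℝ} (ha : 0 < a) {S : Ln m → DS n m} {c : Pth n m} (hnm : m < n) (t : Fin m)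
    (hv : Valid a S c t) (i : ZMod m) : (C a S t c i).Nonempty := by
  unfold C choices
  split_ifs with hg
  · apply Finset.Nonempty.image
    unfold Good at hg
    have hn : (0 : ℝ) < n := by
      exact_mod_cast (by omega : 0 < n)
    have h1 : (0 : ℝ) < a ^ 2 * n / 4 := by positivity
    have h2 : (0 : ℝ) < ((own S c (false, i) t ∩ own S c (ptn (false, i) t) t).card : ℝ) :=
      lt_of_lt_of_le h1 hg
    exact card_pos.1 (by exact_mod_cast h2)
  · have h1 : ∀ l : Ln m, (own S c l t).Nonempty := by
      intro l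
      have h2 := card_alive hv l t t le_rfl t.2.le
      have h3 := t.2
      apply card_pos.1
      unfold own
      omega
    exact Nonempty.product (h1 _) (h1 _)

end Pool.Agent.H61.KA
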