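import Pool.Agent.H61.KA.Defs

/-!
# KA-13. The number of tests

`card (Ln m x Idx n m) = 2 m * (2 * n^m * m * 2^n * 2^m) <= 4 n^2 n^n 4^n`, so the logarithm of twice this number is at most
`log 8 + 2 log n + n log n + 2 n log 2 = O(n log n)`, and `log n <= 2 sqrt n` (or `Real.isLittleO_log_id_atTop`).
-/

set_option autoImplicit false

namespace Pool.Agent.H61.KA

open Finset

variable {n m : ℕ}

theorem count_card [NeZero m] :
    Fintype.card (Ln m × Idx n m) = (2 * m) * (2 * (n ^ m * (m * (2 ^ n * 2 ^ m)))) := by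
  simp only [Ln, Idx, Fintype.card_prod, Fintype.card_bool, ZMod.card, Fintype.card_fun,
    Fintype.card_fin, Fintype.card_finset]

theorem count_le [NeZero m] (hn : 1 ≤ n) (hm : m ≤ n) :
    Real.log (2 * Fintype.card (Ln m × Idx n m)) ≤ n * (7 + Real.log n) := by
  have hmpos : 0 < m := Nat.pos_of_ne_zero (NeZero.ne m)
  have hnR : (1 : ℝ) ≤ n := by exact_mod_cast hn
  have hnpos : (0 : ℝ) < n := by linarith
  have h1 : 2 * Fintype.card (Ln m × Idx n m) ≤ 8 * (n ^ 2 * (n ^ n * 4 ^ n)) := by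
    rw [count_card]
    have e1 : n ^ m ≤ n ^ n := Nat.pow_le_pow_right hn hm
    have e2 : 2 ^ m ≤ 2 ^ n := Nat.pow_le_pow_right (by norm_num) hm
    have e3 : (4 : ℕ) ^ n = 2 ^ n * 2 ^ n := by
      rw [← mul_pow]
      norm_num
    calc 2 * ((2 * m) * (2 * (n ^ m * (m * (2 ^ n * 2 ^ m)))))
        = 8 * ((m * m) * (n ^ m * (2 ^ n * 2 ^ m))) := by ring
      _ ≤ 8 * ((n * n) * (n ^ n * (2 ^ n * 2 ^ n))) := by
          gcongr
      _ = 8 * (n ^ 2 * (n ^ n * 4 ^ n)) := by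
          rw [e3]
          ring
  have hcard : 0 < Fintype.card (Ln m × Idx n m) := by
    rw [count_card]
    positivity
  have h2 : ((2 * Fintype.card (Ln m × Idx n m) : ℕ) : ℝ) ≤
      8 * ((n : ℝ) ^ 2 * ((n : ℝ) ^ n * 4 ^ n)) := by
    exact_mod_cast h1
  have h3 : (0 : ℝ) < ((2 * Fintype.card (Ln m × Idx n m) : ℕ) : ℝ) := by
    exact_mod_cast (by omega : 0 < 2 * Fintype.card (Ln m × Idx n m))
  have h4 := Real.log_le_log h3 h2
  have hn2 : (n : ℝ) ^ 2 ≠ 0 := (pow_pos hnpos 2).ne'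
  have hnn : (n : ℝ) ^ n ≠ 0 := (pow_pos hnpos n).ne'
  have h44 : (4 : ℝ) ^ n ≠ 0 := (pow_pos (by norm_num) n).ne'
  rw [Real.log_mul (by norm_num) (mul_ne_zero hn2 (mul_ne_zero hnn h44)),
    Real.log_mul hn2 (mul_ne_zero hnn h44), Real.log_mul hnn h44, Real.log_pow, Real.log_pow,
    Real.log_pow] at h4
  have hlog8 : Real.log 8 ≤ 3 := by
    rw [show (8 : ℝ) = 2 ^ 3 by norm_num, Real.log_pow]
    have := Real.log_two_lt_d9
    push_cast
    linarith
  have hlog4 : Real.log 4 ≤ 2 := by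
    rw [show (4 : ℝ) = 2 ^ 2 by norm_num, Real.log_pow]
    have := Real.log_two_lt_d9
    push_cast
    linarith
  have hlogn : Real.log n ≤ n := (Real.log_le_sub_one_of_pos hnpos).trans (by linarith)
  have h5 : (n : ℝ) * Real.log 4 ≤ n * 2 := mul_le_mul_of_nonneg_left hlog4 hnpos.le
  push_cast at h4 ⊢
  nlinarith

theorem count (k : ℝ) (hk : 0 < k) : ∃ N : ℕ, ∀ n m : ℕ, ∀ [NeZero m], N ≤ n → m ≤ n →
    Real.log (2 * Fintype.card (Ln m × Idx n m)) ≤ k * (n : ℝ) ^ 2 := by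
  have h1 := (Real.isLittleO_log_id_atTop).def (half_pos hk)
  have h2 := tendsto_natCast_atTop_atTop (R := ℝ) |>.eventually h1
  obtain ⟨N1, hN1⟩ := Filter.eventually_atTop.1 h2
  obtain ⟨N2, hN2⟩ := exists_nat_ge (14 / k)
  refine ⟨max N1 (max N2 1), ?_⟩
  intro n m _ hn hm
  have hn1 : N1 ≤ n := (le_max_left _ _).trans hn
  have hn2 : N2 ≤ n := ((le_max_left _ _).trans (le_max_right _ _)).trans hn
  have hn3 : 1 ≤ n := ((le_max_right _ _).trans (le_max_right _ _)).trans hn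
  have hnR : (1 : ℝ) ≤ n := by exact_mod_cast hn3
  have h3 := hN1 n hn1
  rw [Real.norm_eq_abs, Real.norm_eq_abs, id, abs_of_nonneg (by linarith : (0 : ℝ) ≤ n)] at h3
  have h4 : Real.log n ≤ k / 2 * n := (le_abs_self _).trans h3
  have h5 : 14 / k ≤ n := hN2.trans (by exact_mod_cast hn2)
  have h6 : 7 ≤ k / 2 * n := by
    rw [div_le_iff₀ hk] at h5
    linarith
  refine (count_le hn3 hm).trans ?_
  calc (n : ℝ) * (7 + Real.log n) ≤ n * (k / 2 * n + k / 2 * n) :=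
        mul_le_mul_of_nonneg_left (by linarith) (by linarith)
    _ = k * (n : ℝ) ^ 2 := by ring

end Pool.Agent.H61.KA
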