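import Pool.Agent.H61.KA.Line

/-!
# KA-14. Few bad cells

For `r < K` let `J` be the set of `s` in the round `rnd m (r mu) mu` with `¬ Good a n (own l s) (own (ptn l s) s)`, `T0 = r mu`. The test
`w = (l, (false, hist c l, u, univ, J))` (any `u : Fin m`) has `fam w s = own l s` for `s ∈ J`, empty otherwise, and `J.card <= mu`. So by
`hE r`: `∑_J (alive (ptn l s) T0 s ∩ own l s).card >= (1 - T0/n) ∑_J (n - s) - e >= a^2 n J.card - e` (`own` has `n - s >= a n` elements).
For `s ∈ J` the left summand is at most `(own (ptn l s) s ∩ own l s).card + mu < a^2 n / 4 + a^2 n / 8` (`alive_anti`, `card_alive`).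
Hence `J.card * (5/8) a^2 n <= e`. Sum over the `K` rounds, which cover `Fin m` (`K mu = m`).
-/

set_option autoImplicit false

namespace Pool.Agent.H61.KA

open Finset

variable {n m : ℕ}

open Classical in
/-- one round -/
theorem few_bad_round [NeZero m] {a : ℝ} (ha : 0 < a) {S : Ln m → DS n m} {c : Pth n m}
    (mu T0 : ℕ) (hT : T0 + mu ≤ m) (hv : Valid a S c m) (hmu : (mu : ℝ) ≤ a ^ 2 * n / 8)
    (hnm : a * n ≤ (n : ℝ) - m) (hn : 0 < n) (e : ℝ) (hE : Bd S c mu T0 e) (l : Ln m) :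
    (((rnd m T0 mu).filter fun s : Fin m =>
      ¬ Good a n (own S c l s) (own S c (ptn l s) s)).card : ℝ) ≤ 8 * e / (5 * a ^ 2 * n) := by
  have hn' : (0 : ℝ) < n := by exact_mod_cast hn
  set J := (rnd m T0 mu).filter fun s : Fin m =>
    ¬ Good a n (own S c l s) (own S c (ptn l s) s) with hJ
  have hJsub : J ⊆ rnd m T0 mu := filter_subset _ _
  have hJcard : J.card ≤ mu := (card_le_card hJsub).trans (card_rnd hT).le
  have hsm : ∀ s : Fin m, (s : ℕ) ≤ m := fun s => s.2.le
  have hT0m : (T0 : ℝ) ≤ m := by exact_mod_cast (by omega : T0 ≤ m)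
  let u : Fin m := ⟨0, Nat.pos_of_ne_zero (NeZero.ne m)⟩
  have h1 := hE (l, (false, hist c l, u, univ, J)) hJcard
  rw [line_X, line_F] at h1
  simp only [line_hit_univ] at h1
  have h2 := (abs_le.1 h1).1
  -- the intersection is small
  have h3 : ∑ s ∈ J, ((own S c l s ∩ alive S c (ptn l s) T0 s).card : ℝ) ≤
      J.card * (a ^ 2 * n * (3 / 8)) := by
    rw [← nsmul_eq_mul]
    refine sum_le_card_nsmul _ _ _ fun s hs => ?_
    rw [hJ, mem_filter] at hs
    obtain ⟨hs1, hs2⟩ := hs
    have hr := line_mem_rnd.1 hs1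
    have hsub : own S c (ptn l s) s ⊆ alive S c (ptn l s) T0 s :=
      alive_anti hv (ptn l s) T0 s s hr.1 (hsm s) (hsm s)
    have hc1 : (own S c (ptn l s) s).card + (s : ℕ) = n :=
      card_alive hv (ptn l s) s s (hsm s) (hsm s)
    have hc2 : (alive S c (ptn l s) T0 s).card + T0 = n :=
      card_alive hv (ptn l s) T0 s (by omega) (by omega)
    have hc3 : (alive S c (ptn l s) T0 s).card ≤ (own S c (ptn l s) s).card + mu := by
      omega
    have h4 := line_inter_card (own S c l s) _ _ mu hsub hc3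
    have h5 : ((own S c l s ∩ alive S c (ptn l s) T0 s).card : ℝ) ≤
        ((own S c l s ∩ own S c (ptn l s) s).card : ℝ) + mu := by exact_mod_cast h4
    have h6 : ((own S c l s ∩ own S c (ptn l s) s).card : ℝ) < a ^ 2 * n / 4 := lt_of_not_ge hs2
    linarith
  have h4 : J.card * (a * n) ≤ ∑ s ∈ J, ((own S c l s).card : ℝ) := by
    rw [← nsmul_eq_mul]
    refine card_nsmul_le_sum _ _ _ fun s _ => ?_
    have hc1 : (own S c l s).card + (s : ℕ) = n := card_alive hv l s s (hsm s) (hsm s)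
    have hc2 : ((own S c l s).card : ℝ) + ((s : ℕ) : ℝ) = n := by exact_mod_cast hc1
    have h5 : ((s : ℕ) : ℝ) ≤ m := by exact_mod_cast hsm s
    linarith
  have h5 : a ≤ 1 - (T0 : ℝ) / n := by
    rw [le_sub_comm, div_le_iff₀ hn']
    nlinarith
  have h6 : a * (J.card * (a * n)) ≤ (1 - (T0 : ℝ) / n) * ∑ s ∈ J, ((own S c l s).card : ℝ) := by
    refine mul_le_mul h5 h4 (by positivity) (ha.le.trans h5)
  have h7 : (0 : ℝ) < 5 * a ^ 2 * n := by positivity
  rw [le_div_iff₀ h7]
  nlinarith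

open Classical in
theorem few_bad [NeZero m] {a : ℝ} (ha : 0 < a) (ha1 : a ≤ 1) {S : Ln m → DS n m} {c : Pth n m}
    (mu K : ℕ) (hm : K * mu = m) (hv : Valid a S c m) (hmu : (mu : ℝ) ≤ a ^ 2 * n / 8)
    (hnm : a * n ≤ (n : ℝ) - m) (hn : 0 < n) (e : ℝ) (hE : ∀ r < K, Bd S c mu (r * mu) e) (l : Ln m) :
    ((univ.filter fun s : Fin m => ¬ Good a n (own S c l s) (own S c (ptn l s) s)).card : ℝ) ≤
      K * (8 * e / (5 * a ^ 2 * n)) := by
  have _ := ha1
  have hmpos : 0 < m := Nat.pos_of_ne_zero (NeZero.ne m)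
  have hmupos : 0 < mu := by
    rcases Nat.eq_zero_or_pos mu with h | h
    · rw [h, mul_zero] at hm
      omega
    · exact h
  have hsub : (univ.filter fun s : Fin m => ¬ Good a n (own S c l s) (own S c (ptn l s) s)) ⊆
      (Finset.range K).biUnion fun r => (rnd m (r * mu) mu).filter fun s : Fin m =>
        ¬ Good a n (own S c l s) (own S c (ptn l s) s) := by
    intro s hs
    rw [mem_filter] at hs
    rw [mem_biUnion]
    refine ⟨(s : ℕ) / mu, ?_, ?_⟩
    · rw [mem_range, Nat.div_lt_iff_lt_mul hmupos, hm]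
      exact s.2
    · rw [mem_filter, line_mem_rnd]
      refine ⟨⟨Nat.div_mul_le_self _ _, ?_⟩, hs.2⟩
      exact Nat.lt_div_mul_add hmupos
  have h1 := (card_le_card hsub).trans card_biUnion_le
  have h2 : ((univ.filter fun s : Fin m =>
      ¬ Good a n (own S c l s) (own S c (ptn l s) s)).card : ℝ) ≤
      ∑ r ∈ Finset.range K, (((rnd m (r * mu) mu).filter fun s : Fin m =>
        ¬ Good a n (own S c l s) (own S c (ptn l s) s)).card : ℝ) := by
    exact_mod_cast h1
  refine h2.trans ?_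
  have h3 := sum_le_card_nsmul (Finset.range K) (fun r => (((rnd m (r * mu) mu).filter
      fun s : Fin m => ¬ Good a n (own S c l s) (own S c (ptn l s) s)).card : ℝ))
      (8 * e / (5 * a ^ 2 * n)) (fun r hr => by
        rw [mem_range] at hr
        refine few_bad_round ha mu (r * mu) ?_ hv hmu hnm hn e (hE r hr) l
        rw [← hm, ← Nat.succ_mul]
        exact Nat.mul_le_mul_right _ hr)
  rw [card_range, nsmul_eq_mul] at h3
  exact h3

end Pool.Agent.H61.KA
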