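import Pool.Agent.H61.KA.Line

/-!
# KA-15. Few poor cells

For `r < K` let `J` be the set of `s` in the round `rnd m (r mu) mu` with `¬ Good a n (alive l m s) (alive (ptn l s) m s)`. The test
`w = (l, (true, hist c l, u, univ, J))` (any `u : Fin m`) has `fam w s = (S l).A (hist c l) m s = alive l m s` for `s ∈ J`, empty otherwise, and
`J.card <= mu` (`card_rnd`). By `hE`: `∑_J (alive (ptn l s) m s ∩ alive l m s).card >= (1 - m/n) ∑_J (n - m) - e >= a^2 n J.card - e`
(`card_alive`). For `s ∈ J` the left summand is less than `a^2 n / 4`. Hence `J.card * (3/4) a^2 n <= e`. Sum over the `K` rounds.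
-/

set_option autoImplicit false

namespace Pool.Agent.H61.KA

open Finset

variable {n m : ℕ}

open Classical in
theorem fewPoor_round [NeZero m] {a : ℝ} (ha : 0 < a) (ha1 : a ≤ 1) {S : Ln m → DS n m}
    {c : Pth n m} (mu : ℕ) (hv : Valid a S c m)
    (hnm : a * n ≤ (n : ℝ) - m) (hn : 0 < n) (e : ℝ) (hE : Bd S c mu m e) (l : Ln m)
    (J : Finset (Fin m)) (hJ : J.card ≤ mu)
    (hp : ∀ s ∈ J, ¬ Good a n (alive S c l m s) (alive S c (ptn l s) m s)) :
    (J.card : ℝ) ≤ 4 * e / (3 * a ^ 2 * n) := by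
  have hn' : (0 : ℝ) < n := by exact_mod_cast hn
  set w : Ln m × Idx n m := (l, (true, hist c l, (0 : Fin m), univ, J)) with hw
  have hfam : ∀ t, fam S w t = if t ∈ J then alive S c l m t else ∅ := by
    intro t
    unfold fam alive
    simp [hw]
  have hX : X S c w m = ∑ t ∈ J, ((alive S c (ptn l t) m t ∩ alive S c l m t).card : ℝ) := by
    unfold X
    rw [← sum_subset (subset_univ J)]
    · refine sum_congr rfl fun t ht => ?_
      rw [hfam, if_pos ht]
    · intro t _ ht
      rw [hfam, if_neg ht]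
      simp
  have hF : F S w = (J.card : ℝ) * ((n : ℝ) - m) := by
    unfold F
    rw [← sum_subset (subset_univ J)]
    · rw [sum_congr rfl (g := fun _ => (n : ℝ) - m), sum_const, nsmul_eq_mul]
      intro t ht
      rw [hfam, if_pos ht]
      have h := card_alive hv l m t le_rfl le_rfl
      have h' : ((alive S c l m t).card : ℝ) + m = n := by exact_mod_cast h
      linarith
    · intro t _ ht
      rw [hfam, if_neg ht]
      simp
  have h1 := hE w hJ
  rw [hX, hF] at h1
  have h2 := (abs_le.1 h1).1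
  have h3 : ∑ t ∈ J, ((alive S c (ptn l t) m t ∩ alive S c l m t).card : ℝ) ≤
      J.card * (a ^ 2 * n / 4) := by
    rw [← nsmul_eq_mul, ← sum_const]
    refine sum_le_sum fun t ht => ?_
    have h4 := hp t ht
    unfold Good at h4
    rw [inter_comm]
    exact (not_le.1 h4).le
  have h5 : a ^ 2 * n ≤ (1 - (m : ℝ) / n) * ((n : ℝ) - m) := by
    have h6 : (1 - (m : ℝ) / n) = ((n : ℝ) - m) / n := by field_simp
    rw [h6, div_mul_eq_mul_div, le_div_iff₀ hn']
    have h7 : 0 ≤ a * n := by positivity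
    nlinarith
  have h8 : (J.card : ℝ) * (a ^ 2 * n) ≤ (1 - (m : ℝ) / n) * (J.card * ((n : ℝ) - m)) := by
    have := mul_le_mul_of_nonneg_left h5 (Nat.cast_nonneg J.card : (0 : ℝ) ≤ J.card)
    linarith
  rw [le_div_iff₀ (by positivity)]
  linarith

open Classical in
theorem few_poor [NeZero m] {a : ℝ} (ha : 0 < a) (ha1 : a ≤ 1) {S : Ln m → DS n m} {c : Pth n m}
    (mu K : ℕ) (hm : K * mu = m) (hv : Valid a S c m)
    (hnm : a * n ≤ (n : ℝ) - m) (hn : 0 < n) (e : ℝ) (hE : Bd S c mu m e) (l : Ln m) :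
    ((univ.filter fun s : Fin m =>
      ¬ Good a n (alive S c l m s) (alive S c (ptn l s) m s)).card : ℝ) ≤
      K * (4 * e / (3 * a ^ 2 * n)) := by
  set P := univ.filter fun s : Fin m =>
      ¬ Good a n (alive S c l m s) (alive S c (ptn l s) m s) with hP
  have hsub : P ⊆ (range K).biUnion fun r => P ∩ rnd m (r * mu) mu := by
    intro s hs
    have hs2 : (s : ℕ) < K * mu := by
      rw [hm]
      exact s.2
    have hmu : 0 < mu := by
      rcases Nat.eq_zero_or_pos mu with h | h
      · rw [h] at hs2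
        omega
      · exact h
    rw [mem_biUnion]
    refine ⟨(s : ℕ) / mu, mem_range.2 ((Nat.div_lt_iff_lt_mul hmu).2 hs2), ?_⟩
    rw [mem_inter]
    refine ⟨hs, ?_⟩
    unfold rnd
    rw [mem_filter]
    refine ⟨mem_univ _, Nat.div_mul_le_self _ _, ?_⟩
    have h1 := Nat.div_add_mod (s : ℕ) mu
    have h2 := Nat.mod_lt (s : ℕ) hmu
    rw [mul_comm] at h1
    omega
  have h1 : (P.card : ℝ) ≤ ∑ r ∈ range K, ((P ∩ rnd m (r * mu) mu).card : ℝ) := by
    exact_mod_cast (card_le_card hsub).trans card_biUnion_le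
  refine h1.trans ?_
  have h2 : ∑ r ∈ range K, ((P ∩ rnd m (r * mu) mu).card : ℝ) ≤
      ∑ r ∈ range K, (4 * e / (3 * a ^ 2 * n)) := by
    refine sum_le_sum fun r hr => ?_
    refine fewPoor_round ha ha1 mu hv hnm hn e hE l _ ?_ ?_
    · refine (card_le_card inter_subset_right).trans ?_
      refine (card_rnd ?_).le
      have h3 := mem_range.1 hr
      calc r * mu + mu = (r + 1) * mu := by ring
        _ ≤ K * mu := Nat.mul_le_mul_right _ h3
        _ = m := hm
    · intro s hs
      rw [mem_inter, hP, mem_filter] at hs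
      exact hs.1.2
  refine h2.trans (le_of_eq ?_)
  rw [sum_const, card_range, nsmul_eq_mul]

end Pool.Agent.H61.KA
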