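import Pool.Agent.H61.KA.Iter

/-!
# KA-09b. The error after all rounds

`iter` with `lam = n^2 / K^3`; `(1 + 5 mu / (a^2 n))^r <= exp (5 mu r / (a^2 n)) <= exp (5 / a^2)` for `r <= K`, since
`K mu = m <= n`; `mu <= n / K`, so with `g = 4 mu^3 / (a^2 n) + 2 n^2 / K^3 <= (4 / a^2 + 2) n^2 / K^3 <= 6 n^2 / (a^2 K^3)` (`a <= 1`):
`r g q^r <= K g exp (5/a^2) <= 6 exp (5/a^2) n^2 / (a^2 K^2)`. (`Bd` is monotone in `e`.)
-/

set_option autoImplicit false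

namespace Pool.Agent.H61.KA

open Finset

variable {n m : ℕ}

theorem iter_le [NeZero m] {a : ℝ} (ha : 0 < a) (ha1 : a ≤ 1) {S : Ln m → DS n m} {c : Pth n m}
    (mu K : ℕ) (hm : K * mu = m) (hK : 0 < K)
    (hL : ∀ w T, T ≤ m → |Lsum a S c w T| ≤ (n : ℝ) ^ 2 / K ^ 3)
    (hv : Valid a S c m) (hmu : (mu : ℝ) ≤ a ^ 2 * n / 8) (hnm : a * n ≤ (n : ℝ) - m)
    (hn : 0 < n) (r : ℕ) (hr : r ≤ K) :
    Bd S c mu (r * mu) (6 * Real.exp (5 / a ^ 2) * (n : ℝ) ^ 2 / (a ^ 2 * K ^ 2)) := by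
  have hi := iter ha ha1 ((n : ℝ) ^ 2 / K ^ 3) hL mu K hm hv hmu hnm hn r hr
  have hn' : (0 : ℝ) < n := by exact_mod_cast hn
  have hK' : (0 : ℝ) < K := by exact_mod_cast hK
  have hr' : (r : ℝ) ≤ K := by exact_mod_cast hr
  have hr0 : (0 : ℝ) ≤ r := by positivity
  have hmu0 : (0 : ℝ) ≤ mu := by positivity
  have hm' : (K : ℝ) * mu = m := by exact_mod_cast hm
  have hmn : (m : ℝ) ≤ n := by
    have : 0 ≤ a * n := by positivity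
    linarith
  have hKmu : (mu : ℝ) ≤ n / K := by
    rw [le_div_iff₀ hK']
    linarith [mul_comm (mu : ℝ) K]
  have hx : (5 * mu / (a ^ 2 * n) : ℝ) * r ≤ 5 / a ^ 2 := by
    have h1 : (mu : ℝ) * r ≤ n := by
      calc (mu : ℝ) * r ≤ mu * K := mul_le_mul_of_nonneg_left hr' hmu0
        _ = m := by rw [mul_comm]; exact hm'
        _ ≤ n := hmn
    rw [div_mul_eq_mul_div, div_le_div_iff₀ (by positivity) (by positivity)]
    have h2 : 5 * ((mu : ℝ) * r) * a ^ 2 ≤ 5 * n * a ^ 2 := by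
      refine mul_le_mul_of_nonneg_right ?_ (by positivity)
      linarith
    nlinarith [h2]
  have hq : (1 + 5 * mu / (a ^ 2 * n) : ℝ) ^ r ≤ Real.exp (5 / a ^ 2) := by
    have h0 : (0 : ℝ) ≤ 5 * mu / (a ^ 2 * n) := by positivity
    calc (1 + 5 * mu / (a ^ 2 * n) : ℝ) ^ r
        ≤ (Real.exp (5 * mu / (a ^ 2 * n))) ^ r := by
          refine pow_le_pow_left₀ (by linarith) ?_ r
          linarith [Real.add_one_le_exp (5 * mu / (a ^ 2 * n) : ℝ)]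
      _ = Real.exp ((5 * mu / (a ^ 2 * n) : ℝ) * r) := by
          rw [← Real.exp_nat_mul, mul_comm]
      _ ≤ _ := Real.exp_le_exp.2 hx
  have hg : 4 * (mu : ℝ) ^ 3 / (a ^ 2 * n) + 2 * ((n : ℝ) ^ 2 / K ^ 3) ≤
      6 * (n : ℝ) ^ 2 / (a ^ 2 * K ^ 3) := by
    have h1 : 4 * (mu : ℝ) ^ 3 / (a ^ 2 * n) ≤ 4 * (n : ℝ) ^ 2 / (a ^ 2 * K ^ 3) := by
      have h3 : (mu : ℝ) ^ 3 ≤ (n / K) ^ 3 := pow_le_pow_left₀ hmu0 hKmu 3
      calc 4 * (mu : ℝ) ^ 3 / (a ^ 2 * n) ≤ 4 * ((n : ℝ) / K) ^ 3 / (a ^ 2 * n) := by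
            gcongr
        _ = 4 * (n : ℝ) ^ 2 / (a ^ 2 * K ^ 3) := by
            field_simp
    have h2 : 2 * ((n : ℝ) ^ 2 / K ^ 3) ≤ 2 * (n : ℝ) ^ 2 / (a ^ 2 * K ^ 3) := by
      rw [← mul_div_assoc]
      refine div_le_div_of_nonneg_left (by positivity) (by positivity) ?_
      have ha2 : a ^ 2 ≤ 1 := pow_le_one₀ ha.le ha1
      have : (0 : ℝ) < K ^ 3 := by positivity
      nlinarith
    have h4 : 4 * (n : ℝ) ^ 2 / (a ^ 2 * K ^ 3) + 2 * (n : ℝ) ^ 2 / (a ^ 2 * K ^ 3) =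
        6 * (n : ℝ) ^ 2 / (a ^ 2 * K ^ 3) := by
      rw [← add_div]
      congr 1
      ring
    linarith
  have hg0 : 0 ≤ 4 * (mu : ℝ) ^ 3 / (a ^ 2 * n) + 2 * ((n : ℝ) ^ 2 / K ^ 3) := by positivity
  have hfin : (r : ℝ) * (4 * (mu : ℝ) ^ 3 / (a ^ 2 * n) + 2 * ((n : ℝ) ^ 2 / K ^ 3)) *
      (1 + 5 * mu / (a ^ 2 * n)) ^ r ≤
      6 * Real.exp (5 / a ^ 2) * (n : ℝ) ^ 2 / (a ^ 2 * K ^ 2) := by
    calc (r : ℝ) * (4 * (mu : ℝ) ^ 3 / (a ^ 2 * n) + 2 * ((n : ℝ) ^ 2 / K ^ 3)) *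
        (1 + 5 * mu / (a ^ 2 * n)) ^ r
        ≤ ((K : ℝ) * (6 * (n : ℝ) ^ 2 / (a ^ 2 * K ^ 3))) * Real.exp (5 / a ^ 2) := by
          refine mul_le_mul (mul_le_mul hr' hg hg0 hK'.le) hq (by positivity) (by positivity)
      _ = 6 * Real.exp (5 / a ^ 2) * (n : ℝ) ^ 2 / (a ^ 2 * K ^ 2) := by
          field_simp
  intro w hw
  exact (hi w hw).trans hfin

end Pool.Agent.H61.KA
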