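import Pool.Agent.H61.KA.Inst
import Pool.Agent.H61.KA.Count
import Pool.Agent.H61.KA.IterLe
import Pool.Agent.H61.KA.FewBad
import Pool.Agent.H61.KA.FewPoor

/-!
# KA-16. The combinatorial core

`K` with `8 / a^2 <= K` and `10 exp (5/a^2) / (a^4 b) <= K`. `mu = m / K <= n / K <= a^2 n / 8`. `theta = 1 / (2 K^3)`;
`count` with `k = 1 / (4 K^6)`: `theta m^2 + log(..) / theta <= n^2 / (2 K^3) + n^2 / (2 K^3)`. Then `iter_le`, with
`e = 6 exp (5/a^2) n^2 / (a^2 K^2)`: `K * 8 e / (5 a^2 n) = (48/5) exp (5/a^2) n / (a^4 K) <= b n`, and `4/3 <= 8/5`.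
-/

set_option autoImplicit false

namespace Pool.Agent.H61.KA

open Finset

theorem Core_num {a b E n K : ℝ} (ha : 0 < a) (hb : 0 < b) (hE : 0 < E) (hn : 0 < n) (hK : 0 < K)
    (h : 10 * E / (a ^ 4 * b) ≤ K) :
    K * (8 * (6 * E * n ^ 2 / (a ^ 2 * K ^ 2)) / (5 * a ^ 2 * n)) ≤ b * n ∧
    K * (4 * (6 * E * n ^ 2 / (a ^ 2 * K ^ 2)) / (3 * a ^ 2 * n)) ≤ b * n := by
  have h1 : 10 * E ≤ K * (a ^ 4 * b) := by
    rw [div_le_iff₀ (by positivity)] at h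
    exact h
  have e1 : K * (8 * (6 * E * n ^ 2 / (a ^ 2 * K ^ 2)) / (5 * a ^ 2 * n)) =
      48 / 5 * E * n / (a ^ 4 * K) := by
    field_simp
    ring
  have e2 : K * (4 * (6 * E * n ^ 2 / (a ^ 2 * K ^ 2)) / (3 * a ^ 2 * n)) =
      8 * E * n / (a ^ 4 * K) := by
    field_simp
    ring
  rw [e1, e2]
  constructor
  · rw [div_le_iff₀ (by positivity)]
    have : 48 / 5 * E ≤ K * (a ^ 4 * b) := by linarith
    calc 48 / 5 * E * n ≤ K * (a ^ 4 * b) * n := mul_le_mul_of_nonneg_right this hn.le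
      _ = b * n * (a ^ 4 * K) := by ring
  · rw [div_le_iff₀ (by positivity)]
    have : 8 * E ≤ K * (a ^ 4 * b) := by linarith
    calc 8 * E * n ≤ K * (a ^ 4 * b) * n := mul_le_mul_of_nonneg_right this hn.le
      _ = b * n * (a ^ 4 * K) := by ring

open Classical in
theorem core (a b : ℝ) (ha : 0 < a) (ha1 : a ≤ 1) (hb : 0 < b) : ∃ K N : ℕ, 0 < K ∧
    ∀ n m : ℕ, ∀ [NeZero m], N ≤ n → K ∣ m → a * n ≤ (n : ℝ) - m → ∀ S : Ln m → DS n m,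
      ∃ c : Pth n m, Valid a S c m ∧ ∀ l : Ln m,
        ((univ.filter fun s : Fin m => ¬ Good a n (own S c l s) (own S c (ptn l s) s)).card : ℝ)
          ≤ b * n ∧
        ((univ.filter fun s : Fin m =>
          ¬ Good a n (alive S c l m s) (alive S c (ptn l s) m s)).card : ℝ) ≤ b * n := by
  set E : ℝ := Real.exp (5 / a ^ 2) with hE
  have hE0 : 0 < E := Real.exp_pos _
  set K : ℕ := ⌈8 / a ^ 2 + 10 * E / (a ^ 4 * b)⌉₊ + 1 with hKdef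
  have hK0 : 0 < K := by omega
  have hKr : 8 / a ^ 2 + 10 * E / (a ^ 4 * b) ≤ (K : ℝ) := by
    rw [hKdef]
    push_cast
    have := Nat.le_ceil (8 / a ^ 2 + 10 * E / (a ^ 4 * b))
    linarith
  have hK1 : 8 / a ^ 2 ≤ (K : ℝ) := by
    have : 0 < 10 * E / (a ^ 4 * b) := by positivity
    linarith
  have hK2 : 10 * E / (a ^ 4 * b) ≤ (K : ℝ) := by
    have : 0 < 8 / a ^ 2 := by positivity
    linarith
  have hKR : (0 : ℝ) < K := by exact_mod_cast hK0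
  have hKR1 : (1 : ℝ) ≤ K := by exact_mod_cast hK0
  obtain ⟨N1, hN1⟩ := count (1 / (4 * (K : ℝ) ^ 6)) (by positivity)
  refine ⟨K, max N1 1, hK0, ?_⟩
  intro n m _ hn hKm hnm S
  have hn1 : N1 ≤ n := (le_max_left _ _).trans hn
  have hn0 : 0 < n := (le_max_right N1 1).trans hn
  have hnR : (0 : ℝ) < n := by exact_mod_cast hn0
  have han : 0 < a * n := mul_pos ha hnR
  have hmn : m < n := by
    have : (m : ℝ) < n := by linarith
    exact_mod_cast this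
  obtain ⟨mu, hmu⟩ := hKm
  have hm : K * mu = m := hmu.symm
  have hm0 : 0 < m := Nat.pos_of_ne_zero (NeZero.ne m)
  have hmuR : (K : ℝ) * mu = m := by exact_mod_cast hm
  have hmu8 : (mu : ℝ) ≤ a ^ 2 * n / 8 := by
    have h1 : (m : ℝ) ≤ n := by exact_mod_cast hmn.le
    rw [div_le_iff₀ (by positivity)] at hK1
    have h2 : 8 * (mu : ℝ) ≤ K * a ^ 2 * mu := mul_le_mul_of_nonneg_right hK1 (Nat.cast_nonneg _)
    have h3 : (K : ℝ) * a ^ 2 * mu = a ^ 2 * m := by rw [← hmuR]; ring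
    have h4 : a ^ 2 * (m : ℝ) ≤ a ^ 2 * n := mul_le_mul_of_nonneg_left h1 (by positivity)
    linarith
  have hth0 : (0 : ℝ) < 1 / (2 * (K : ℝ) ^ 3) := by positivity
  have hth1 : 1 / (2 * (K : ℝ) ^ 3) ≤ 1 := by
    rw [div_le_one (by positivity)]
    have : (1 : ℝ) ≤ (K : ℝ) ^ 3 := one_le_pow₀ hKR1
    linarith
  obtain ⟨c, hv, hL⟩ := exists_path ha hmn S (1 / (2 * (K : ℝ) ^ 3)) hth0 hth1
  have hL' : ∀ w T, T ≤ m → |Lsum a S c w T| ≤ (n : ℝ) ^ 2 / K ^ 3 := by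
    intro w T hT
    refine (hL w T hT).trans ?_
    have h1 : 1 / (2 * (K : ℝ) ^ 3) * (m : ℝ) ^ 2 ≤ 1 / (2 * (K : ℝ) ^ 3) * (n : ℝ) ^ 2 := by
      refine mul_le_mul_of_nonneg_left ?_ hth0.le
      exact pow_le_pow_left₀ (Nat.cast_nonneg _) (by exact_mod_cast hmn.le) 2
    have h2 : Real.log (2 * Fintype.card (Ln m × Idx n m)) / (1 / (2 * (K : ℝ) ^ 3)) ≤
        1 / (4 * (K : ℝ) ^ 6) * (n : ℝ) ^ 2 / (1 / (2 * (K : ℝ) ^ 3)) :=
      div_le_div_of_nonneg_right (hN1 n m hn1 hmn.le) hth0.le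
    have h3 : 1 / (4 * (K : ℝ) ^ 6) * (n : ℝ) ^ 2 / (1 / (2 * (K : ℝ) ^ 3)) =
        1 / (2 * (K : ℝ) ^ 3) * (n : ℝ) ^ 2 := by
      field_simp
      ring
    have h4 : (n : ℝ) ^ 2 / K ^ 3 = 1 / (2 * (K : ℝ) ^ 3) * (n : ℝ) ^ 2 +
        1 / (2 * (K : ℝ) ^ 3) * (n : ℝ) ^ 2 := by
      field_simp
      ring
    rw [h4]
    linarith
  have hit := fun r (hr : r ≤ K) => iter_le ha ha1 mu K hm hK0 hL' hv hmu8 hnm hn0 r hr
  obtain ⟨c1, c2⟩ := Core_num ha hb hE0 hnR hKR hK2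
  refine ⟨c, hv, fun l => ⟨?_, ?_⟩⟩
  · exact (few_bad ha ha1 mu K hm hv hmu8 hnm hn0 _ (fun r hr => hit r hr.le) l).trans c1
  · have hmm := hit K le_rfl
    rw [hm] at hmm
    exact (few_poor ha ha1 mu K hm hv hnm hn0 _ hmm l).trans c2

end Pool.Agent.H61.KA
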