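import Mathlib

/-!
# Asymptotic version of Kahn's two-dimensional basis conjecture: definitions

Notation. `m x m` array, rows and columns are indexed by `ZMod m`; `(false, i)` is row `i`, `(true, j)` is column `j`
(a *line*). Row `i` and column `j` meet in the cell `(i, j)`, which is processed at the time `t : Fin m` with `(t : ZMod m) = j - i`.
So at time `t` the line `l` meets its partner `ptn l t`, and all `m` cells processed at the same time lie in different lines.

Every line has a *deletion system* `DS n m`. `A g k u` is the set of elements (of `Fin n`, names of the vectors of the basis in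
slot `u` of the line) which are alive after the picks `g 0, ..., g (k-1)`. The pick `e` at time `k` is in `A g k k`, and it deletes
`tau g k u e` from the alive set of slot `u`.
-/

set_option autoImplicit false

namespace Pool.Agent.H61.KA

open Finset

/-- A deletion system. -/
structure DS (n m : ℕ) where
  /-- alive sets -/
  A : (Fin m → Fin n) → ℕ → Fin m → Finset (Fin n)
  /-- deleted element -/
  tau : (Fin m → Fin n) → Fin m → Fin m → Fin n → Fin n
  A_congr : ∀ (g g' : Fin m → Fin n) (k : ℕ), (∀ s : Fin m, (s : ℕ) < k → g s = g' s) → A g k = A g' k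
  tau_congr : ∀ (g g' : Fin m → Fin n) (k : Fin m), (∀ s : Fin m, s < k → g s = g' s) →
    tau g k = tau g' k
  zero : ∀ g u, A g 0 u = univ
  card : ∀ (g : Fin m → Fin n) (k : ℕ) (u : Fin m), k ≤ m →
    (∀ s : Fin m, (s : ℕ) < k → g s ∈ A g s s) → (A g k u).card + k = n
  bij : ∀ (g : Fin m → Fin n) (k u : Fin m), (∀ s : Fin m, s < k → g s ∈ A g s s) →
    Set.BijOn (tau g k u) (A g k k) (A g k u)
  step : ∀ (g : Fin m → Fin n) (k u : Fin m), (∀ s : Fin m, s ≤ k → g s ∈ A g s s) →
    A g (k + 1) u = (A g k u).erase (tau g k u (g k))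

variable {n m : ℕ}

/-- Lines: `(false, i)` is row `i`, `(true, j)` is column `j`. -/
abbrev Ln (m : ℕ) := Bool × ZMod m

/-- The line met by the line `l` at time `t`. -/
def ptn (l : Ln m) (t : Fin m) : Ln m :=
  if l.1 then (false, l.2 - ((t : ℕ) : ZMod m)) else (true, l.2 + ((t : ℕ) : ZMod m))

/-- The time `t` with `(t : ZMod m) = z`. -/
def slot [NeZero m] (z : ZMod m) : Fin m := ⟨z.val, ZMod.val_lt z⟩

/-- A path: `c t i` is the pair of picks (of the row, of the column) in the cell of row `i` processed at time `t`. -/
abbrev Pth (n m : ℕ) := ℕ → ZMod m → Fin n × Fin n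

/-- The picks of a line. -/
def hist (c : Pth n m) (l : Ln m) (t : Fin m) : Fin n :=
  if l.1 then (c t (l.2 - ((t : ℕ) : ZMod m))).2 else (c t l.2).1

/-- The alive set of the line `l` in slot `u` after `k` picks. -/
def alive (S : Ln m → DS n m) (c : Pth n m) (l : Ln m) (k : ℕ) (u : Fin m) : Finset (Fin n) :=
  (S l).A (hist c l) k u

/-- The alive set of the line `l` at time `t` in the cell processed at time `t`. -/
def own (S : Ln m → DS n m) (c : Pth n m) (l : Ln m) (t : Fin m) : Finset (Fin n) :=
  alive S c l t t

/-- `P ∩ Q` is large. -/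
def Good (a : ℝ) (n : ℕ) (P Q : Finset (Fin n)) : Prop := a ^ 2 * n / 4 ≤ ((P ∩ Q).card : ℝ)

open Classical in
/-- Pairs of picks allowed in a cell with alive sets `P` (row), `Q` (column). -/
noncomputable def choices (a : ℝ) {n : ℕ} (P Q : Finset (Fin n)) : Finset (Fin n × Fin n) :=
  if Good a n P Q then (P ∩ Q).image fun e => (e, e) else P ×ˢ Q

/-- Allowed picks at time `t` in the cell of row `i`. -/
noncomputable def C (a : ℝ) (S : Ln m → DS n m) (t : Fin m) (c : Pth n m) (i : ZMod m) :
    Finset (Fin n × Fin n) :=
  choices a (own S c (false, i) t) (own S c (ptn (false, i) t) t)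

/-- The path is valid before time `T`. -/
def Valid (a : ℝ) (S : Ln m → DS n m) (c : Pth n m) (T : ℕ) : Prop :=
  ∀ t : Fin m, (t : ℕ) < T → ∀ i, c t i ∈ C a S t c i

/-- Names of tests: kind, history, slot, set of elements, set of slots. -/
abbrev Idx (n m : ℕ) := Bool × (Fin m → Fin n) × Fin m × Finset (Fin n) × Finset (Fin m)

open Classical in
/-- The family of sets of a test of the line `l`. -/
noncomputable def fam (S : Ln m → DS n m) (w : Ln m × Idx n m) (t : Fin m) : Finset (Fin n) :=
  if t ∈ w.2.2.2.2.2 then
    (if w.2.1 then (S w.1).A w.2.2.1 m t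
      else ((S w.1).A w.2.2.1 t t).filter fun e => (S w.1).tau w.2.2.1 t w.2.2.2.1 e ∈ w.2.2.2.2.1)
  else ∅

/-- The value of a test at time `T`: it counts the elements of the family which are alive for the lines met by the line of the test. -/
noncomputable def X (S : Ln m → DS n m) (c : Pth n m) (w : Ln m × Idx n m) (T : ℕ) : ℝ :=
  ∑ t : Fin m, ((alive S c (ptn w.1 t) T t ∩ fam S w t).card : ℝ)

/-- The size of the family of a test. -/
noncomputable def F (S : Ln m → DS n m) (w : Ln m × Idx n m) : ℝ :=
  ∑ t : Fin m, ((fam S w t).card : ℝ)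

open Classical in
/-- The decrease of the test `w` caused by the pair `v` of picks in the cell of row `i` at time `s`. -/
noncomputable def D [NeZero m] (S : Ln m → DS n m) (s : Fin m) (c : Pth n m) (w : Ln m × Idx n m)
    (i : ZMod m) (v : Fin n × Fin n) : ℝ :=
  if w.1.1 then
    (if (S (false, i)).tau (hist c (false, i)) s (slot (w.1.2 - i)) v.1 ∈ fam S w (slot (w.1.2 - i))
      then 1 else 0)
  else
    (if (S (true, i + ((s : ℕ) : ZMod m))).tau (hist c (true, i + ((s : ℕ) : ZMod m))) s
        (slot (i + ((s : ℕ) : ZMod m) - w.1.2)) v.2 ∈ fam S w (slot (i + ((s : ℕ) : ZMod m) - w.1.2))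
      then 1 else 0)

/-- Average over a finite set. -/
noncomputable def avg {γ : Type*} (C : Finset γ) (f : γ → ℝ) : ℝ := (∑ v ∈ C, f v) / C.card

open Classical in
/-- Average decrease: own alive set `P`, alive set `Q` of the partner, `U` the elements of `P` that decrease the test. -/
noncomputable def rho (a : ℝ) {n : ℕ} (P Q U : Finset (Fin n)) : ℝ :=
  if Good a n P Q then ((U ∩ Q).card : ℝ) / (P ∩ Q).card else (U.card : ℝ) / P.card

/-- `U`: elements of the own alive set of the line `l` at time `s` whose pick deletes an element of `V` in slot `u`. -/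
noncomputable def hit (S : Ln m → DS n m) (c : Pth n m) (l : Ln m) (s u : Fin m)
    (V : Finset (Fin n)) : Finset (Fin n) :=
  (own S c l s).filter fun e => (S l).tau (hist c l) s u e ∈ V

end Pool.Agent.H61.KA
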