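import Pool.Agent.H61.KA.Lin

/-!
# KA-21. One switching step

`Sel K B q P`: the selected vectors `B i j (q i j)`, `(i, j) ∈ P`, of every row and every column are linearly independent.

Let `(i, j) ∉ P`. `Z = {e | B i j e ∉ span of the selected vectors of column j}`: column `j` has at most `m - 1` selected
vectors (`m = card ι`) and `B i j` is independent, so `Z.card >= n - (m - 1)` (`card_mem_le` with `W = ⊥`).
Case 1: some `e ∈ Z` is not in the span of the selected vectors of row `i`: put `q' i j = e`, `j' = j`, `x = y = B i j e`.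
Case 2: otherwise `partners` (selected vectors of row `i`, `Z`) gives an injection `phi` from `Z` to the selected cells of row `i`;
as `Z.card > ex.card` there is `e ∈ Z` with `j' = phi e ∉ ex` (`j' ≠ j` as `(i, j')` is selected). By `hrich` there is `f` with `B i j' f ∉ R i`
and `B i j' f ∉ Q j'`. Put `q' i j = e`, `q' i j' = f`, `x = B i j' f`, `y = B i j e`. Row `i`: the updated family of `partners` is independent
with the same span, which is inside `R i` (so `B i j e ∈ R i`), so adding `B i j' f` keeps independence (the vector `B i j e` sits now at `j` instead of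
`j'`: reindex). Column `j`: `e ∈ Z`. Column `j'`: the old vector of `(i, j')` is removed and `B i j' f ∉ Q j'` is added. The other lines do
not change.
-/

set_option autoImplicit false

namespace Pool.Agent.H61.KA

open Finset

section

variable {K V ι : Type*} [Field K] [AddCommGroup V] [Module K V] {n : ℕ}

/-- The selected vectors of every row and every column are independent. -/
def Sel (K : Type*) {V ι : Type*} [Field K] [AddCommGroup V] [Module K V] {n : ℕ}
    (B : ι → ι → Fin n → V) (q : ι → ι → Fin n) (P : Finset (ι × ι)) : Prop :=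
  (∀ i, LinearIndependent K fun j : {j // (i, j) ∈ P} => B i j (q i j)) ∧
    ∀ j, LinearIndependent K fun i : {i // (i, j) ∈ P} => B i j (q i j)

/-- the cells of row `i` after adding `(i, j)` -/
theorem fill_row_set [DecidableEq ι] (P : Finset (ι × ι)) (i j : ι) :
    {j₁ | (i, j₁) ∈ insert (i, j) P} = insert j {j₁ | (i, j₁) ∈ P} := by
  ext j₁
  simp only [Set.mem_ofPred_eq, mem_insert, Set.mem_insert_iff, Prod.mk.injEq, true_and]

theorem fill_col_set [DecidableEq ι] (P : Finset (ι × ι)) (i j : ι) :
    {i₁ | (i₁, j) ∈ insert (i, j) P} = insert i {i₁ | (i₁, j) ∈ P} := by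
  ext i₁
  simp only [Set.mem_ofPred_eq, mem_insert, Set.mem_insert_iff, Prod.mk.injEq, and_true]

theorem fill_row_set' [DecidableEq ι] (P : Finset (ι × ι)) (i j i₂ : ι) (h : i₂ ≠ i) :
    {j₁ | (i₂, j₁) ∈ insert (i, j) P} = {j₁ | (i₂, j₁) ∈ P} := by
  ext j₁
  simp only [Set.mem_ofPred_eq, mem_insert, Prod.mk.injEq, h, false_and, false_or]

theorem fill_col_set' [DecidableEq ι] (P : Finset (ι × ι)) (i j j₂ : ι) (h : j₂ ≠ j) :
    {i₁ | (i₁, j₂) ∈ insert (i, j) P} = {i₁ | (i₁, j₂) ∈ P} := by
  ext i₁
  simp only [Set.mem_ofPred_eq, mem_insert, Prod.mk.injEq, h, and_false, false_or]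

/-- `Sel` in terms of `LinearIndepOn` -/
theorem fill_sel_iff (B : ι → ι → Fin n → V) (q : ι → ι → Fin n) (P : Finset (ι × ι)) :
    Sel K B q P ↔ (∀ i, LinearIndepOn K (fun j => B i j (q i j)) {j | (i, j) ∈ P}) ∧
      ∀ j, LinearIndepOn K (fun i => B i j (q i j)) {i | (i, j) ∈ P} := Iff.rfl

/-- many vectors of the basis `B i j` are outside of the span of column `j` -/
theorem fill_card [Fintype ι] [DecidableEq ι] [FiniteDimensional K V] (b : Fin n → V)
    (hb : LinearIndependent K b) (c : ι → V) (C : Finset ι) (i : ι) (hi : i ∉ C)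
    (Z : Finset (Fin n)) (hZ : ∀ e, e ∉ Z → b e ∈ Submodule.span K (c '' (C : Set ι))) :
    n + 1 ≤ Z.card + Fintype.card ι := by
  classical
  have hF : LinearIndependent K
      fun f : {f // f ∈ (univ : Finset (Fin n))} => (⊥ : Submodule K V).mkQ (b f) := by
    have h1 : LinearIndependent K (fun e : Fin n => (⊥ : Submodule K V).mkQ (b e)) := by
      refine hb.map' (⊥ : Submodule K V).mkQ ?_
      rw [Submodule.ker_mkQ]
    exact h1.comp (fun f : {f // f ∈ (univ : Finset (Fin n))} => (f : Fin n))
      Subtype.val_injective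
  have h2 := card_mem_le (⊥ : Submodule K V) (Submodule.span K (c '' (C : Set ι))) bot_le b
    univ Zᶜ hF (subset_univ _) (fun f hf => hZ f (mem_compl.1 hf))
  rw [finrank_bot, add_zero, card_compl, Fintype.card_fin] at h2
  have h3 : Module.finrank K (Submodule.span K (c '' (C : Set ι))) ≤ C.card := by
    have h4 : c '' (C : Set ι) = ((C.image c : Finset V) : Set V) := by
      rw [coe_image]
    rw [h4]
    exact (finrank_span_finset_le_card _).trans card_image_le
  have h5 : C.card < Fintype.card ι := card_lt_univ_of_notMem hi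
  have h6 : Z.card ≤ n := by
    simpa using card_le_univ Z
  omega

theorem fill [Fintype ι] [DecidableEq ι] [FiniteDimensional K V] (B : ι → ι → Fin n → V)
    (hB : ∀ i j, LinearIndependent K (B i j)) (q : ι → ι → Fin n) (P : Finset (ι × ι))
    (hS : Sel K B q P) (R Q : ι → Submodule K V)
    (hR : ∀ i j, (i, j) ∈ P → B i j (q i j) ∈ R i) (hQ : ∀ i j, (i, j) ∈ P → B i j (q i j) ∈ Q j)
    (i j : ι) (hij : (i, j) ∉ P) (ex : Finset ι)
    (hex : ex.card + Fintype.card ι ≤ n)
    (hrich : ∀ j', j' ∉ ex → ∃ f, B i j' f ∉ R i ∧ B i j' f ∉ Q j') :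
    ∃ (q' : ι → ι → Fin n) (j' : ι) (x y : V), (j' = j ∨ j' ∉ ex) ∧
      Sel K B q' (insert (i, j) P) ∧
      (∀ j₁, (i, j₁) ∈ insert (i, j) P → B i j₁ (q' i j₁) ∈ R i ⊔ Submodule.span K {x}) ∧
      (∀ i₁, (i₁, j) ∈ insert (i, j) P → B i₁ j (q' i₁ j) ∈ Q j ⊔ Submodule.span K {y}) ∧
      (∀ i₁, (i₁, j') ∈ insert (i, j) P → j' ≠ j →
        B i₁ j' (q' i₁ j') ∈ Q j' ⊔ Submodule.span K {x}) ∧
      ∀ i₁ j₁, ¬ (i₁ = i ∧ (j₁ = j ∨ j₁ = j')) → q' i₁ j₁ = q i₁ j₁ := by
  classical
  rw [fill_sel_iff] at hS
  obtain ⟨hrow, hcol⟩ := hS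
  -- the rows of column `j` and the columns of row `i`
  have hCi : i ∉ {i₁ | (i₁, j) ∈ P} := hij
  have hSj : j ∉ {j₁ | (i, j₁) ∈ P} := hij
  set Z : Finset (Fin n) := univ.filter (fun e =>
    B i j e ∉ Submodule.span K ((fun i₁ => B i₁ j (q i₁ j)) '' {i₁ | (i₁, j) ∈ P})) with hZdef
  have hZcard : n + 1 ≤ Z.card + Fintype.card ι := by
    refine fill_card (B i j) (hB i j) (fun i₁ => B i₁ j (q i₁ j))
      (univ.filter (fun i₁ => (i₁, j) ∈ P)) i ?_ Z ?_
    · rw [mem_filter]
      exact fun h => hij h.2
    · intro e he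
      rw [hZdef, mem_filter] at he
      have h1 : B i j e ∈ Submodule.span K ((fun i₁ => B i₁ j (q i₁ j)) '' {i₁ | (i₁, j) ∈ P}) := by
        by_contra hc
        exact he ⟨mem_univ _, hc⟩
      have h2 : ((univ.filter (fun i₁ => (i₁, j) ∈ P) : Finset ι) : Set ι) =
          {i₁ | (i₁, j) ∈ P} := by
        ext i₁
        simp
      rw [h2]
      exact h1
  by_cases hcase : ∃ e ∈ Z,
      B i j e ∉ Submodule.span K ((fun j₁ => B i j₁ (q i j₁)) '' {j₁ | (i, j₁) ∈ P})
  · -- case 1
    obtain ⟨e, heZ, he⟩ := hcase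
    rw [hZdef, mem_filter] at heZ
    set q' : ι → ι → Fin n := fun i₁ j₁ => if i₁ = i ∧ j₁ = j then e else q i₁ j₁ with hq'
    have hqe : q' i j = e := by simp [hq']
    have hqo : ∀ i₁ j₁, ¬ (i₁ = i ∧ j₁ = j) → q' i₁ j₁ = q i₁ j₁ := by
      intro i₁ j₁ h
      simp only [hq', if_neg h]
    refine ⟨q', j, B i j e, B i j e, Or.inl rfl, ?_, ?_, ?_, ?_, ?_⟩
    · rw [fill_sel_iff]
      constructor
      · intro i₂
        by_cases hi₂ : i₂ = i
        · subst hi₂
          rw [fill_row_set, linearIndepOn_insert hSj]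
          have heq : Set.EqOn (fun j₁ => B i₂ j₁ (q i₂ j₁)) (fun j₁ => B i₂ j₁ (q' i₂ j₁))
              {j₁ | (i₂, j₁) ∈ P} := by
            intro j₁ hj₁
            have hne : ¬ (i₂ = i₂ ∧ j₁ = j) := fun h => hSj (h.2 ▸ hj₁)
            change B i₂ j₁ (q i₂ j₁) = B i₂ j₁ (q' i₂ j₁)
            rw [hqo i₂ j₁ hne]
          refine ⟨(hrow i₂).congr heq, ?_⟩
          rw [← Set.image_congr heq]
          rw [hqe]
          exact he
        · rw [fill_row_set' P i j i₂ hi₂]
          refine (hrow i₂).congr ?_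
          intro j₁ _
          change B i₂ j₁ (q i₂ j₁) = B i₂ j₁ (q' i₂ j₁)
          rw [hqo i₂ j₁ (fun h => hi₂ h.1)]
      · intro j₂
        by_cases hj₂ : j₂ = j
        · subst hj₂
          rw [fill_col_set, linearIndepOn_insert hCi]
          have heq : Set.EqOn (fun i₁ => B i₁ j₂ (q i₁ j₂)) (fun i₁ => B i₁ j₂ (q' i₁ j₂))
              {i₁ | (i₁, j₂) ∈ P} := by
            intro i₁ hi₁
            have hne : ¬ (i₁ = i ∧ j₂ = j₂) := fun h => hCi (h.1 ▸ hi₁)
            change B i₁ j₂ (q i₁ j₂) = B i₁ j₂ (q' i₁ j₂)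
            rw [hqo i₁ j₂ hne]
          refine ⟨(hcol j₂).congr heq, ?_⟩
          rw [← Set.image_congr heq]
          rw [hqe]
          exact heZ.2
        · rw [fill_col_set' P i j j₂ hj₂]
          refine (hcol j₂).congr ?_
          intro i₁ _
          change B i₁ j₂ (q i₁ j₂) = B i₁ j₂ (q' i₁ j₂)
          rw [hqo i₁ j₂ (fun h => hj₂ h.2)]
    · intro j₁ hj₁
      by_cases h : j₁ = j
      · subst h
        rw [hqe]
        exact Submodule.mem_sup_right (Submodule.mem_span_singleton_self _)
      · rw [hqo i j₁ (fun h' => h h'.2)]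
        refine Submodule.mem_sup_left (hR i j₁ ?_)
        rcases mem_insert.1 hj₁ with h' | h'
        · exact absurd (Prod.mk.inj h').2 h
        · exact h'
    · intro i₁ hi₁
      by_cases h : i₁ = i
      · subst h
        rw [hqe]
        exact Submodule.mem_sup_right (Submodule.mem_span_singleton_self _)
      · rw [hqo i₁ j (fun h' => h h'.1)]
        refine Submodule.mem_sup_left (hQ i₁ j ?_)
        rcases mem_insert.1 hi₁ with h' | h'
        · exact absurd (Prod.mk.inj h').1 h
        · exact h'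
    · intro i₁ _ h
      exact absurd rfl h
    · intro i₁ j₁ h
      exact hqo i₁ j₁ (fun h' => h ⟨h'.1, Or.inl h'.2⟩)
  · -- case 2
    push Not at hcase
    set v : ι → V := fun j₁ => B i j₁ (q i j₁) with hv
    set S : Finset ι := univ.filter (fun j₁ => (i, j₁) ∈ P) with hSdef
    have hScoe : ((S : Finset ι) : Set ι) = {j₁ | (i, j₁) ∈ P} := by
      ext j₁
      simp [hSdef]
    have hrowS : LinearIndepOn K v (S : Set ι) := by
      rw [hScoe]
      exact hrow i
    have hne : Nonempty ι := ⟨i⟩
    obtain ⟨phi, hinj, hphi⟩ := partners (K := K) v S hrowS (B i j) Z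
      ((hB i j).comp (fun e : {e // e ∈ Z} => (e : Fin n)) Subtype.val_injective)
      (fun e he => by rw [hScoe]; exact hcase e he)
    have hex' : ex.card < Z.card := by omega
    obtain ⟨e, heZ, hee⟩ : ∃ e ∈ Z, phi e ∉ ex := by
      by_contra hno
      push Not at hno
      have h1 : Z.image phi ⊆ ex := by
        intro a ha
        obtain ⟨e, he, rfl⟩ := mem_image.1 ha
        exact hno e he
      have h2 := card_le_card h1
      rw [card_image_of_injOn hinj] at h2
      omega
    obtain ⟨hpS, hpli, hpspan⟩ := hphi e heZ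
    set j' : ι := phi e with hj'
    have hj'P : (i, j') ∈ P := by
      rw [hSdef, mem_filter] at hpS
      exact hpS.2
    have hjj : j' ≠ j := fun h => hij (h ▸ hj'P)
    obtain ⟨f, hfR, hfQ⟩ := hrich j' hee
    have heZ' := heZ
    rw [hZdef, mem_filter] at heZ'
    -- the updated family
    have hpli' : LinearIndepOn K (Function.update v j' (B i j e)) (S : Set ι) := hpli
    have hSins : (S : Set ι) = insert j' ((S : Set ι) \ {j'}) := by
      rw [Set.insert_sdiff_singleton, Set.insert_eq_of_mem]
      exact hpS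
    have hnot : j' ∉ ((S : Set ι) \ {j'}) := fun h => h.2 rfl
    have hupd : Set.EqOn (Function.update v j' (B i j e)) v ((S : Set ι) \ {j'}) := by
      intro j₁ hj₁
      exact Function.update_of_ne (fun h => hj₁.2 h) _ _
    have hsplit : LinearIndepOn K v ((S : Set ι) \ {j'}) ∧
        B i j e ∉ Submodule.span K (v '' ((S : Set ι) \ {j'})) := by
      rw [hSins, linearIndepOn_insert hnot] at hpli'
      refine ⟨hpli'.1.congr hupd, ?_⟩
      have h1 := hpli'.2
      rw [Set.image_congr hupd, Function.update_self] at h1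
      exact h1
    have hvR : Submodule.span K (v '' (S : Set ι)) ≤ R i := by
      rw [Submodule.span_le]
      rintro _ ⟨j₁, hj₁, rfl⟩
      rw [hScoe] at hj₁
      exact hR i j₁ hj₁
    have hzR : B i j e ∈ R i := by
      refine hvR ?_
      rw [hScoe]
      exact hcase e heZ
    set q' : ι → ι → Fin n := fun i₁ j₁ =>
      if i₁ = i ∧ j₁ = j then e else if i₁ = i ∧ j₁ = j' then f else q i₁ j₁ with hq'
    have hqe : q' i j = e := by simp [hq']
    have hqf : q' i j' = f := by
      change (if i = i ∧ j' = j then e else if i = i ∧ j' = j' then f else q i j') = f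
      rw [if_neg (fun h => hjj h.2), if_pos ⟨rfl, rfl⟩]
    have hqo : ∀ i₁ j₁, ¬ (i₁ = i ∧ (j₁ = j ∨ j₁ = j')) → q' i₁ j₁ = q i₁ j₁ := by
      intro i₁ j₁ h
      simp only [hq', if_neg (show ¬ (i₁ = i ∧ j₁ = j) from fun h' => h ⟨h'.1, Or.inl h'.2⟩),
        if_neg (show ¬ (i₁ = i ∧ j₁ = j') from fun h' => h ⟨h'.1, Or.inr h'.2⟩)]
    refine ⟨q', j', B i j' f, B i j e, Or.inr hee, ?_, ?_, ?_, ?_, hqo⟩
    · rw [fill_sel_iff]
      constructor
      · intro i₂
        by_cases hi₂ : i₂ = i
        · subst hi₂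
          have hset : {j₁ | (i₂, j₁) ∈ insert (i₂, j) P} =
              insert j' (insert j ((S : Set ι) \ {j'})) := by
            rw [fill_row_set, Set.insert_comm, ← hSins, hScoe]
          have hjS : j ∉ ((S : Set ι) \ {j'}) := by
            intro h
            have h1 := h.1
            rw [hScoe] at h1
            exact hSj h1
          have hj'S : j' ∉ insert j ((S : Set ι) \ {j'}) := by
            intro h
            rcases h with h | h
            · exact hjj h
            · exact h.2 rfl
          have heq : Set.EqOn v (fun j₁ => B i₂ j₁ (q' i₂ j₁)) ((S : Set ι) \ {j'}) := by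
            intro j₁ hj₁
            change B i₂ j₁ (q i₂ j₁) = B i₂ j₁ (q' i₂ j₁)
            rw [hqo i₂ j₁]
            rintro ⟨-, h | h⟩
            · rw [h] at hj₁
              exact hjS hj₁
            · exact hj₁.2 h
          rw [hset, linearIndepOn_insert hj'S, linearIndepOn_insert hjS]
          refine ⟨⟨hsplit.1.congr heq, ?_⟩, ?_⟩
          · rw [← Set.image_congr heq]
            rw [hqe]
            exact hsplit.2
          · rw [hqf]
            intro hmem
            refine hfR ?_
            refine (Submodule.span_le.2 ?_) hmem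
            rintro _ ⟨j₁, hj₁, rfl⟩
            change B i₂ j₁ (q' i₂ j₁) ∈ R i₂
            rcases hj₁ with h | h
            · rw [h, hqe]
              exact hzR
            · have h1 := heq h
              change v j₁ = B i₂ j₁ (q' i₂ j₁) at h1
              rw [← h1]
              exact hvR (Submodule.subset_span ⟨j₁, h.1, rfl⟩)
        · rw [fill_row_set' P i j i₂ hi₂]
          refine (hrow i₂).congr ?_
          intro j₁ _
          change B i₂ j₁ (q i₂ j₁) = B i₂ j₁ (q' i₂ j₁)
          rw [hqo i₂ j₁ (fun h => hi₂ h.1)]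
      · intro j₂
        by_cases hj₂ : j₂ = j
        · subst hj₂
          rw [fill_col_set, linearIndepOn_insert hCi]
          have heq : Set.EqOn (fun i₁ => B i₁ j₂ (q i₁ j₂)) (fun i₁ => B i₁ j₂ (q' i₁ j₂))
              {i₁ | (i₁, j₂) ∈ P} := by
            intro i₁ hi₁
            change B i₁ j₂ (q i₁ j₂) = B i₁ j₂ (q' i₁ j₂)
            rw [hqo i₁ j₂ (fun h => hCi (h.1 ▸ hi₁))]
          refine ⟨(hcol j₂).congr heq, ?_⟩
          rw [← Set.image_congr heq]
          rw [hqe]
          exact heZ'.2
        · rw [fill_col_set' P i j j₂ hj₂]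
          by_cases hj₃ : j₂ = j'
          · have hi' : i ∈ {i₁ | (i₁, j₂) ∈ P} := by
              change (i, j₂) ∈ P
              rw [hj₃]
              exact hj'P
            have hset : {i₁ | (i₁, j₂) ∈ P} = insert i ({i₁ | (i₁, j₂) ∈ P} \ {i}) := by
              rw [Set.insert_sdiff_singleton, Set.insert_eq_of_mem hi']
            have hni : i ∉ ({i₁ | (i₁, j₂) ∈ P} \ {i}) := fun h => h.2 rfl
            have heq : Set.EqOn (fun i₁ => B i₁ j₂ (q i₁ j₂)) (fun i₁ => B i₁ j₂ (q' i₁ j₂))
                ({i₁ | (i₁, j₂) ∈ P} \ {i}) := by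
              intro i₁ hi₁
              change B i₁ j₂ (q i₁ j₂) = B i₁ j₂ (q' i₁ j₂)
              rw [hqo i₁ j₂ (fun h => hi₁.2 h.1)]
            rw [hset, linearIndepOn_insert hni]
            refine ⟨((hcol j₂).mono Set.sdiff_subset).congr heq, ?_⟩
            rw [← Set.image_congr heq]
            rw [hj₃, hqf]
            intro hmem
            refine hfQ ?_
            refine (Submodule.span_le.2 ?_) hmem
            rintro _ ⟨i₁, hi₁, rfl⟩
            exact hQ i₁ j' hi₁.1
          · refine (hcol j₂).congr ?_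
            intro i₁ _
            change B i₁ j₂ (q i₁ j₂) = B i₁ j₂ (q' i₁ j₂)
            rw [hqo i₁ j₂ (fun h => h.2.elim hj₂ hj₃)]
    · intro j₁ hj₁
      by_cases h : j₁ = j
      · rw [h, hqe]
        exact Submodule.mem_sup_left hzR
      · by_cases h2 : j₁ = j'
        · rw [h2, hqf]
          exact Submodule.mem_sup_right (Submodule.mem_span_singleton_self _)
        · rw [hqo i j₁ (fun h' => h'.2.elim h h2)]
          refine Submodule.mem_sup_left (hR i j₁ ?_)
          rcases mem_insert.1 hj₁ with h' | h'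
          · exact absurd (Prod.mk.inj h').2 h
          · exact h'
    · intro i₁ hi₁
      by_cases h : i₁ = i
      · rw [h, hqe]
        exact Submodule.mem_sup_right (Submodule.mem_span_singleton_self _)
      · rw [hqo i₁ j (fun h' => h h'.1)]
        refine Submodule.mem_sup_left (hQ i₁ j ?_)
        rcases mem_insert.1 hi₁ with h' | h'
        · exact absurd (Prod.mk.inj h').1 h
        · exact h'
    · intro i₁ hi₁ _
      by_cases h : i₁ = i
      · rw [h, hqf]
        exact Submodule.mem_sup_right (Submodule.mem_span_singleton_self _)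
      · rw [hqo i₁ j' (fun h' => h h'.1)]
        refine Submodule.mem_sup_left (hQ i₁ j' ?_)
        rcases mem_insert.1 hi₁ with h' | h'
        · exact absurd (Prod.mk.inj h').1 h
        · exact h'

end

end Pool.Agent.H61.KA
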