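import Pool.Agent.H61.KA.Assem

/-!
# KA-24. The theorem

For `eps >= 1` we have `m = 0` (or `n = 0`), trivial. Otherwise `a = eps / 2`, `K`, `N` from `kahn_div a`; `m' = K (m / K + 1)`, `m < m' <= m + K <= (1 - eps) n + K <= (1 - a) n`
for `n >= K / a`; extend the array to `ZMod m'` (`m' ≠ 0`): `fun i j => if h : i.val < m ∧ j.val < m then B ⟨i.val, h.1⟩ ⟨j.val, h.2⟩ else` the standard basis
(`Pi.basisFun`), and restrict the selection to `i, j < m` (a subfamily of a linearly independent family along the injection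
`Fin m → ZMod m'`).
-/

set_option autoImplicit false

namespace Pool.Agent.H61.KA

open Finset

/-- An `m × m` array is extended to an `m' × m'` array indexed by `ZMod m'`. -/
noncomputable def ext {n m : ℕ} {F : Type*} [Field F] (m' : ℕ)
    (B : Fin m → Fin m → Module.Basis (Fin n) F (Fin n → F)) (i j : ZMod m') :
    Module.Basis (Fin n) F (Fin n → F) :=
  if h : i.val < m ∧ j.val < m then B ⟨i.val, h.1⟩ ⟨j.val, h.2⟩ else Pi.basisFun F (Fin n)

theorem ext_cast {n m : ℕ} {F : Type*} [Field F] (m' : ℕ) (hm : m < m')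
    (B : Fin m → Fin m → Module.Basis (Fin n) F (Fin n → F)) (i j : Fin m) :
    ext m' B ((i : ℕ) : ZMod m') ((j : ℕ) : ZMod m') = B i j := by
  have hi : (((i : ℕ) : ZMod m')).val = (i : ℕ) := ZMod.val_natCast_of_lt (i.2.trans hm)
  have hj : (((j : ℕ) : ZMod m')).val = (j : ℕ) := ZMod.val_natCast_of_lt (j.2.trans hm)
  have h : (((i : ℕ) : ZMod m')).val < m ∧ (((j : ℕ) : ZMod m')).val < m := by
    rw [hi, hj]; exact ⟨i.2, j.2⟩
  rw [ext, dif_pos h]
  have e1 : (⟨(((i : ℕ) : ZMod m')).val, h.1⟩ : Fin m) = i := Fin.ext hi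
  have e2 : (⟨(((j : ℕ) : ZMod m')).val, h.2⟩ : Fin m) = j := Fin.ext hj
  rw [e1, e2]

theorem cast_inj {m m' : ℕ} (hm : m < m') :
    Function.Injective (fun i : Fin m => (((i : ℕ) : ZMod m'))) := by
  intro i j h
  have hi : (((i : ℕ) : ZMod m')).val = (i : ℕ) := ZMod.val_natCast_of_lt (i.2.trans hm)
  have hj : (((j : ℕ) : ZMod m')).val = (j : ℕ) := ZMod.val_natCast_of_lt (j.2.trans hm)
  apply Fin.ext
  rw [← hi, ← hj]
  exact congrArg ZMod.val h

theorem kahn_asymp (eps : ℝ) (heps : 0 < eps) : ∃ N : ℕ, ∀ n m : ℕ, N ≤ n →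
    (m : ℝ) ≤ (1 - eps) * n →
      ∀ (F : Type*) [Field F] (B : Fin m → Fin m → Module.Basis (Fin n) F (Fin n → F)),
        ∃ q : Fin m → Fin m → Fin n, (∀ i, LinearIndependent F fun j => B i j (q i j)) ∧
          ∀ j, LinearIndependent F fun i => B i j (q i j) := by
  by_cases h1 : 1 ≤ eps
  · refine ⟨0, fun n m _ hm F _ B => ?_⟩
    have h2 : (m : ℝ) ≤ 0 := by
      refine hm.trans ?_
      have : (0 : ℝ) ≤ n := Nat.cast_nonneg n
      nlinarith
    have h3 : m = 0 := by
      have : (m : ℝ) = 0 := le_antisymm h2 (Nat.cast_nonneg m)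
      exact_mod_cast this
    subst h3
    exact ⟨fun i => i.elim0, fun i => i.elim0, fun i => i.elim0⟩
  · push Not at h1
    have ha : 0 < eps / 2 := by positivity
    obtain ⟨K, N, hK, hN⟩ := kahn_div (eps / 2) ha (by linarith)
    refine ⟨max N (⌈(K : ℝ) / (eps / 2)⌉₊), fun n m hn hm F _ B => ?_⟩
    have hn1 : N ≤ n := (le_max_left _ _).trans hn
    have hn2 : (K : ℝ) ≤ (eps / 2) * n := by
      have h3 : (K : ℝ) / (eps / 2) ≤ n :=
        (Nat.le_ceil _).trans (by exact_mod_cast (le_max_right _ _).trans hn)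
      rw [div_le_iff₀ ha] at h3
      linarith
    have hm' : m < K * (m / K + 1) := by
      have := Nat.lt_mul_div_succ m hK
      exact this
    have hm'' : K * (m / K + 1) ≤ m + K := by
      have := Nat.mul_div_le m K
      rw [Nat.mul_add, Nat.mul_one]
      omega
    have : NeZero (K * (m / K + 1)) := ⟨by omega⟩
    have h5 : eps / 2 * (n : ℝ) ≤ (n : ℝ) - ((K * (m / K + 1) : ℕ) : ℝ) := by
      have h6 : ((K * (m / K + 1) : ℕ) : ℝ) ≤ (m : ℝ) + K := by exact_mod_cast hm''
      linarith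
    obtain ⟨q, hq1, hq2⟩ := hN n (K * (m / K + 1)) hn1 (Dvd.intro _ rfl) h5 F
      (ext (K * (m / K + 1)) B)
    refine ⟨fun i j => q ((i : ℕ) : ZMod _) ((j : ℕ) : ZMod _), fun i => ?_, fun j => ?_⟩
    · have h := (hq1 ((i : ℕ) : ZMod _)).comp _ (cast_inj hm')
      have e : ((fun j => (ext (K * (m / K + 1)) B ((i : ℕ) : ZMod _) j)
          (q ((i : ℕ) : ZMod _) j)) ∘ fun i : Fin m => (((i : ℕ) : ZMod _))) =
          fun j : Fin m => B i j (q ((i : ℕ) : ZMod _) ((j : ℕ) : ZMod _)) := by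
        funext j
        simp only [Function.comp]
        rw [ext_cast _ hm']
      rw [e] at h
      exact h
    · have h := (hq2 ((j : ℕ) : ZMod _)).comp _ (cast_inj hm')
      have e : ((fun i => (ext (K * (m / K + 1)) B i ((j : ℕ) : ZMod _))
          (q i ((j : ℕ) : ZMod _))) ∘ fun i : Fin m => (((i : ℕ) : ZMod _))) =
          fun i : Fin m => B i j (q ((i : ℕ) : ZMod _) ((j : ℕ) : ZMod _)) := by
        funext i
        simp only [Function.comp]
        rw [ext_cast _ hm']
      rw [e] at h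
      exact h

end Pool.Agent.H61.KA
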