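import Pool.Agent.H61.KA.Basic

/-!
# KA-03. One time step of a test

`X w (s + 1) = X w s - (number of t : Fin m such that tau (of the line ptn w.1 t) s t (hist s) is in fam w t)`: `alive_succ`
removes exactly one element, which is in the alive set (`tau_mem`, `valid_hist`), so the cardinality of the intersection with
`fam w t` drops by one iff the element is in `fam w t`.

The sum over the rows `i` of `D s c w i (c s i)` is the same sum over `t`. If `w.1 = (true, j)`: `sum_slot1` with `i = j - t`,
`slot (j - i) = t` (`slot_cast`), `ptn (true, j) t = (false, j - t)`, `hist c (false, i) s = (c s i).1`.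
If `w.1 = (false, i0)`: `sum_slot2` with `i = i0 + t - s`, `i + s = i0 + t`, `slot (i + s - i0) = t`,
`ptn (false, i0) t = (true, i0 + t)`, `hist c (true, i + s) s = (c s (i + s - s)).2 = (c s i).2`.
-/

set_option autoImplicit false

namespace Pool.Agent.H61.KA

open Finset

variable {n m : ℕ}

open Classical in
theorem card_erase_inter (A V : Finset (Fin n)) (x : Fin n) (hx : x ∈ A) :
    (((A.erase x) ∩ V).card : ℝ) = ((A ∩ V).card : ℝ) - (if x ∈ V then 1 else 0) := by
  rw [Finset.erase_inter]
  by_cases h : x ∈ V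
  · have hm : x ∈ A ∩ V := Finset.mem_inter.2 ⟨hx, h⟩
    have h1 := Finset.card_erase_add_one hm
    rw [if_pos h, ← h1]
    push_cast
    ring
  · have hm : x ∉ A ∩ V := fun h' => h (Finset.mem_inter.1 h').2
    rw [Finset.erase_eq_of_notMem hm, if_neg h]
    ring

open Classical in
theorem X_step_aux [NeZero m] {a : ℝ} {S : Ln m → DS n m} {c : Pth n m} {T : ℕ}
    (hv : Valid a S c T) (w : Ln m × Idx n m) (s : Fin m) (hs : (s : ℕ) < T) :
    X S c w (s + 1) = X S c w s - ∑ t : Fin m,
      (if (S (ptn w.1 t)).tau (hist c (ptn w.1 t)) s t (hist c (ptn w.1 t) s) ∈ fam S w t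
        then (1 : ℝ) else 0) := by
  unfold X
  rw [← Finset.sum_sub_distrib]
  refine Finset.sum_congr rfl fun t _ => ?_
  rw [alive_succ hv (ptn w.1 t) s t hs]
  convert card_erase_inter _ _ _ (tau_mem hv (ptn w.1 t) s t hs.le _
    (valid_hist hv (ptn w.1 t) s hs)) using 2

theorem X_step [NeZero m] {a : ℝ} {S : Ln m → DS n m} {c : Pth n m} {T : ℕ}
    (hv : Valid a S c T) (w : Ln m × Idx n m) (s : Fin m) (hs : (s : ℕ) < T) :
    X S c w (s + 1) = X S c w s - ∑ i, D S s c w i (c s i) := by
  classical
  rw [X_step_aux hv w s hs]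
  congr 1
  obtain ⟨⟨b, j⟩, idx⟩ := w
  cases b with
  | true =>
    rw [sum_slot1 j]
    refine Finset.sum_congr rfl fun t _ => ?_
    have e1 : (slot (j - (j - ((t : ℕ) : ZMod m))) : Fin m) = t := by
      rw [sub_sub_cancel, slot_cast]
    simp only [D, ptn, hist, if_true, e1]
    simp
  | false =>
    rw [sum_slot2 j ((s : ℕ) : ZMod m)]
    refine Finset.sum_congr rfl fun t _ => ?_
    have e2 : (j + ((t : ℕ) : ZMod m) - ((s : ℕ) : ZMod m)) + ((s : ℕ) : ZMod m) =
        j + ((t : ℕ) : ZMod m) := by ring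
    have e1 : (slot (j + ((t : ℕ) : ZMod m) - j) : Fin m) = t := by
      rw [add_sub_cancel_left, slot_cast]
    simp only [D, ptn, hist, e2, e1]
    simp

end Pool.Agent.H61.KA
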