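import Pool.Agent.H61.KA.Line
import Pool.Agent.H61.KA.StepX

/-!
# KA-07. Telescoping

`Lsum a S c w T` is the sum over the times before `T` of the decreases minus their averages. `telescope`: by `X_step`, induction on
`mu` (`rnd m T0 (mu + 1) = insert ⟨T0 + mu, _⟩ (rnd m T0 mu)`, and the same for the filter in `Lsum`).
-/

set_option autoImplicit false

namespace Pool.Agent.H61.KA

open Finset

variable {n m : ℕ}

/-- Accumulated deviation of a test. -/
noncomputable def Lsum [NeZero m] (a : ℝ) (S : Ln m → DS n m) (c : Pth n m) (w : Ln m × Idx n m)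
    (T : ℕ) : ℝ :=
  ∑ s ∈ univ.filter (fun s : Fin m => (s : ℕ) < T),
    ∑ i, (D S s c w i (c s i) - avg (C a S s c i) (D S s c w i))

theorem tele_rnd (mu T0 : ℕ) (h : T0 + mu < m) :
    rnd m T0 (mu + 1) = insert (⟨T0 + mu, h⟩ : Fin m) (rnd m T0 mu) := by
  ext s
  simp only [rnd, mem_filter, mem_univ, true_and, mem_insert, Fin.ext_iff]
  omega

theorem tele_notMem (mu T0 : ℕ) (h : T0 + mu < m) : (⟨T0 + mu, h⟩ : Fin m) ∉ rnd m T0 mu := by
  simp only [rnd, mem_filter, mem_univ, true_and]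
  omega

theorem tele_Lsum [NeZero m] (a : ℝ) (S : Ln m → DS n m) (c : Pth n m) (w : Ln m × Idx n m)
    (T : ℕ) (h : T < m) :
    Lsum a S c w (T + 1) = Lsum a S c w T +
      ∑ i, (D S ⟨T, h⟩ c w i (c (⟨T, h⟩ : Fin m) i) -
        avg (C a S ⟨T, h⟩ c i) (D S ⟨T, h⟩ c w i)) := by
  have h1 : (univ.filter fun s : Fin m => (s : ℕ) < T + 1) =
      insert (⟨T, h⟩ : Fin m) (univ.filter fun s : Fin m => (s : ℕ) < T) := by
    ext s
    simp only [mem_filter, mem_univ, true_and, mem_insert, Fin.ext_iff]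
    omega
  have h2 : (⟨T, h⟩ : Fin m) ∉ (univ.filter fun s : Fin m => (s : ℕ) < T) := by
    simp only [mem_filter, mem_univ, true_and]
    omega
  unfold Lsum
  rw [h1, sum_insert h2, add_comm]

theorem telescope [NeZero m] {a : ℝ} {S : Ln m → DS n m} {c : Pth n m} (mu T0 : ℕ)
    (hT : T0 + mu ≤ m) (hv : Valid a S c (T0 + mu)) (w : Ln m × Idx n m) :
    X S c w (T0 + mu) = X S c w T0 - ∑ s ∈ rnd m T0 mu, ∑ i, avg (C a S s c i) (D S s c w i) -
      (Lsum a S c w (T0 + mu) - Lsum a S c w T0) := by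
  induction mu with
  | zero =>
    have h0 : rnd m T0 0 = ∅ := by
      ext s
      simp only [rnd, mem_filter, mem_univ, true_and, notMem_empty, iff_false]
      omega
    rw [h0, sum_empty, add_zero]
    ring
  | succ mu ih =>
    have hlt : T0 + mu < m := by omega
    have hv' : Valid a S c (T0 + mu) := fun t ht i => hv t (by omega) i
    have ih' := ih (by omega) hv'
    have h1 := X_step hv w ⟨T0 + mu, hlt⟩ (by simp only; omega)
    have h2 := tele_Lsum a S c w (T0 + mu) hlt
    rw [tele_rnd mu T0 hlt, sum_insert (tele_notMem mu T0 hlt)]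
    simp only at h1 h2
    rw [sum_sub_distrib] at h2
    rw [← add_assoc, h1, ih', h2]
    ring

end Pool.Agent.H61.KA
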