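import Pool.Agent.H61.KA.Path
import Pool.Agent.H61.KA.Tele

/-!
# KA-12. Existence of a good path

Apply `path` with `I = ZMod m` (`card = m`), `γ = Fin n x Fin n`, `Om = Ln m x Idx n m`, `N = m` and
`C T c i = if h : T < m then C a S ⟨T, h⟩ c i else ∅`, `D T c w i v = if h : T < m then D S ⟨T, h⟩ c w i v else 0`
(`C_congr`, `D_congr`, `C_nonempty`, `D_bound`); rewrite the sum over `range T` as the sum over `{s : Fin m | s < T}`.
-/

set_option autoImplicit false

namespace Pool.Agent.H61.KA

open Finset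

variable {n m : ℕ}

/-- Allowed picks at all times. -/
noncomputable def instC [NeZero m] (a : ℝ) (S : Ln m → DS n m) (T : ℕ) (c : Pth n m) (i : ZMod m) :
    Finset (Fin n × Fin n) :=
  if h : T < m then C a S ⟨T, h⟩ c i else ∅

/-- Decreases at all times. -/
noncomputable def instD [NeZero m] (S : Ln m → DS n m) (T : ℕ) (c : Pth n m)
    (w : Ln m × Idx n m) (i : ZMod m) (v : Fin n × Fin n) : ℝ :=
  if h : T < m then D S ⟨T, h⟩ c w i v else 0

theorem inst_sum [NeZero m] (a : ℝ) (S : Ln m → DS n m) (c : Pth n m) (w : Ln m × Idx n m)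
    {T : ℕ} (hT : T ≤ m) :
    ∑ s ∈ range T, ∑ i, (instD S s c w i (c s i) - avg (instC a S s c i) (instD S s c w i)) =
      Lsum a S c w T := by
  unfold Lsum
  refine Finset.sum_bij (fun (s : ℕ) (hs : s ∈ range T) =>
    (⟨s, lt_of_lt_of_le (mem_range.1 hs) hT⟩ : Fin m)) ?_ ?_ ?_ ?_
  · intro s hs
    simpa using hs
  · intro s _ s' _ h
    exact congrArg Fin.val h
  · intro s hs
    exact ⟨s, by simpa using hs, rfl⟩
  · intro s hs
    have hsm : s < m := lt_of_lt_of_le (mem_range.1 hs) hT
    refine sum_congr rfl fun i _ => ?_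
    have e1 : instC a S s c i = C a S ⟨s, hsm⟩ c i := by
      unfold instC; rw [dif_pos hsm]
    have e2 : instD S s c w i = D S ⟨s, hsm⟩ c w i := by
      funext v
      unfold instD; rw [dif_pos hsm]
    rw [e1, e2]

theorem exists_path [NeZero m] {a : ℝ} (ha : 0 < a) (hnm : m < n) (S : Ln m → DS n m) (theta : ℝ)
    (h0 : 0 < theta) (h1 : theta ≤ 1) :
    ∃ c : Pth n m, Valid a S c m ∧ ∀ w T, T ≤ m → |Lsum a S c w T| ≤
      theta * (m : ℝ) ^ 2 + Real.log (2 * Fintype.card (Ln m × Idx n m)) / theta := by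
  classical
  have : Nonempty (Fin n × Fin n) := ⟨(⟨0, by omega⟩, ⟨0, by omega⟩)⟩
  have hval : ∀ (T : ℕ) (hT : T < m) (c : Pth n m),
      (∀ s, s < T → ∀ i, c s i ∈ instC a S s c i) → Valid a S c T := by
    intro T hT c h t ht i
    have := h t ht i
    unfold instC at this
    rwa [dif_pos t.2] at this
  obtain ⟨c, hc, hL⟩ := path (I := ZMod m) (γ := Fin n × Fin n) (Om := Ln m × Idx n m) theta h0 h1 m
    (instC a S) (instD S) (by
      intro T hT c c' h
      funext i
      unfold instC
      rw [dif_pos hT, dif_pos hT, C_congr a S ⟨T, hT⟩ c c' h]) (by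
      intro T hT c c' h
      funext w i v
      unfold instD
      rw [dif_pos hT, dif_pos hT, D_congr S ⟨T, hT⟩ c c' h]) (by
      intro T hT c h i
      unfold instC
      rw [dif_pos hT]
      exact C_nonempty ha hnm ⟨T, hT⟩ (hval T hT c h) i) (by
      intro T c w i v
      unfold instD
      split_ifs with h
      · exact D_bound S _ c w i v
      · exact ⟨le_rfl, zero_le_one⟩)
  refine ⟨c, ?_, ?_⟩
  · intro t ht i
    have := hc t ht i
    unfold instC at this
    rwa [dif_pos t.2] at this
  · intro w T hT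
    have h := hL T hT w
    rw [inst_sum a S c w hT, ZMod.card] at h
    refine h.trans ?_
    have hTm : (T : ℝ) ≤ m := by exact_mod_cast hT
    have hm0 : (0 : ℝ) ≤ m := Nat.cast_nonneg m
    have : theta * m * T ≤ theta * (m : ℝ) ^ 2 := by
      rw [pow_two, ← mul_assoc]
      exact mul_le_mul_of_nonneg_left hTm (by positivity)
    linarith

end Pool.Agent.H61.KA
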