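import Pool.Agent.H61.KA.Round

/-!
# KA-09a. All rounds

`Bd_zero`: at time `0` everything is alive (`DS.zero`), `X w 0 = F w`. `iter`: put `g = 4 mu^3 / (a^2 n) + 2 lam >= 0`,
`q = 1 + 5 mu / (a^2 n) >= 1`; induction on `r`: `q (r g q^r) + g <= (r + 1) g q^(r+1)`. (`0 <= lam` follows from `hL`.)
-/

set_option autoImplicit false

namespace Pool.Agent.H61.KA

open Finset

variable {n m : ℕ}

theorem Bd_zero (S : Ln m → DS n m) (c : Pth n m) (mu : ℕ) : Bd S c mu 0 0 := by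
  intro w _
  have h : X S c w 0 = F S w := by
    unfold X F alive
    refine Finset.sum_congr rfl fun t _ => ?_
    rw [(S (ptn w.1 t)).zero, Finset.univ_inter]
  rw [h]
  simp

theorem iter [NeZero m] {a : ℝ} (ha : 0 < a) (ha1 : a ≤ 1) {S : Ln m → DS n m} {c : Pth n m}
    (lam : ℝ) (hL : ∀ w T, T ≤ m → |Lsum a S c w T| ≤ lam) (mu K : ℕ) (hm : K * mu = m)
    (hv : Valid a S c m) (hmu : (mu : ℝ) ≤ a ^ 2 * n / 8) (hnm : a * n ≤ (n : ℝ) - m)
    (hn : 0 < n) (r : ℕ) (hr : r ≤ K) :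
    Bd S c mu (r * mu)
      (r * (4 * (mu : ℝ) ^ 3 / (a ^ 2 * n) + 2 * lam) * (1 + 5 * mu / (a ^ 2 * n)) ^ r) := by
  have hlam : 0 ≤ lam := by
    have i0 : Fin n := ⟨0, hn⟩
    have t0 : Fin m := ⟨0, Nat.pos_of_ne_zero (NeZero.ne m)⟩
    exact le_trans (abs_nonneg _)
      (hL ((false, 0), (false, (fun _ => i0), t0, ∅, ∅)) 0 (Nat.zero_le _))
  have hn' : (0 : ℝ) < n := by exact_mod_cast hn
  have hmu0 : (0 : ℝ) ≤ mu := Nat.cast_nonneg _
  set g : ℝ := 4 * (mu : ℝ) ^ 3 / (a ^ 2 * n) + 2 * lam with hg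
  have hg0 : 0 ≤ g := by positivity
  set q : ℝ := 1 + 5 * mu / (a ^ 2 * n) with hq
  have hq1 : 1 ≤ q := by
    have : 0 ≤ 5 * (mu : ℝ) / (a ^ 2 * n) := by positivity
    linarith
  induction r with
  | zero =>
    have h := Bd_zero S c mu
    intro w hw
    have h2 := h w hw
    simpa using h2
  | succ r ih =>
    have ih' := ih (by omega)
    have hT : r * mu + mu ≤ m := by
      have : (r + 1) * mu ≤ K * mu := Nat.mul_le_mul_right _ hr
      rw [hm] at this
      linarith [this, add_mul r 1 mu]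
    have hv' : Valid a S c (r * mu + mu) := fun t ht i => hv t t.2 i
    have h := round ha ha1 lam hL mu (r * mu) hT hv' hmu hnm hn _ ih'
    have hT2 : (r + 1) * mu = r * mu + mu := by ring
    rw [hT2]
    intro w hw
    refine le_trans (h w hw) ?_
    have hqr : 1 ≤ q ^ (r + 1) := one_le_pow₀ hq1
    have e1 : q * (r * g * q ^ r) + 4 * (mu : ℝ) ^ 3 / (a ^ 2 * n) + 2 * lam =
        r * g * q ^ (r + 1) + g := by
      rw [hg]; ring
    have e2 : ((r + 1 : ℕ) : ℝ) * g * q ^ (r + 1) = r * g * q ^ (r + 1) + g * q ^ (r + 1) := by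
      push_cast; ring
    rw [e1, e2]
    nlinarith

end Pool.Agent.H61.KA
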