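import Mathlib

/-!
# KA-20. Linear algebra for the switching step, 2

`partners`: `v c` (`c ∈ P`) independent, `z e` (`e ∈ Z`) independent and all in the span of the `v c`. Let `supp e` be the set of `c ∈ P`
with nonzero coefficient. Hall's theorem (`Finset.all_card_le_biUnion_card_iff_exists_injective`): for `Y ⊆ Z` the `z e` (`e ∈ Y`) lie in
the span of the `v c` with `c` in the union of the supports, so `Y.card <= card` of the union. If the coefficient of `v c0` in `z e` is
nonzero then exchanging `v c0` for `z e` keeps the family independent (`update`), and its span is the same.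
-/

set_option autoImplicit false

namespace Pool.Agent.H61.KA

/-- replacing `v c0` by a combination with nonzero coefficient at `c0` -/
theorem partners_update {K V κ : Type*} [Field K] [AddCommGroup V] [Module K V]
    [DecidableEq κ] (v : κ → V) (P : Finset κ) (hv : LinearIndepOn K v (P : Set κ))
    (a : κ → K) (c0 : κ) (hc0 : c0 ∈ P) (ha : a c0 ≠ 0) (z : V)
    (hz : ∑ c ∈ P, a c • v c = z) :
    LinearIndepOn K (Function.update v c0 z) (P : Set κ) ∧
      Submodule.span K (Function.update v c0 z '' (P : Set κ)) =
        Submodule.span K (v '' (P : Set κ)) := by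
  classical
  have hP : (P : Set κ) = insert c0 ((P.erase c0 : Finset κ) : Set κ) := by
    rw [← Finset.coe_insert, Finset.insert_erase hc0]
  have hnot : c0 ∉ ((P.erase c0 : Finset κ) : Set κ) := by simp
  have hupd : Set.EqOn v (Function.update v c0 z) ((P.erase c0 : Finset κ) : Set κ) := by
    intro c hc
    have hne : c ≠ c0 := fun h => hnot (h ▸ hc)
    exact (Function.update_of_ne hne _ _).symm
  have hsum : a c0 • v c0 = z - ∑ c ∈ P.erase c0, a c • v c := by
    rw [← hz, ← Finset.add_sum_erase P _ hc0, add_sub_cancel_right]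
  have hmem : ∑ c ∈ P.erase c0, a c • v c ∈ Submodule.span K (v '' ((P.erase c0 : Finset κ) : Set κ)) :=
    Submodule.sum_mem _ fun c hc => Submodule.smul_mem _ _
      (Submodule.subset_span ⟨c, hc, rfl⟩)
  have hv' := hv
  rw [hP, linearIndepOn_insert hnot] at hv'
  have hv0 : v c0 = (a c0)⁻¹ • (z - ∑ c ∈ P.erase c0, a c • v c) := by
    rw [← hsum, smul_smul, inv_mul_cancel₀ ha, one_smul]
  constructor
  · rw [hP, linearIndepOn_insert hnot]
    refine ⟨hv'.1.congr hupd, ?_⟩
    rw [Function.update_self, ← Set.image_congr hupd]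
    intro h
    refine hv'.2 ?_
    rw [hv0]
    exact Submodule.smul_mem _ _ (Submodule.sub_mem _ h hmem)
  · apply le_antisymm
    · rw [Submodule.span_le]
      rintro _ ⟨c, hc, rfl⟩
      by_cases h : c = c0
      · rw [h, Function.update_self, ← hz]
        exact Submodule.sum_mem _ fun c hc => Submodule.smul_mem _ _
          (Submodule.subset_span ⟨c, hc, rfl⟩)
      · rw [Function.update_of_ne h]
        exact Submodule.subset_span ⟨c, hc, rfl⟩
    · rw [Submodule.span_le]
      have key : ∀ c ∈ P.erase c0, v c ∈ Submodule.span K (Function.update v c0 z '' (P : Set κ)) := by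
        intro c hc
        rw [hupd hc]
        exact Submodule.subset_span ⟨c, Finset.mem_of_mem_erase hc, rfl⟩
      rintro _ ⟨c, hc, rfl⟩
      by_cases h : c = c0
      · rw [h]
        change v c0 ∈ Submodule.span K (Function.update v c0 z '' (P : Set κ))
        rw [hv0]
        refine Submodule.smul_mem _ _ (Submodule.sub_mem _ ?_ ?_)
        · exact Submodule.subset_span ⟨c0, hc0, Function.update_self ..⟩
        · exact Submodule.sum_mem _ fun c hc => Submodule.smul_mem _ _ (key c hc)
      · exact key c (Finset.mem_erase.2 ⟨h, hc⟩)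

theorem partners {K V ι κ : Type*} [Field K] [AddCommGroup V] [Module K V] [DecidableEq ι]
    [DecidableEq κ] [Nonempty κ] (v : κ → V) (P : Finset κ)
    (hv : LinearIndependent K fun c : {c // c ∈ P} => v c)
    (z : ι → V) (Z : Finset ι) (hz : LinearIndependent K fun e : {e // e ∈ Z} => z e)
    (hsp : ∀ e ∈ Z, z e ∈ Submodule.span K (v '' (P : Set κ))) :
    ∃ phi : ι → κ, Set.InjOn phi Z ∧ ∀ e ∈ Z, phi e ∈ P ∧
      (LinearIndependent K fun c : {c // c ∈ P} => Function.update v (phi e) (z e) c) ∧
      Submodule.span K (Function.update v (phi e) (z e) '' (P : Set κ)) =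
        Submodule.span K (v '' (P : Set κ)) := by
  classical
  have hex : ∀ e : {e // e ∈ Z}, ∃ c : κ → K, ∑ i ∈ P, c i • v i = z e := fun e =>
    Submodule.mem_span_image_finset_iff_exists_fun' (R := K) |>.1 (hsp e e.2)
  choose a ha using hex
  let t : {e // e ∈ Z} → Finset κ := fun e => P.filter fun c => a e c ≠ 0
  have hall : ∀ s : Finset {e // e ∈ Z}, s.card ≤ (s.biUnion t).card := by
    intro s
    have hli : LinearIndependent K fun e : {e // e ∈ s} => z e := by
      have h := hz.comp (fun e : {e // e ∈ s} => (e : {e // e ∈ Z})) Subtype.val_injective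
      exact h
    have h1 := finrank_span_eq_card hli
    rw [Fintype.card_coe] at h1
    rw [← h1]
    have h2 : v '' ((s.biUnion t : Finset κ) : Set κ) = (((s.biUnion t).image v : Finset V) : Set V) := by
      rw [Finset.coe_image]
    have h3 : Submodule.span K (Set.range fun e : {e // e ∈ s} => z e) ≤
        Submodule.span K (((s.biUnion t).image v : Finset V) : Set V) := by
      rw [Submodule.span_le]
      rintro _ ⟨e, rfl⟩
      change z e ∈ Submodule.span K (((s.biUnion t).image v : Finset V) : Set V)
      rw [← h2, ← ha e]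
      refine Submodule.sum_mem _ fun c hc => ?_
      by_cases h0 : a e c = 0
      · rw [h0, zero_smul]
        exact Submodule.zero_mem _
      · refine Submodule.smul_mem _ _ (Submodule.subset_span ⟨c, ?_, rfl⟩)
        rw [Finset.mem_coe, Finset.mem_biUnion]
        exact ⟨e, e.2, Finset.mem_filter.2 ⟨hc, h0⟩⟩
    have h4 := Submodule.finrank_mono h3
    exact h4.trans ((finrank_span_finset_le_card _).trans Finset.card_image_le)
  obtain ⟨f, hf, hft⟩ := (Finset.all_card_le_biUnion_card_iff_exists_injective t).1 hall
  refine ⟨fun e => if h : e ∈ Z then f ⟨e, h⟩ else Classical.arbitrary κ, ?_, ?_⟩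
  · intro e he e' he' h
    have h1 : e ∈ Z := he
    have h2 : e' ∈ Z := he'
    simp only [dif_pos h1, dif_pos h2] at h
    exact congrArg Subtype.val (hf h)
  · intro e he
    simp only [dif_pos he]
    obtain ⟨h1, h2⟩ := Finset.mem_filter.1 (hft ⟨e, he⟩)
    refine ⟨h1, ?_⟩
    exact partners_update v P hv (a ⟨e, he⟩) _ h1 h2 (z e) (ha ⟨e, he⟩)

end Pool.Agent.H61.KA
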