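import Pool.Agent.H61.KA.Lin1
import Pool.Agent.H61.KA.Lin2

/-!
# KA: linear algebra for the switching step
-/
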