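import Mathlib

/-!
# KA-19. Linear algebra for the switching step, 1

`card_mem_le`: the images in `V / W` of the `y f` with `f ∈ G` are linearly independent and lie in `R / W` (`R.map W.mkQ`), whose dimension
is `finrank R - finrank W`.
-/

set_option autoImplicit false

namespace Pool.Agent.H61.KA

theorem card_mem_le {K V ι : Type*} [Field K] [AddCommGroup V] [Module K V] [FiniteDimensional K V]
    (W R : Submodule K V) (hWR : W ≤ R) (y : ι → V) (Fs G : Finset ι)
    (hF : LinearIndependent K fun f : {f // f ∈ Fs} => W.mkQ (y f)) (hG : G ⊆ Fs)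
    (hGR : ∀ f ∈ G, y f ∈ R) : G.card + Module.finrank K W ≤ Module.finrank K R := by
  classical
  have h1 : LinearIndependent K fun f : {f // f ∈ G} => W.mkQ (y f) :=
    hF.comp (fun f : {f // f ∈ G} => (⟨f, hG f.2⟩ : {f // f ∈ Fs}))
      (fun a b h => Subtype.ext (congrArg (fun c : {f // f ∈ Fs} => (c : ι)) h))
  have h2 : LinearIndependent K
      fun f : {f // f ∈ G} => (⟨W.mkQ (y f), Submodule.mem_map_of_mem (hGR f f.2)⟩ :
        R.map W.mkQ) := by
    refine LinearIndependent.of_comp (R.map W.mkQ).subtype ?_
    exact h1
  have h3 := h2.fintype_card_le_finrank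
  rw [Fintype.card_coe] at h3
  have h4 : Module.finrank K (R.map W.mkQ) + Module.finrank K W = Module.finrank K R := by
    have h5 := LinearMap.finrank_range_add_finrank_ker (W.mkQ.domRestrict R)
    have h6 : LinearMap.range (W.mkQ.domRestrict R) = R.map W.mkQ := by
      rw [LinearMap.range_domRestrict]
    have h7 : LinearMap.ker (W.mkQ.domRestrict R) = W.comap R.subtype := by
      ext x
      simp [LinearMap.mem_ker]
    rw [h6, h7] at h5
    have h8 : Module.finrank K (W.comap R.subtype) = Module.finrank K W :=
      (Submodule.comapSubtypeEquivOfLe hWR).finrank_eq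
    rw [h8] at h5
    exact h5
  omega

end Pool.Agent.H61.KA
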