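import Mathlib

/-!
# KA-05. The numerical estimate for one line and one round

Pure inequalities. Put `q = 1 - T0 / n`, `sb i = q * p i`; `q >= a`, `p i >= a n`, so `sb i >= a^2 n > 0`.
(L1) `∑_I |St i - sb i| <= 2 e`: apply `H1` to `J = {St >= sb}` and to its complement.
(1) For all `i ∈ I`: `|rho i - av i / sb i| <= (2 |St i - sb i| + 2 mu) / (a^2 n)`.
 Good case `a^2 n / 4 <= Sr i`: `|b/Sr - b/sb| = b |sb - Sr| / (Sr sb) <= |sb - Sr| / sb <= (|sb - St| + mu) / (a^2 n)` and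
 `|b - av| / sb <= mu / (a^2 n)`.
 Bad case: `St <= Sr + mu < a^2 n / 4 + a^2 n / 8`, so `sb - St >= 5 a^2 n / 8`; `rho` and `av / sb <= St / sb` are in `[0, 1]`, so the
 left side is at most `1 <= 2 (sb - St) / (a^2 n)`.
(2) With `sb0 = q * (n - T0)`: `|av i / sb i - av i / sb0| <= mu / sb0 <= mu / (a^2 n)`, since
 `1/sb i - 1/sb0 = q (tau i - T0) / (sb i * sb0)` and `av i * q / sb i <= 1` (`av i <= p i`).
(3) `q / sb0 = 1 / (n - T0)` and `H2`: `|∑ av i / sb0 - ∑ u i / (n - T0)| <= e / (a^2 n)`.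
(4) `|∑ u i / (n - T0) - mu x / (n - T0)| <= mu * mu / (n - T0) <= mu^2 / (a n) <= mu^2 / (a^2 n)`.
Sum: `(4 e + 2 mu^2 + mu^2 + e + mu^2) / (a^2 n)`.
-/

set_option autoImplicit false

namespace Pool.Agent.H61.KA

open Finset

/-- (L1) -/
theorem lineNum_l1 {ι : Type*} (I : Finset ι) (e q : ℝ) (p St : ι → ℝ)
    (H1 : ∀ J ⊆ I, |∑ i ∈ J, St i - q * ∑ i ∈ J, p i| ≤ e) :
    ∑ i ∈ I, |St i - q * p i| ≤ 2 * e := by
  classical
  have h1 := H1 (I.filter fun i => q * p i ≤ St i) (Finset.filter_subset _ _)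
  have h2 := H1 (I.filter fun i => ¬ q * p i ≤ St i) (Finset.filter_subset _ _)
  rw [Finset.mul_sum, ← Finset.sum_sub_distrib] at h1 h2
  rw [← Finset.sum_filter_add_sum_filter_not I (fun i => q * p i ≤ St i)]
  have e1 : ∑ i ∈ I.filter (fun i => q * p i ≤ St i), |St i - q * p i| =
      ∑ i ∈ I.filter (fun i => q * p i ≤ St i), (St i - q * p i) := by
    refine Finset.sum_congr rfl fun i hi => ?_
    have := (Finset.mem_filter.1 hi).2
    exact abs_of_nonneg (by linarith)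
  have e2 : ∑ i ∈ I.filter (fun i => ¬ q * p i ≤ St i), |St i - q * p i| =
      - ∑ i ∈ I.filter (fun i => ¬ q * p i ≤ St i), (St i - q * p i) := by
    rw [← Finset.sum_neg_distrib]
    refine Finset.sum_congr rfl fun i hi => ?_
    have := (Finset.mem_filter.1 hi).2
    exact abs_of_nonpos (by linarith)
  rw [e1, e2]
  have := (abs_le.1 h1).2
  have := (abs_le.1 h2).1
  linarith

/-- (1) -/
theorem lineNum_one {W mu Sr St sb av b u p rho : ℝ} (hW : 0 < W) (hmu0 : 0 ≤ mu)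
    (hmu : mu ≤ W / 8) (hsb : W ≤ sb) (hp : 0 < p)
    (hb0 : 0 ≤ b) (hba : b ≤ av) (hab : av ≤ b + mu) (hbS : b ≤ Sr) (hSS : Sr ≤ St)
    (hSt : St ≤ Sr + mu) (haS : av ≤ St) (hau : av ≤ u) (hup : u ≤ p)
    (hrho : (W / 4 ≤ Sr ∧ rho = b / Sr) ∨ (Sr < W / 4 ∧ rho = u / p)) :
    |rho - av / sb| ≤ (2 * |St - sb| + 2 * mu) / W := by
  have hsb0 : 0 < sb := by linarith
  rcases hrho with ⟨h1, h2⟩ | ⟨h1, h2⟩
  · have hSr : 0 < Sr := by linarith
    have e1 : rho - av / sb = b / Sr * ((sb - Sr) / sb) + (b - av) / sb := by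
      rw [h2]
      field_simp
      ring
    rw [e1]
    have h3 : |b / Sr * ((sb - Sr) / sb)| ≤ (|St - sb| + mu) / W := by
      rw [abs_mul]
      have h4 : |b / Sr| ≤ 1 := by
        rw [abs_of_nonneg (by positivity), div_le_one hSr]
        exact hbS
      have h5 : |(sb - Sr) / sb| ≤ (|St - sb| + mu) / W := by
        rw [abs_div, abs_of_pos hsb0]
        have h6 : |sb - Sr| ≤ |St - sb| + mu := by
          have h7 : sb - Sr = -(St - sb) + (St - Sr) := by ring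
          rw [h7]
          refine (abs_add_le _ _).trans ?_
          rw [abs_neg, abs_of_nonneg (by linarith : (0 : ℝ) ≤ St - Sr)]
          linarith
        exact div_le_div₀ (by positivity) h6 hW hsb
      calc |b / Sr| * |(sb - Sr) / sb| ≤ 1 * ((|St - sb| + mu) / W) :=
            mul_le_mul h4 h5 (abs_nonneg _) zero_le_one
        _ = _ := one_mul _
    have h8 : |(b - av) / sb| ≤ mu / W := by
      rw [abs_div, abs_of_pos hsb0, abs_of_nonpos (by linarith)]
      exact div_le_div₀ hmu0 (by linarith) hW hsb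
    refine (abs_add_le _ _).trans ?_
    have h9 : (|St - sb| + mu) / W + mu / W ≤ (2 * |St - sb| + 2 * mu) / W := by
      rw [← add_div]
      refine div_le_div_of_nonneg_right ?_ hW.le
      have := abs_nonneg (St - sb)
      linarith
    linarith
  · have hu0 : 0 ≤ u := by linarith
    have h3 : 5 / 8 * W ≤ sb - St := by linarith
    have h4 : |rho - av / sb| ≤ 1 := by
      have h5 : 0 ≤ rho := by rw [h2]; positivity
      have h6 : rho ≤ 1 := by rw [h2, div_le_one hp]; exact hup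
      have h7 : 0 ≤ av / sb := div_nonneg (by linarith) hsb0.le
      have h8 : av / sb ≤ 1 := by rw [div_le_one hsb0]; linarith
      rw [abs_le]
      constructor <;> linarith
    refine h4.trans ?_
    rw [le_div_iff₀ hW, abs_of_nonpos (by linarith)]
    linarith

theorem line_num {ι : Type*} (I : Finset ι) (a n x e T0 : ℝ) (mu : ℕ)
    (p St Sr av b u tau rho : ι → ℝ) (ha : 0 < a) (ha1 : a ≤ 1) (hn : 0 < n) (hcard : I.card = mu)
    (hmu : (mu : ℝ) ≤ a ^ 2 * n / 8) (hT0 : 0 ≤ T0) (hanT : a * n ≤ n - T0)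
    (hp : ∀ i ∈ I, p i = n - tau i) (htau : ∀ i ∈ I, T0 ≤ tau i) (htau' : ∀ i ∈ I, tau i ≤ T0 + mu)
    (han : ∀ i ∈ I, a * n ≤ n - tau i) (hb0 : ∀ i ∈ I, 0 ≤ b i) (hba : ∀ i ∈ I, b i ≤ av i)
    (hab : ∀ i ∈ I, av i ≤ b i + mu) (hbS : ∀ i ∈ I, b i ≤ Sr i) (hSS : ∀ i ∈ I, Sr i ≤ St i)
    (hSt : ∀ i ∈ I, St i ≤ Sr i + mu) (haS : ∀ i ∈ I, av i ≤ St i) (hau : ∀ i ∈ I, av i ≤ u i)
    (hup : ∀ i ∈ I, u i ≤ p i) (hxu : ∀ i ∈ I, x - mu ≤ u i) (hux : ∀ i ∈ I, u i ≤ x)
    (hrho : ∀ i ∈ I, (a ^ 2 * n / 4 ≤ Sr i ∧ rho i = b i / Sr i) ∨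
      (Sr i < a ^ 2 * n / 4 ∧ rho i = u i / p i))
    (H1 : ∀ J ⊆ I, |∑ i ∈ J, St i - (1 - T0 / n) * ∑ i ∈ J, p i| ≤ e)
    (H2 : |∑ i ∈ I, av i - (1 - T0 / n) * ∑ i ∈ I, u i| ≤ e) :
    |∑ i ∈ I, rho i - mu * x / (n - T0)| ≤ (5 * e + 4 * (mu : ℝ) ^ 2) / (a ^ 2 * n) := by
  set W : ℝ := a ^ 2 * n with hWdef
  set q : ℝ := 1 - T0 / n with hq
  have hW : 0 < W := by positivity
  have hmu0 : (0 : ℝ) ≤ mu := Nat.cast_nonneg _
  have hnT : 0 < n - T0 := lt_of_lt_of_le (by positivity) hanT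
  have hqa : a ≤ q := by
    have h1 : q = (n - T0) / n := by rw [hq]; field_simp
    rw [h1, le_div_iff₀ hn]
    exact hanT
  have hq0 : 0 < q := by linarith
  have hqn : q * n = n - T0 := by
    rw [hq]
    field_simp
  have he : 0 ≤ e := (abs_nonneg _).trans H2
  have hp0 : ∀ i ∈ I, 0 < p i := by
    intro i hi
    rw [hp i hi]
    exact lt_of_lt_of_le (by positivity) (han i hi)
  have hsb : ∀ i ∈ I, W ≤ q * p i := by
    intro i hi
    have h1 : a * n ≤ p i := by rw [hp i hi]; exact han i hi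
    calc W = a * (a * n) := by rw [hWdef]; ring
      _ ≤ q * p i := mul_le_mul hqa h1 (by positivity) hq0.le
  have hL1 := lineNum_l1 I e q p St H1
  -- (1)
  have h1 : ∀ i ∈ I, |rho i - av i / (q * p i)| ≤ (2 * |St i - q * p i| + 2 * mu) / W :=
    fun i hi => lineNum_one hW hmu0 hmu (hsb i hi) (hp0 i hi) (hb0 i hi) (hba i hi) (hab i hi)
      (hbS i hi) (hSS i hi) (hSt i hi) (haS i hi) (hau i hi) (hup i hi) (hrho i hi)
  -- (2)
  have hWT : W ≤ q * (n - T0) := by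
    calc W = a * (a * n) := by rw [hWdef]; ring
      _ ≤ q * (n - T0) := mul_le_mul hqa hanT (by positivity) hq0.le
  have hsb0 : 0 < q * (n - T0) := by linarith
  have h2 : ∀ i ∈ I, |av i / (q * p i) - av i / (q * (n - T0))| ≤ mu / W := by
    intro i hi
    have hsbi : 0 < q * p i := lt_of_lt_of_le hW (hsb i hi)
    have hav0 : 0 ≤ av i := (hb0 i hi).trans (hba i hi)
    have e1 : av i / (q * p i) - av i / (q * (n - T0)) =
        (av i / p i) * ((tau i - T0) / (q * (n - T0))) := by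
      have hpi := (hp0 i hi).ne'
      have hnT' := hnT.ne'
      have h3 : tau i - T0 = (n - T0) - p i := by rw [hp i hi]; ring
      rw [h3]
      field_simp
    rw [e1, abs_mul]
    have h3 : |av i / p i| ≤ 1 := by
      rw [abs_of_nonneg (div_nonneg hav0 (hp0 i hi).le), div_le_one (hp0 i hi)]
      exact (hau i hi).trans (hup i hi)
    have h4 : |(tau i - T0) / (q * (n - T0))| ≤ mu / W := by
      have h5 := htau i hi
      have h6 := htau' i hi
      rw [abs_of_nonneg (div_nonneg (by linarith) hsb0.le)]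
      exact div_le_div₀ hmu0 (by linarith) hW hWT
    calc |av i / p i| * |(tau i - T0) / (q * (n - T0))| ≤ 1 * (mu / W) :=
          mul_le_mul h3 h4 (abs_nonneg _) zero_le_one
      _ = _ := one_mul _
  -- (3)
  have h3 : |(∑ i ∈ I, av i) / (q * (n - T0)) - (∑ i ∈ I, u i) / (n - T0)| ≤ e / W := by
    have e1 : (∑ i ∈ I, av i) / (q * (n - T0)) - (∑ i ∈ I, u i) / (n - T0) =
        (∑ i ∈ I, av i - q * ∑ i ∈ I, u i) / (q * (n - T0)) := by
      have hnT' := hnT.ne'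
      have hq' := hq0.ne'
      field_simp
    rw [e1, abs_div, abs_of_pos hsb0]
    exact div_le_div₀ he H2 hW hWT
  -- (4)
  have hcr : (I.card : ℝ) = mu := by exact_mod_cast hcard
  have h4 : |(∑ i ∈ I, u i) / (n - T0) - mu * x / (n - T0)| ≤ (mu : ℝ) ^ 2 / W := by
    rw [← sub_div, abs_div, abs_of_pos hnT]
    have e1 : ∑ i ∈ I, u i - mu * x = ∑ i ∈ I, (u i - x) := by
      rw [Finset.sum_sub_distrib, Finset.sum_const, nsmul_eq_mul, hcr]
    rw [e1]
    have e2 : |∑ i ∈ I, (u i - x)| ≤ (mu : ℝ) ^ 2 := by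
      refine (Finset.abs_sum_le_sum_abs _ _).trans ?_
      calc ∑ i ∈ I, |u i - x| ≤ ∑ _i ∈ I, (mu : ℝ) := by
            refine Finset.sum_le_sum fun i hi => ?_
            have := hxu i hi
            have := hux i hi
            rw [abs_le]
            constructor <;> linarith
        _ = (mu : ℝ) ^ 2 := by rw [Finset.sum_const, nsmul_eq_mul, hcr]; ring
    have e3 : W ≤ n - T0 := by
      refine le_trans ?_ hanT
      have : W = a * (a * n) := by rw [hWdef]; ring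
      rw [this]
      have : 0 < a * n := by positivity
      nlinarith
    exact div_le_div₀ (by positivity) e2 hW e3
  have h5 : |∑ i ∈ I, rho i - ∑ i ∈ I, av i / (q * p i)| ≤ (4 * e + 2 * (mu : ℝ) ^ 2) / W := by
    rw [← Finset.sum_sub_distrib]
    refine (Finset.abs_sum_le_sum_abs _ _).trans ((Finset.sum_le_sum h1).trans ?_)
    rw [← Finset.sum_div]
    refine div_le_div_of_nonneg_right ?_ hW.le
    rw [Finset.sum_add_distrib, ← Finset.mul_sum, Finset.sum_const, nsmul_eq_mul, hcr]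
    nlinarith
  have h6 : |∑ i ∈ I, av i / (q * p i) - (∑ i ∈ I, av i) / (q * (n - T0))| ≤
      (mu : ℝ) ^ 2 / W := by
    rw [Finset.sum_div, ← Finset.sum_sub_distrib]
    refine (Finset.abs_sum_le_sum_abs _ _).trans ((Finset.sum_le_sum h2).trans ?_)
    rw [Finset.sum_const, nsmul_eq_mul, hcr]
    refine le_of_eq ?_
    ring
  have e1 : ∑ i ∈ I, rho i - mu * x / (n - T0) =
      (∑ i ∈ I, rho i - ∑ i ∈ I, av i / (q * p i)) +
      (∑ i ∈ I, av i / (q * p i) - (∑ i ∈ I, av i) / (q * (n - T0))) +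
      ((∑ i ∈ I, av i) / (q * (n - T0)) - (∑ i ∈ I, u i) / (n - T0)) +
      ((∑ i ∈ I, u i) / (n - T0) - mu * x / (n - T0)) := by ring
  rw [e1]
  have e2 : (5 * e + 4 * (mu : ℝ) ^ 2) / W = (4 * e + 2 * (mu : ℝ) ^ 2) / W + (mu : ℝ) ^ 2 / W +
      e / W + (mu : ℝ) ^ 2 / W := by ring
  rw [e2]
  refine (abs_add_le _ _).trans (add_le_add ((abs_add_le _ _).trans (add_le_add
    ((abs_add_le _ _).trans (add_le_add h5 h6)) h3)) h4)

end Pool.Agent.H61.KA
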