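import Pool.Agent.H61.KA.Basic
import Pool.Agent.H61.KA.LineNum

/-!
# KA-06. One line during one round

`Bd S c mu T e`: at time `T` all tests with at most `mu` slots are within `e` of their expected value.
`line`: fix the line `l`, the slot `u` and the set `V`, and the round `I = {s : Fin m | T0 <= s < T0 + mu}` (`mu` elements).
Apply `line_num` with, for `s ∈ I`:
 `p s = (own S c l s).card = n - s`, `tau s = s`, `Sr s = (own l s ∩ own (ptn l s) s).card`,
 `St s = (own l s ∩ alive (ptn l s) T0 s).card`, `U s = hit S c l s u V`, `u s = (U s).card = (alive l s u ∩ V).card` (`hit_card`),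
 `av s = (U s ∩ alive (ptn l s) T0 s).card`, `b s = (U s ∩ own (ptn l s) s).card`, `x = (alive l T0 u ∩ V).card`.
 Here `own (ptn l s) s = alive (ptn l s) s s ⊆ alive (ptn l s) T0 s` (`alive_anti`) with at most `mu` fewer elements (`card_alive`);
 also `alive l s u ⊆ alive l T0 u` with at most `mu` fewer elements.
 `H1`: the hypothesis for the test `w = (l, (false, hist c l, u, univ, J))`: for `s ∈ J`, `fam w s = own S c l s`
 (`alive`/`own` unfold to `(S l).A (hist c l) s s`), for `s ∉ J` it is empty; `X w T0 = ∑_J St`, `F w = ∑_J p`, `J.card <= mu`.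
 `H2`: the test `(l, (false, hist c l, u, V, I))`: `fam w s = hit S c l s u V`.
-/

set_option autoImplicit false

namespace Pool.Agent.H61.KA

open Finset

variable {n m : ℕ}

/-- All tests with at most `mu` slots have almost the expected value at time `T`. -/
def Bd (S : Ln m → DS n m) (c : Pth n m) (mu T : ℕ) (e : ℝ) : Prop :=
  ∀ w : Ln m × Idx n m, w.2.2.2.2.2.card ≤ mu → |X S c w T - (1 - (T : ℝ) / n) * F S w| ≤ e

/-- The times of a round. -/
def rnd (m T0 mu : ℕ) : Finset (Fin m) := univ.filter fun s : Fin m => T0 ≤ (s : ℕ) ∧ (s : ℕ) < T0 + mu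

theorem line_mem_rnd {m T0 mu : ℕ} {s : Fin m} :
    s ∈ rnd m T0 mu ↔ T0 ≤ (s : ℕ) ∧ (s : ℕ) < T0 + mu := by
  unfold rnd
  rw [mem_filter]
  exact ⟨fun h => h.2, fun h => ⟨mem_univ _, h⟩⟩

theorem card_rnd {m T0 mu : ℕ} (h : T0 + mu ≤ m) : (rnd m T0 mu).card = mu := by
  have h1 : (rnd m T0 mu).map Fin.valEmbedding = Finset.Ico T0 (T0 + mu) := by
    ext k
    rw [mem_map, mem_Ico]
    constructor
    · rintro ⟨s, hs, rfl⟩
      exact line_mem_rnd.1 hs
    · intro hk
      exact ⟨⟨k, by omega⟩, line_mem_rnd.2 hk, rfl⟩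
  rw [← card_map Fin.valEmbedding, h1, Nat.card_Ico]
  omega

theorem line_inter_card {α : Type*} [DecidableEq α] (U A A' : Finset α) (k : ℕ)
    (hsub : A ⊆ A') (h : A'.card ≤ A.card + k) : (U ∩ A').card ≤ (U ∩ A).card + k := by
  have h1 : U ∩ A' ⊆ (U ∩ A) ∪ (A' \ A) := by
    intro z hz
    rw [mem_inter] at hz
    rw [mem_union, mem_inter, mem_sdiff]
    by_cases hA : z ∈ A
    · exact Or.inl ⟨hz.1, hA⟩
    · exact Or.inr ⟨hz.2, hA⟩
  have h2 : (A' \ A).card = A'.card - A.card := card_sdiff_of_subset hsub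
  have h3 := card_le_card h1
  have h4 := card_union_le (U ∩ A) (A' \ A)
  omega

theorem line_fam (S : Ln m → DS n m) (c : Pth n m) (l : Ln m) (u : Fin m) (V : Finset (Fin n))
    (J : Finset (Fin m)) (t : Fin m) :
    fam S (l, (false, hist c l, u, V, J)) t = if t ∈ J then hit S c l t u V else ∅ := by
  unfold fam hit own alive
  simp

theorem line_X (S : Ln m → DS n m) (c : Pth n m) (l : Ln m) (u : Fin m) (V : Finset (Fin n))
    (J : Finset (Fin m)) (T : ℕ) :
    X S c (l, (false, hist c l, u, V, J)) T =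
      ∑ s ∈ J, ((hit S c l s u V ∩ alive S c (ptn l s) T s).card : ℝ) := by
  unfold X
  rw [← Finset.sum_filter_add_sum_filter_not univ (fun t => t ∈ J)]
  have h1 : ∑ t ∈ univ.filter (fun t => ¬ t ∈ J),
      ((alive S c (ptn (l, (false, hist c l, u, V, J)).1 t) T t ∩
        fam S (l, (false, hist c l, u, V, J)) t).card : ℝ) = 0 := by
    refine sum_eq_zero fun t ht => ?_
    rw [mem_filter] at ht
    rw [line_fam, if_neg ht.2, inter_empty, card_empty, Nat.cast_zero]
  rw [h1, add_zero, filter_mem_eq_inter, univ_inter]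
  refine sum_congr rfl fun t ht => ?_
  rw [line_fam, if_pos ht, inter_comm]

theorem line_F (S : Ln m → DS n m) (c : Pth n m) (l : Ln m) (u : Fin m) (V : Finset (Fin n))
    (J : Finset (Fin m)) :
    F S (l, (false, hist c l, u, V, J)) = ∑ s ∈ J, ((hit S c l s u V).card : ℝ) := by
  unfold F
  rw [← Finset.sum_filter_add_sum_filter_not univ (fun t => t ∈ J)]
  have h1 : ∑ t ∈ univ.filter (fun t => ¬ t ∈ J),
      ((fam S (l, (false, hist c l, u, V, J)) t).card : ℝ) = 0 := by
    refine sum_eq_zero fun t ht => ?_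
    rw [mem_filter] at ht
    rw [line_fam, if_neg ht.2, card_empty, Nat.cast_zero]
  rw [h1, add_zero, filter_mem_eq_inter, univ_inter]
  refine sum_congr rfl fun t ht => ?_
  rw [line_fam, if_pos ht]

theorem line_hit_univ (S : Ln m → DS n m) (c : Pth n m) (l : Ln m) (s u : Fin m) :
    hit S c l s u univ = own S c l s := by
  unfold hit
  simp

theorem line {a : ℝ} (ha : 0 < a) (ha1 : a ≤ 1) {S : Ln m → DS n m} {c : Pth n m} (mu T0 : ℕ)
    (hT : T0 + mu ≤ m) (hv : Valid a S c (T0 + mu)) (hmu : (mu : ℝ) ≤ a ^ 2 * n / 8)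
    (hnm : a * n ≤ (n : ℝ) - m) (hn : 0 < n) (e : ℝ) (hE : Bd S c mu T0 e) (l : Ln m) (u : Fin m)
    (V : Finset (Fin n)) :
    |∑ s ∈ rnd m T0 mu, rho a (own S c l s) (own S c (ptn l s) s) (hit S c l s u V) -
        mu * ((alive S c l T0 u ∩ V).card : ℝ) / ((n : ℝ) - T0)| ≤
      (5 * e + 4 * (mu : ℝ) ^ 2) / (a ^ 2 * n) := by
  have hT0m : (T0 : ℝ) ≤ m := by exact_mod_cast (by omega : T0 ≤ m)
  have hsT : ∀ s ∈ rnd m T0 mu, T0 ≤ (s : ℕ) := fun s hs => (line_mem_rnd.1 hs).1
  have hsT' : ∀ s ∈ rnd m T0 mu, (s : ℕ) ≤ T0 + mu := fun s hs => (line_mem_rnd.1 hs).2.le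
  have hsm : ∀ s : Fin m, (s : ℕ) ≤ m := fun s => s.2.le
  -- sizes
  have hown : ∀ (l : Ln m) (s : Fin m), s ∈ rnd m T0 mu → (own S c l s).card + (s : ℕ) = n :=
    fun l s hs => card_alive hv l s s (hsT' s hs) (hsm s)
  have hal0 : ∀ (l : Ln m) (v : Fin m), (alive S c l T0 v).card + T0 = n :=
    fun l v => card_alive hv l T0 v (by omega) (by omega)
  have hals : ∀ (l : Ln m) (s v : Fin m), s ∈ rnd m T0 mu → (alive S c l s v).card + (s : ℕ) = n :=
    fun l s v hs => card_alive hv l s v (hsT' s hs) (hsm s)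
  have hsub : ∀ (l : Ln m) (s v : Fin m), s ∈ rnd m T0 mu → alive S c l s v ⊆ alive S c l T0 v :=
    fun l s v hs => alive_anti hv l T0 s v (hsT s hs) (hsT' s hs) (hsm s)
  have hsubp : ∀ s ∈ rnd m T0 mu, own S c (ptn l s) s ⊆ alive S c (ptn l s) T0 s :=
    fun s hs => hsub (ptn l s) s s hs
  have hfew : ∀ s ∈ rnd m T0 mu,
      (alive S c (ptn l s) T0 s).card ≤ (own S c (ptn l s) s).card + mu := by
    intro s hs
    have h1 := hown (ptn l s) s hs
    have h2 := hal0 (ptn l s) s
    have h3 := hsT' s hs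
    omega
  have hfew' : ∀ s ∈ rnd m T0 mu, (alive S c l T0 u).card ≤ (alive S c l s u).card + mu := by
    intro s hs
    have h1 := hals l s u hs
    have h2 := hal0 l u
    have h3 := hsT' s hs
    omega
  have key := line_num (rnd m T0 mu) a n ((alive S c l T0 u ∩ V).card : ℝ) e T0 mu
    (fun s => ((own S c l s).card : ℝ))
    (fun s => ((own S c l s ∩ alive S c (ptn l s) T0 s).card : ℝ))
    (fun s => ((own S c l s ∩ own S c (ptn l s) s).card : ℝ))
    (fun s => ((hit S c l s u V ∩ alive S c (ptn l s) T0 s).card : ℝ))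
    (fun s => ((hit S c l s u V ∩ own S c (ptn l s) s).card : ℝ))
    (fun s => ((hit S c l s u V).card : ℝ))
    (fun s => ((s : ℕ) : ℝ))
    (fun s => rho a (own S c l s) (own S c (ptn l s) s) (hit S c l s u V))
    ha ha1 (by exact_mod_cast hn) (card_rnd hT) hmu (Nat.cast_nonneg _) (by linarith)
    ?_ ?_ ?_ ?_ ?_ ?_ ?_ ?_ ?_ ?_ ?_ ?_ ?_ ?_ ?_ ?_ ?_ ?_
  · exact key
  · intro s hs
    have h1 := hown l s hs
    have h2 : ((own S c l s).card : ℝ) + ((s : ℕ) : ℝ) = n := by exact_mod_cast h1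
    show ((own S c l s).card : ℝ) = n - ((s : ℕ) : ℝ)
    linarith
  · intro s hs
    show (T0 : ℝ) ≤ ((s : ℕ) : ℝ)
    exact_mod_cast hsT s hs
  · intro s hs
    show ((s : ℕ) : ℝ) ≤ T0 + mu
    exact_mod_cast hsT' s hs
  · intro s hs
    show a * n ≤ n - ((s : ℕ) : ℝ)
    have h1 : ((s : ℕ) : ℝ) ≤ m := by exact_mod_cast hsm s
    linarith
  · intro s _
    exact Nat.cast_nonneg _
  · intro s hs
    show ((hit S c l s u V ∩ own S c (ptn l s) s).card : ℝ) ≤
      ((hit S c l s u V ∩ alive S c (ptn l s) T0 s).card : ℝ)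
    exact_mod_cast card_le_card (inter_subset_inter_left (hsubp s hs))
  · intro s hs
    show ((hit S c l s u V ∩ alive S c (ptn l s) T0 s).card : ℝ) ≤
      ((hit S c l s u V ∩ own S c (ptn l s) s).card : ℝ) + mu
    exact_mod_cast line_inter_card _ _ _ _ (hsubp s hs) (hfew s hs)
  · intro s _
    show ((hit S c l s u V ∩ own S c (ptn l s) s).card : ℝ) ≤
      ((own S c l s ∩ own S c (ptn l s) s).card : ℝ)
    exact_mod_cast card_le_card (inter_subset_inter_right (hit_subset S c l s u V))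
  · intro s hs
    show ((own S c l s ∩ own S c (ptn l s) s).card : ℝ) ≤
      ((own S c l s ∩ alive S c (ptn l s) T0 s).card : ℝ)
    exact_mod_cast card_le_card (inter_subset_inter_left (hsubp s hs))
  · intro s hs
    show ((own S c l s ∩ alive S c (ptn l s) T0 s).card : ℝ) ≤
      ((own S c l s ∩ own S c (ptn l s) s).card : ℝ) + mu
    exact_mod_cast line_inter_card _ _ _ _ (hsubp s hs) (hfew s hs)
  · intro s _
    show ((hit S c l s u V ∩ alive S c (ptn l s) T0 s).card : ℝ) ≤
      ((own S c l s ∩ alive S c (ptn l s) T0 s).card : ℝ)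
    exact_mod_cast card_le_card (inter_subset_inter_right (hit_subset S c l s u V))
  · intro s _
    show ((hit S c l s u V ∩ alive S c (ptn l s) T0 s).card : ℝ) ≤ ((hit S c l s u V).card : ℝ)
    exact_mod_cast card_le_card inter_subset_left
  · intro s _
    show ((hit S c l s u V).card : ℝ) ≤ ((own S c l s).card : ℝ)
    exact_mod_cast card_le_card (hit_subset S c l s u V)
  · intro s hs
    show ((alive S c l T0 u ∩ V).card : ℝ) - mu ≤ ((hit S c l s u V).card : ℝ)
    rw [hit_card hv l s u (hsT' s hs) V]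
    have h1 := line_inter_card V _ _ mu (hsub l s u hs) (hfew' s hs)
    rw [inter_comm V, inter_comm V] at h1
    have h2 : ((alive S c l T0 u ∩ V).card : ℝ) ≤ ((alive S c l s u ∩ V).card : ℝ) + mu := by
      exact_mod_cast h1
    linarith
  · intro s hs
    show ((hit S c l s u V).card : ℝ) ≤ ((alive S c l T0 u ∩ V).card : ℝ)
    rw [hit_card hv l s u (hsT' s hs) V]
    exact_mod_cast card_le_card (inter_subset_inter_right (hsub l s u hs))
  · intro s _
    by_cases hg : Good a n (own S c l s) (own S c (ptn l s) s)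
    · left
      refine ⟨hg, ?_⟩
      show rho a (own S c l s) (own S c (ptn l s) s) (hit S c l s u V) = _
      unfold rho
      rw [if_pos hg]
    · right
      refine ⟨lt_of_not_ge hg, ?_⟩
      show rho a (own S c l s) (own S c (ptn l s) s) (hit S c l s u V) = _
      unfold rho
      rw [if_neg hg]
  · intro J hJ
    have h1 := hE (l, (false, hist c l, u, univ, J)) (by
      show J.card ≤ mu
      exact (card_le_card hJ).trans (card_rnd hT).le)
    rw [line_X, line_F] at h1
    simp only [line_hit_univ] at h1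
    exact h1
  · have h1 := hE (l, (false, hist c l, u, V, rnd m T0 mu)) (by
      show (rnd m T0 mu).card ≤ mu
      exact (card_rnd hT).le)
    rw [line_X, line_F] at h1
    exact h1

end Pool.Agent.H61.KA
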