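import Mathlib

/-!
# KA-10. Derandomised Azuma inequality, one step

Average the left side over `v` in `Fintype.piFinset C`. `exp (theta ∑_i z w i (v i)) = ∏_i exp (theta z w i (v i))`, and
`∑_{v ∈ piFinset C} ∏_i f i (v i) = ∏_i ∑_{x ∈ C i} f i x` (`Finset.prod_univ_sum`). For `|y| <= 1`: `exp y <= 1 + y + y^2`
(`Real.abs_exp_sub_one_sub_id_le`), so `∑_{x ∈ C i} exp (theta z) <= (C i).card (1 + theta^2) <= (C i).card exp (theta^2)`.
So the average is at most `exp (theta^2 card I) ∑ Phi w`, and some `v` is at most the average.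
-/

set_option autoImplicit false

namespace Pool.Agent.H61.KA

open Finset

theorem super_one {γ : Type*} (theta : ℝ) (h0 : 0 ≤ theta) (h1 : theta ≤ 1) (C : Finset γ)
    (z : γ → ℝ) (hz : ∀ v, |z v| ≤ 1) (hz0 : ∑ v ∈ C, z v = 0) :
    ∑ v ∈ C, Real.exp (theta * z v) ≤ C.card * Real.exp (theta ^ 2) := by
  have h : ∀ v ∈ C, Real.exp (theta * z v) ≤ (1 + theta ^ 2) + theta * z v := by
    intro v _
    have hy : |theta * z v| ≤ 1 := by
      rw [abs_mul, abs_of_nonneg h0]
      calc theta * |z v| ≤ 1 * 1 := mul_le_mul h1 (hz v) (abs_nonneg _) zero_le_one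
        _ = 1 := one_mul 1
    have h2 := (abs_le.1 (Real.abs_exp_sub_one_sub_id_le hy)).2
    have h3 : z v ^ 2 ≤ 1 := by
      rw [← sq_abs]
      exact pow_le_one₀ (abs_nonneg _) (hz v)
    have h4 : (theta * z v) ^ 2 ≤ theta ^ 2 := by
      rw [mul_pow]
      calc theta ^ 2 * z v ^ 2 ≤ theta ^ 2 * 1 := mul_le_mul_of_nonneg_left h3 (sq_nonneg _)
        _ = theta ^ 2 := mul_one _
    linarith
  calc ∑ v ∈ C, Real.exp (theta * z v) ≤ ∑ v ∈ C, ((1 + theta ^ 2) + theta * z v) :=
        sum_le_sum h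
    _ = C.card * (1 + theta ^ 2) := by
        rw [sum_add_distrib, ← mul_sum, hz0, mul_zero, add_zero, sum_const, nsmul_eq_mul]
    _ ≤ C.card * Real.exp (theta ^ 2) := by
        refine mul_le_mul_of_nonneg_left ?_ (Nat.cast_nonneg _)
        have := Real.add_one_le_exp (theta ^ 2)
        linarith

theorem super {I γ Om : Type*} [Fintype I] [DecidableEq I] [Fintype Om] (theta : ℝ)
    (h0 : 0 ≤ theta) (h1 : theta ≤ 1) (C : I → Finset γ) (hC : ∀ i, (C i).Nonempty)
    (z : Om → I → γ → ℝ) (hz : ∀ w i v, |z w i v| ≤ 1) (hz0 : ∀ w i, ∑ v ∈ C i, z w i v = 0)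
    (Phi : Om → ℝ) (hPhi : ∀ w, 0 ≤ Phi w) :
    ∃ v : I → γ, (∀ i, v i ∈ C i) ∧
      ∑ w, Phi w * Real.exp (theta * ∑ i, z w i (v i)) ≤
        Real.exp (theta ^ 2 * Fintype.card I) * ∑ w, Phi w := by
  classical
  have hne : (Fintype.piFinset C).Nonempty := Fintype.piFinset_nonempty.2 hC
  have hsum : ∑ v ∈ Fintype.piFinset C, ∑ w, Phi w * Real.exp (theta * ∑ i, z w i (v i)) ≤
      ∑ _v ∈ Fintype.piFinset C, Real.exp (theta ^ 2 * Fintype.card I) * ∑ w, Phi w := by
    rw [sum_comm]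
    have h2 : ∀ w, ∑ v ∈ Fintype.piFinset C, Phi w * Real.exp (theta * ∑ i, z w i (v i)) ≤
        Phi w * (((Fintype.piFinset C).card : ℝ) * Real.exp (theta ^ 2 * Fintype.card I)) := by
      intro w
      rw [← mul_sum]
      refine mul_le_mul_of_nonneg_left ?_ (hPhi w)
      have h3 : ∀ v ∈ Fintype.piFinset C, Real.exp (theta * ∑ i, z w i (v i)) =
          ∏ i, Real.exp (theta * z w i (v i)) := by
        intro v _
        rw [mul_sum, Real.exp_sum]
      rw [sum_congr rfl h3, ← Finset.prod_univ_sum (f := fun i x => Real.exp (theta * z w i x))]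
      calc ∏ i, ∑ x ∈ C i, Real.exp (theta * z w i x) ≤
            ∏ i, (((C i).card : ℝ) * Real.exp (theta ^ 2)) := by
            refine prod_le_prod (fun i _ => sum_nonneg fun x _ => (Real.exp_pos _).le) ?_
            intro i _
            exact super_one theta h0 h1 (C i) (z w i) (hz w i) (hz0 w i)
        _ = ((Fintype.piFinset C).card : ℝ) * Real.exp (theta ^ 2 * Fintype.card I) := by
            rw [prod_mul_distrib, Fintype.card_piFinset, prod_const, card_univ, Nat.cast_prod,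
              ← Real.exp_nat_mul, mul_comm (Fintype.card I : ℝ)]
    refine (sum_le_sum fun w _ => h2 w).trans (le_of_eq ?_)
    rw [← sum_mul, sum_const, nsmul_eq_mul]
    ring
  obtain ⟨v, hv, hle⟩ := exists_le_of_sum_le hne hsum
  exact ⟨v, fun i => Fintype.mem_piFinset.1 hv i, hle⟩

end Pool.Agent.H61.KA
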