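import Pool.Agent.H61.KA.Defs
import Pool.Agent.H61.KA.Super

/-!
# KA-11. Derandomised Azuma inequality

By induction on `T <= N` there is a `c` which is valid before `T` and such that for all `T' <= T`
`∑_w (exp (theta L w T') + exp (- theta L w T')) <= 2 (card Om) exp (theta^2 (card I) T')`, where `L w T'` is the sum in the statement.
Step: apply `super` to the index type `Om x Bool` (weights `exp (± theta L w T)`, `z = ± (D - avg)`) at time `T` and put
`c' = Function.update c T v`; `L w T'` for `T' <= T` and validity before `T` are unchanged by `hCc`, `hDc` (they depend only on `c` before).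
Then `exp (theta |L w T|) <= 2 (card Om) exp (theta^2 (card I) T)`; take logarithms and divide by `theta`. (`card Om >= 1` as `w` exists;
start from any `c`, `γ` is nonempty.)
-/

set_option autoImplicit false

namespace Pool.Agent.H61.KA

open Finset

/-- The sum in the statement. -/
noncomputable def pathL {I γ Om : Type*} [Fintype I] (C : ℕ → (ℕ → I → γ) → I → Finset γ)
    (D : ℕ → (ℕ → I → γ) → Om → I → γ → ℝ) (c : ℕ → I → γ) (w : Om) (T : ℕ) : ℝ :=
  ∑ s ∈ range T, ∑ i, (D s c w i (c s i) - avg (C s c i) (D s c w i))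

theorem path_avg_mem {γ : Type*} (C : Finset γ) (f : γ → ℝ) (hf : ∀ v, 0 ≤ f v ∧ f v ≤ 1) :
    0 ≤ avg C f ∧ avg C f ≤ 1 := by
  unfold avg
  refine ⟨div_nonneg (sum_nonneg fun v _ => (hf v).1) (Nat.cast_nonneg _), ?_⟩
  refine div_le_one_of_le₀ ?_ (Nat.cast_nonneg _)
  calc ∑ v ∈ C, f v ≤ ∑ _v ∈ C, (1 : ℝ) := sum_le_sum fun v _ => (hf v).2
    _ = C.card := by simp

theorem path_avg_sum {γ : Type*} (C : Finset γ) (hC : C.Nonempty) (f : γ → ℝ) :
    ∑ v ∈ C, (f v - avg C f) = 0 := by
  have h : (C.card : ℝ) ≠ 0 := by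
    exact_mod_cast (card_pos.2 hC).ne'
  unfold avg
  rw [sum_sub_distrib, sum_const, nsmul_eq_mul]
  field_simp
  ring

theorem pathL_congr {I γ Om : Type*} [Fintype I] (N : ℕ) (C : ℕ → (ℕ → I → γ) → I → Finset γ)
    (D : ℕ → (ℕ → I → γ) → Om → I → γ → ℝ)
    (hCc : ∀ T, T < N → ∀ c c' : ℕ → I → γ, (∀ s, s < T → c s = c' s) → C T c = C T c')
    (hDc : ∀ T, T < N → ∀ c c' : ℕ → I → γ, (∀ s, s < T → c s = c' s) → D T c = D T c')
    (c c' : ℕ → I → γ) (w : Om) (T : ℕ) (hT : T ≤ N) (h : ∀ s, s < T → c s = c' s) :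
    pathL C D c w T = pathL C D c' w T := by
  unfold pathL
  refine sum_congr rfl fun s hs => ?_
  have hs' : s < T := mem_range.1 hs
  rw [hCc s (by omega) c c' (fun r hr => h r (by omega)),
    hDc s (by omega) c c' (fun r hr => h r (by omega)), h s hs']

theorem path_ind {I γ Om : Type*} [Fintype I] [Fintype Om] [Nonempty γ] (theta : ℝ)
    (h0 : 0 < theta) (h1 : theta ≤ 1) (N : ℕ) (C : ℕ → (ℕ → I → γ) → I → Finset γ)
    (D : ℕ → (ℕ → I → γ) → Om → I → γ → ℝ)
    (hCc : ∀ T, T < N → ∀ c c' : ℕ → I → γ, (∀ s, s < T → c s = c' s) → C T c = C T c')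
    (hDc : ∀ T, T < N → ∀ c c' : ℕ → I → γ, (∀ s, s < T → c s = c' s) → D T c = D T c')
    (hne : ∀ T, T < N → ∀ c : ℕ → I → γ, (∀ s, s < T → ∀ i, c s i ∈ C s c i) →
      ∀ i, (C T c i).Nonempty)
    (hD : ∀ T c w i v, 0 ≤ D T c w i v ∧ D T c w i v ≤ 1) (T : ℕ) (hT : T ≤ N) :
    ∃ c : ℕ → I → γ, (∀ s, s < T → ∀ i, c s i ∈ C s c i) ∧
      ∀ T', T' ≤ T → ∑ w, (Real.exp (theta * pathL C D c w T') +
        Real.exp (- (theta * pathL C D c w T'))) ≤
          2 * Fintype.card Om * Real.exp (theta ^ 2 * Fintype.card I * T') := by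
  classical
  induction T with
  | zero =>
    obtain ⟨a⟩ := (inferInstance : Nonempty γ)
    refine ⟨fun _ _ => a, fun s hs => absurd hs (Nat.not_lt_zero s), ?_⟩
    intro T' hT'
    have hT0 : T' = 0 := by omega
    subst hT0
    have h : ∀ w : Om, pathL C D (fun _ _ => a) w 0 = 0 := fun w => by simp [pathL]
    simp only [h, mul_zero, neg_zero, Real.exp_zero, Nat.cast_zero, mul_one, sum_const, card_univ,
      nsmul_eq_mul]
    linarith
  | succ T ih =>
    obtain ⟨c, hc, hL⟩ := ih (by omega)
    have hTN : T < N := by omega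
    have hneT := hne T hTN c hc
    obtain ⟨e, he⟩ : ∃ e : Bool → ℝ, e = fun b => if b then 1 else -1 := ⟨_, rfl⟩
    have he1 : e true = 1 := by rw [he]; simp
    have he2 : e false = -1 := by rw [he]; simp
    have heabs : ∀ b, |e b| = 1 := by
      intro b
      cases b
      · rw [he2]; simp
      · rw [he1]; simp
    have hz : ∀ (wb : Om × Bool) (i : I) (v : γ),
        |e wb.2 * (D T c wb.1 i v - avg (C T c i) (D T c wb.1 i))| ≤ 1 := by
      intro wb i v
      rw [abs_mul, heabs, one_mul, abs_le]
      have h2 := hD T c wb.1 i v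
      have h3 := path_avg_mem (C T c i) (D T c wb.1 i) (fun v => hD T c wb.1 i v)
      constructor
      · linarith [h2.1, h3.2]
      · linarith [h2.2, h3.1]
    have hz0 : ∀ (wb : Om × Bool) (i : I),
        ∑ v ∈ C T c i, e wb.2 * (D T c wb.1 i v - avg (C T c i) (D T c wb.1 i)) = 0 := by
      intro wb i
      rw [← mul_sum, path_avg_sum _ (hneT i), mul_zero]
    obtain ⟨v, hv, hsup⟩ := super theta h0.le h1 (C T c) hneT
      (fun (wb : Om × Bool) i v => e wb.2 * (D T c wb.1 i v - avg (C T c i) (D T c wb.1 i)))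
      hz hz0 (fun wb : Om × Bool => Real.exp (e wb.2 * (theta * pathL C D c wb.1 T)))
      (fun wb => (Real.exp_pos _).le)
    obtain ⟨c', hc'⟩ : ∃ c', c' = Function.update c T v := ⟨_, rfl⟩
    have hcs : ∀ s, s < T → c s = c' s := by
      intro s hs
      rw [hc', Function.update_of_ne (by omega)]
    have hcT : c' T = v := by rw [hc', Function.update_self]
    have hCs : ∀ s, s ≤ T → C s c = C s c' := fun s hs =>
      hCc s (by omega) c c' fun r hr => hcs r (by omega)
    have hDs : ∀ s, s ≤ T → D s c = D s c' := fun s hs =>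
      hDc s (by omega) c c' fun r hr => hcs r (by omega)
    refine ⟨c', ?_, ?_⟩
    · intro s hs i
      rcases Nat.lt_or_ge s T with h | h
      · rw [← hCs s h.le, ← hcs s h]
        exact hc s h i
      · have hsT : s = T := by omega
        subst hsT
        rw [← hCs s le_rfl, hcT]
        exact hv i
    · intro T' hT'
      rcases Nat.lt_or_ge T T' with h | h
      · have hTT : T' = T + 1 := by omega
        subst hTT
        have hLs : ∀ w, pathL C D c' w (T + 1) = pathL C D c w T +
            ∑ i, (D T c w i (v i) - avg (C T c i) (D T c w i)) := by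
          intro w
          rw [pathL_congr N C D hCc hDc c c' w T hTN.le hcs]
          unfold pathL
          rw [sum_range_succ, ← hDs T le_rfl, ← hCs T le_rfl, hcT]
        have hkey : ∑ w, (Real.exp (theta * pathL C D c' w (T + 1)) +
            Real.exp (- (theta * pathL C D c' w (T + 1)))) =
            ∑ wb : Om × Bool, Real.exp (e wb.2 * (theta * pathL C D c wb.1 T)) *
              Real.exp (theta * ∑ i, e wb.2 *
                (D T c wb.1 i (v i) - avg (C T c i) (D T c wb.1 i))) := by
          rw [Fintype.sum_prod_type]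
          refine sum_congr rfl fun w _ => ?_
          rw [Fintype.sum_bool]
          simp only [he1, he2, ← Real.exp_add, ← mul_sum, hLs w]
          congr 1
          · congr 1
            ring
          · congr 1
            ring
        rw [hkey]
        refine hsup.trans ?_
        have hkey2 : ∑ wb : Om × Bool, Real.exp (e wb.2 * (theta * pathL C D c wb.1 T)) =
            ∑ w, (Real.exp (theta * pathL C D c w T) +
              Real.exp (- (theta * pathL C D c w T))) := by
          rw [Fintype.sum_prod_type]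
          refine sum_congr rfl fun w _ => ?_
          rw [Fintype.sum_bool]
          simp only [he1, he2, one_mul, neg_one_mul]
        rw [hkey2]
        refine (mul_le_mul_of_nonneg_left (hL T le_rfl) (Real.exp_pos _).le).trans
          (le_of_eq ?_)
        have hexp : Real.exp (theta ^ 2 * Fintype.card I * ((T + 1 : ℕ) : ℝ)) =
            Real.exp (theta ^ 2 * Fintype.card I) * Real.exp (theta ^ 2 * Fintype.card I * T) := by
          rw [← Real.exp_add]
          congr 1
          push_cast
          ring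
        rw [hexp]
        ring
      · have h2 : ∀ w, pathL C D c' w T' = pathL C D c w T' := fun w =>
          (pathL_congr N C D hCc hDc c c' w T' (by omega) fun s hs => hcs s (by omega)).symm
        simp only [h2]
        exact hL T' h

theorem path {I γ Om : Type*} [Fintype I] [Fintype Om] [Nonempty γ] (theta : ℝ)
    (h0 : 0 < theta) (h1 : theta ≤ 1) (N : ℕ) (C : ℕ → (ℕ → I → γ) → I → Finset γ)
    (D : ℕ → (ℕ → I → γ) → Om → I → γ → ℝ)
    (hCc : ∀ T, T < N → ∀ c c' : ℕ → I → γ, (∀ s, s < T → c s = c' s) → C T c = C T c')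
    (hDc : ∀ T, T < N → ∀ c c' : ℕ → I → γ, (∀ s, s < T → c s = c' s) → D T c = D T c')
    (hne : ∀ T, T < N → ∀ c : ℕ → I → γ, (∀ s, s < T → ∀ i, c s i ∈ C s c i) →
      ∀ i, (C T c i).Nonempty)
    (hD : ∀ T c w i v, 0 ≤ D T c w i v ∧ D T c w i v ≤ 1) :
    ∃ c : ℕ → I → γ, (∀ T, T < N → ∀ i, c T i ∈ C T c i) ∧
      ∀ T, T ≤ N → ∀ w, |∑ s ∈ range T, ∑ i, (D s c w i (c s i) - avg (C s c i) (D s c w i))| ≤
        theta * Fintype.card I * T + Real.log (2 * Fintype.card Om) / theta := by
  obtain ⟨c, hc, hL⟩ := path_ind theta h0 h1 N C D hCc hDc hne hD N le_rfl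
  refine ⟨c, hc, ?_⟩
  intro T hT w
  change |pathL C D c w T| ≤ _
  have hOm : 0 < Fintype.card Om := Fintype.card_pos_iff.2 ⟨w⟩
  have hOmR : (0 : ℝ) < 2 * Fintype.card Om := by
    have : (0 : ℝ) < Fintype.card Om := by exact_mod_cast hOm
    linarith
  have h2 : Real.exp (theta * |pathL C D c w T|) ≤
      Real.exp (theta * pathL C D c w T) + Real.exp (- (theta * pathL C D c w T)) := by
    rcases abs_cases (pathL C D c w T) with h | h
    · rw [h.1]
      linarith [Real.exp_pos (- (theta * pathL C D c w T))]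
    · rw [h.1, mul_neg]
      linarith [Real.exp_pos (theta * pathL C D c w T)]
  have h3 : Real.exp (theta * pathL C D c w T) + Real.exp (- (theta * pathL C D c w T)) ≤
      ∑ w, (Real.exp (theta * pathL C D c w T) + Real.exp (- (theta * pathL C D c w T))) :=
    single_le_sum (f := fun w => Real.exp (theta * pathL C D c w T) +
      Real.exp (- (theta * pathL C D c w T)))
      (fun w _ => (add_pos (Real.exp_pos _) (Real.exp_pos _)).le) (mem_univ w)
  have h4 := (h2.trans h3).trans (hL T hT)
  have h5 := Real.log_le_log (Real.exp_pos _) h4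
  rw [Real.log_exp, Real.log_mul hOmR.ne' (Real.exp_pos _).ne', Real.log_exp] at h5
  have h6 : |pathL C D c w T| ≤
      (Real.log (2 * Fintype.card Om) + theta ^ 2 * Fintype.card I * T) / theta := by
    rw [le_div_iff₀ h0]
    linarith
  refine h6.trans (le_of_eq ?_)
  field_simp
  ring

end Pool.Agent.H61.KA
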