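import Pool.Agent.H61.KA.Final

/-!
# Almost all rows and columns are bases; all rows are bases and all columns have almost full rank

Consequences of `kahn_asymp`. `extend_line`: an independent partial transversal of `n` bases of `F^n` can be completed greedily.
`kahn_lines`: for sets `I`, `J` of at most `(1 - eps) n` rows and columns there is a selection for which all rows in `I` and all
columns in `J` are bases. `kahn_rank`: there is a selection for which all rows are bases and all columns have rank at least
`(1 - eps) n` (apply `kahn_asymp` in `F^(n + r)` to the bases `B i j` completed by `r` new basis vectors).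
-/

set_option autoImplicit false

namespace Pool.Agent.H61.KA

open Finset

section line

variable {F : Type*} [Field F] {n : ℕ}

theorem exists_notMem_span (b : Module.Basis (Fin n) F (Fin n → F)) (T : Finset (Fin n))
    (v : Fin n → (Fin n → F)) (hT : T.card < n) :
    ∃ k, b k ∉ Submodule.span F (v '' (T : Set (Fin n))) := by
  classical
  by_contra hcon
  push Not at hcon
  have h1 : (⊤ : Submodule F (Fin n → F)) ≤ Submodule.span F (v '' (T : Set (Fin n))) := by
    rw [← b.span_eq, Submodule.span_le]
    rintro _ ⟨k, rfl⟩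
    exact hcon k
  have h2 : Module.finrank F (Submodule.span F (v '' (T : Set (Fin n)))) ≤ T.card := by
    rw [← Finset.coe_image]
    exact le_trans (finrank_span_finset_le_card _) Finset.card_image_le
  rw [top_le_iff.mp h1, finrank_top, Module.finrank_fin_fun] at h2
  omega

theorem extend_line (b : Fin n → Module.Basis (Fin n) F (Fin n → F)) (T : Finset (Fin n))
    (q0 : Fin n → Fin n) (h : LinearIndepOn F (fun j => b j (q0 j)) (T : Set (Fin n))) :
    ∃ q : Fin n → Fin n, (∀ j ∈ T, q j = q0 j) ∧ LinearIndependent F fun j => b j (q j) := by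
  classical
  obtain ⟨k, hk⟩ : ∃ k, k = (univ \ T).card := ⟨_, rfl⟩
  induction k generalizing T q0 with
  | zero =>
    have hT : T = univ := by
      have := Finset.card_eq_zero.mp hk.symm
      rw [Finset.sdiff_eq_empty_iff_subset] at this
      exact Finset.eq_univ_iff_forall.mpr fun x => this (Finset.mem_univ x)
    subst hT
    refine ⟨q0, fun _ _ => rfl, ?_⟩
    rw [Finset.coe_univ] at h
    exact linearIndepOn_univ_iff.mp h
  | succ k ih =>
    obtain ⟨j, hj⟩ : (univ \ T).Nonempty := by
      rw [← Finset.card_pos]; omega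
    have hjT : j ∉ T := (Finset.mem_sdiff.mp hj).2
    have hTn : T.card < n := by
      have h1 : T.card < (insert j T).card := by
        rw [Finset.card_insert_of_notMem hjT]; omega
      have h2 : (insert j T).card ≤ (univ : Finset (Fin n)).card := Finset.card_le_card (Finset.subset_univ _)
      rw [Finset.card_univ, Fintype.card_fin] at h2
      omega
    obtain ⟨e, he⟩ := exists_notMem_span (b j) T (fun j => b j (q0 j)) hTn
    have heq : Set.EqOn (fun i => b i (q0 i)) (fun i => b i (Function.update q0 j e i))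
        (T : Set (Fin n)) := by
      intro i hi
      have hij : i ≠ j := fun h => hjT (h ▸ hi)
      simp only [Function.update_of_ne hij]
    have h' : LinearIndepOn F (fun i => b i (Function.update q0 j e i))
        ((insert j T : Finset (Fin n)) : Set (Fin n)) := by
      rw [Finset.coe_insert, linearIndepOn_insert (by exact_mod_cast hjT)]
      refine ⟨h.congr heq, ?_⟩
      have him : (fun i => b i (Function.update q0 j e i)) '' (T : Set (Fin n)) =
          (fun i => b i (q0 i)) '' (T : Set (Fin n)) := (Set.EqOn.image_eq heq).symm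
      rw [him]
      simpa only [Function.update_self] using he
    obtain ⟨q, hq1, hq2⟩ := ih (insert j T) (Function.update q0 j e) h' (by
      have : univ \ insert j T = (univ \ T).erase j := by
        ext x; simp [Finset.mem_sdiff, Finset.mem_erase]
      rw [this, Finset.card_erase_of_mem hj]; omega)
    refine ⟨q, fun i hi => ?_, hq2⟩
    have hij : i ≠ j := fun h => hjT (h ▸ hi)
    rw [hq1 i (Finset.mem_insert_of_mem hi), Function.update_of_ne hij]

end line

theorem linOn_of_range {F : Type*} [Field F] {n m : ℕ} (g : Fin m → Fin n) (hg : Function.Injective g)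
    (T : Finset (Fin n)) (hT : Set.range g = (T : Set (Fin n))) (v : Fin n → (Fin n → F))
    (h : LinearIndependent F (v ∘ g)) : LinearIndepOn F v (T : Set (Fin n)) := by
  rw [← hT, linearIndepOn_range_iff hg]
  exact h

/-- Almost all rows and almost all columns can be made bases. -/
theorem kahn_lines (eps : ℝ) (heps : 0 < eps) : ∃ N : ℕ, ∀ n : ℕ, N ≤ n →
    ∀ (F : Type*) [Field F] (B : Fin n → Fin n → Module.Basis (Fin n) F (Fin n → F))
      (I J : Finset (Fin n)), (I.card : ℝ) ≤ (1 - eps) * n → (J.card : ℝ) ≤ (1 - eps) * n →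
        ∃ q : Fin n → Fin n → Fin n, (∀ i ∈ I, LinearIndependent F fun j => B i j (q i j)) ∧
          ∀ j ∈ J, LinearIndependent F fun i => B i j (q i j) := by
  classical
  obtain ⟨N, hN⟩ := kahn_asymp eps heps
  refine ⟨N, fun n hn F _ B I J hI hJ => ?_⟩
  -- common size
  obtain ⟨m, hIm, hJm, hm, hmn⟩ : ∃ m : ℕ, I.card ≤ m ∧ J.card ≤ m ∧ (m : ℝ) ≤ (1 - eps) * n ∧
      m ≤ n := by
    refine ⟨max I.card J.card, le_max_left _ _, le_max_right _ _, ?_, ?_⟩
    · rw [Nat.cast_max]; exact max_le hI hJ
    · refine max_le ?_ ?_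
      · simpa using Finset.card_le_univ I
      · simpa using Finset.card_le_univ J
  obtain ⟨I', hII, hI'⟩ := Finset.exists_superset_card_eq (s := I) (n := m) hIm (by simpa using hmn)
  obtain ⟨J', hJJ, hJ'⟩ := Finset.exists_superset_card_eq (s := J) (n := m) hJm (by simpa using hmn)
  obtain ⟨f, hf, hfr⟩ : ∃ f : Fin m → Fin n, Function.Injective f ∧ Set.range f = (I' : Set (Fin n)) :=
    ⟨I'.orderEmbOfFin hI', (I'.orderEmbOfFin hI').injective, Finset.range_orderEmbOfFin I' hI'⟩
  obtain ⟨g, hg, hgr⟩ : ∃ g : Fin m → Fin n, Function.Injective g ∧ Set.range g = (J' : Set (Fin n)) :=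
    ⟨J'.orderEmbOfFin hJ', (J'.orderEmbOfFin hJ').injective, Finset.range_orderEmbOfFin J' hJ'⟩
  obtain ⟨p, hp1, hp2⟩ := hN n m hn hm F fun i j => B (f i) (g j)
  -- transport to the array
  obtain ⟨p', hp'⟩ : ∃ p' : Fin n → Fin n → Fin n, ∀ x y, p' (f x) (g y) = p x y := by
    refine ⟨fun i j => if h : (∃ x, f x = i) ∧ (∃ y, g y = j) then p h.1.choose h.2.choose else i,
      fun x y => ?_⟩
    have h : (∃ x', f x' = f x) ∧ (∃ y', g y' = g y) := ⟨⟨x, rfl⟩, ⟨y, rfl⟩⟩
    dsimp only
    rw [dif_pos h, hf h.1.choose_spec, hg h.2.choose_spec]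
  have hrow : ∀ i ∈ I', ∃ r : Fin n → Fin n, (∀ j ∈ J', r j = p' i j) ∧
      LinearIndependent F fun j => B i j (r j) := by
    intro i hi
    obtain ⟨x, rfl⟩ : ∃ x, f x = i := by
      have : i ∈ Set.range f := by rw [hfr]; exact hi
      exact this
    refine extend_line _ J' _ (linOn_of_range g hg J' hgr _ ?_)
    have h := hp1 x
    have he : (fun j => (B (f x) j) (p' (f x) j)) ∘ g = fun j => (B (f x) (g j)) (p x j) := by
      funext y
      simp only [Function.comp, hp']
    rw [he]; exact h
  have hcol : ∀ j ∈ J', ∃ r : Fin n → Fin n, (∀ i ∈ I', r i = p' i j) ∧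
      LinearIndependent F fun i => B i j (r i) := by
    intro j hj
    obtain ⟨y, rfl⟩ : ∃ y, g y = j := by
      have : j ∈ Set.range g := by rw [hgr]; exact hj
      exact this
    refine extend_line (fun i => B i (g y)) I' _ (linOn_of_range f hf I' hfr _ ?_)
    have h := hp2 y
    have he : (fun i => (B i (g y)) (p' i (g y))) ∘ f = fun i => (B (f i) (g y)) (p i y) := by
      funext x
      simp only [Function.comp, hp']
    rw [he]; exact h
  have hrow' : ∀ i, ∃ r : Fin n → Fin n, i ∈ I' → ((∀ j ∈ J', r j = p' i j) ∧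
      LinearIndependent F fun j => B i j (r j)) := by
    intro i
    by_cases hi : i ∈ I'
    · obtain ⟨r, hr⟩ := hrow i hi
      exact ⟨r, fun _ => hr⟩
    · exact ⟨fun _ => i, fun h => absurd h hi⟩
  have hcol' : ∀ j, ∃ r : Fin n → Fin n, j ∈ J' → ((∀ i ∈ I', r i = p' i j) ∧
      LinearIndependent F fun i => B i j (r i)) := by
    intro j
    by_cases hj : j ∈ J'
    · obtain ⟨r, hr⟩ := hcol j hj
      exact ⟨r, fun _ => hr⟩
    · exact ⟨fun _ => j, fun h => absurd h hj⟩
  choose R hR using hrow'
  choose C hC using hcol'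
  refine ⟨fun i j => if i ∈ I' then R i j else C j i, fun i hi => ?_, fun j hj => ?_⟩
  · have hi' := hII hi
    simp only [if_pos hi']
    exact (hR i hi').2
  · have hj' := hJJ hj
    have he : (fun i => (B i j) (if i ∈ I' then R i j else C j i)) = fun i => (B i j) (C j i) := by
      funext i
      by_cases hi : i ∈ I'
      · rw [if_pos hi, (hR i hi).1 j hj', (hC j hj').1 i hi]
      · rw [if_neg hi]
    rw [he]
    exact (hC j hj').2

/-- The bases of `F^(n + r)` obtained by adding `r` new basis vectors. -/
noncomputable def addBasis {F : Type*} [Field F] {n : ℕ} (r : ℕ)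
    (b : Module.Basis (Fin n) F (Fin n → F)) : Module.Basis (Fin (n + r)) F (Fin (n + r) → F) :=
  ((b.prod (Pi.basisFun F (Fin r))).reindex finSumFinEquiv).map
    ((LinearEquiv.sumArrowLequivProdArrow (Fin n) (Fin r) F F).symm.trans
      (LinearEquiv.funCongrLeft F F (finSumFinEquiv (m := n) (n := r)).symm))

theorem addBasis_inl {F : Type*} [Field F] {n r : ℕ} (b : Module.Basis (Fin n) F (Fin n → F))
    (k : Fin n) : addBasis r b (Fin.castAdd r k) =
      ((LinearEquiv.sumArrowLequivProdArrow (Fin n) (Fin r) F F).symm.trans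
      (LinearEquiv.funCongrLeft F F (finSumFinEquiv (m := n) (n := r)).symm)) (b k, 0) := by
  unfold addBasis
  rw [Module.Basis.map_apply, Module.Basis.reindex_apply, finSumFinEquiv_symm_apply_castAdd]
  congr 1
  simp [Module.Basis.prod_apply]

theorem addBasis_inr {F : Type*} [Field F] {n r : ℕ} (b b' : Module.Basis (Fin n) F (Fin n → F))
    (k : Fin r) : addBasis r b (Fin.natAdd n k) = addBasis r b' (Fin.natAdd n k) := by
  unfold addBasis
  rw [Module.Basis.map_apply, Module.Basis.reindex_apply, finSumFinEquiv_symm_apply_natAdd,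
    Module.Basis.map_apply, Module.Basis.reindex_apply, finSumFinEquiv_symm_apply_natAdd]
  congr 1
  simp [Module.Basis.prod_apply]

theorem line_real {F : Type*} [Field F] {n r : ℕ} (b : Fin n → Module.Basis (Fin n) F (Fin n → F))
    (q : Fin n → Fin (n + r)) (h : LinearIndependent F fun j => addBasis r (b j) (q j))
    (T : Finset (Fin n)) (p : Fin n → Fin n)
    (hT : ∀ j, j ∈ T ↔ ∃ k, q j = Fin.castAdd r k) (hp : ∀ j ∈ T, q j = Fin.castAdd r (p j)) :
    LinearIndepOn F (fun j => b j (p j)) (T : Set (Fin n)) ∧ n ≤ T.card + r := by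
  classical
  constructor
  · have h1 : LinearIndepOn F (fun j => addBasis r (b j) (q j)) (T : Set (Fin n)) :=
      h.linearIndepOn _
    have h2 : LinearIndepOn F (fun j => ((LinearMap.inl F (Fin n → F) (Fin r → F))) (b j (p j)))
        (T : Set (Fin n)) := by
      have h3 : LinearIndepOn F (fun j => ((LinearEquiv.sumArrowLequivProdArrow (Fin n) (Fin r) F F).symm.trans
        (LinearEquiv.funCongrLeft F F (finSumFinEquiv (m := n) (n := r)).symm)) ((LinearMap.inl F (Fin n → F) (Fin r → F)) (b j (p j))))
        (T : Set (Fin n)) := by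
        refine h1.congr fun j hj => ?_
        simp only
        rw [hp j hj, addBasis_inl]
        rfl
      exact LinearIndependent.of_comp (((LinearEquiv.sumArrowLequivProdArrow (Fin n) (Fin r) F F).symm.trans
        (LinearEquiv.funCongrLeft F F (finSumFinEquiv (m := n) (n := r)).symm)).toLinearMap) h3
    exact LinearIndependent.of_comp (LinearMap.inl F (Fin n → F) (Fin r → F)) h2
  · have h5 : ∀ j ∈ univ \ T, ∃ k : Fin r, q j = Fin.natAdd n k := by
      intro j hj
      have hj' : ¬ ∃ k, q j = Fin.castAdd r k := fun h => (Finset.mem_sdiff.mp hj).2 ((hT j).mpr h)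
      induction hx : q j using Fin.addCases with
      | left k => exact absurd ⟨k, hx⟩ hj'
      | right k => exact ⟨k, rfl⟩
    have h4 : (univ \ T).card ≤ r := by
      have h6 : (univ \ T).card ≤ ((univ : Finset (Fin r)).image (Fin.natAdd n)).card := by
        refine Finset.card_le_card_of_injOn q ?_ ?_
        · intro j hj
          obtain ⟨k, hk⟩ := h5 j hj
          simp only [Finset.coe_image, Finset.coe_univ, Set.image_univ, Set.mem_range]
          exact ⟨k, hk.symm⟩
        · intro j hj j' hj' hjj
          obtain ⟨k, hk⟩ := h5 j hj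
          obtain ⟨k', hk'⟩ := h5 j' hj'
          apply h.injective
          simp only
          rw [← hjj, hk]
          exact addBasis_inr _ _ k
      refine le_trans h6 (le_trans Finset.card_image_le ?_)
      simp
    have h7 := Finset.card_sdiff_add_card_inter univ T
    rw [Finset.card_univ, Fintype.card_fin, Finset.univ_inter] at h7
    omega

/-- All rows can be made bases, with all columns of almost full rank. -/
theorem kahn_rank (eps : ℝ) (heps : 0 < eps) : ∃ N : ℕ, ∀ n : ℕ, N ≤ n →
    ∀ (F : Type*) [Field F] (B : Fin n → Fin n → Module.Basis (Fin n) F (Fin n → F)),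
      ∃ q : Fin n → Fin n → Fin n, (∀ i, LinearIndependent F fun j => B i j (q i j)) ∧
        ∀ j, (1 - eps) * n ≤
          Module.finrank F (Submodule.span F (Set.range fun i => B i j (q i j))) := by
  classical
  obtain ⟨e, he0, he1, hee⟩ : ∃ e : ℝ, 0 < e ∧ e ≤ 1 ∧ e ≤ eps :=
    ⟨min eps 1, lt_min heps one_pos, min_le_right _ _, min_le_left _ _⟩
  obtain ⟨N, hN⟩ := kahn_asymp (e / 4) (by positivity)
  refine ⟨max N (⌈2 / e⌉₊ + 1), fun n hn F _ B => ?_⟩
  have hnN : N ≤ n := le_trans (le_max_left _ _) hn
  have hn2 : 2 / e ≤ n := by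
    have h1 : ⌈2 / e⌉₊ ≤ n := le_trans (Nat.le_succ _) (le_trans (le_max_right _ _) hn)
    exact le_trans (Nat.le_ceil _) (by exact_mod_cast h1)
  have hn3 : 2 ≤ e * n := by
    rw [div_le_iff₀ he0] at hn2
    linarith
  obtain ⟨r, hr1, hr2⟩ : ∃ r : ℕ, e * n / 2 ≤ r ∧ (r : ℝ) ≤ e * n := by
    refine ⟨⌈e * n / 2⌉₊, Nat.le_ceil _, ?_⟩
    have := (Nat.ceil_lt_add_one (show 0 ≤ e * n / 2 by positivity)).le
    linarith
  have hn0 : (0 : ℝ) ≤ n := Nat.cast_nonneg _
  obtain ⟨q, hq1, hq2⟩ := hN (n + r) n (le_trans hnN (Nat.le_add_right _ _)) (by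
    push_cast
    nlinarith [mul_nonneg he0.le hn0]) F fun i j => addBasis r (B i j)
  -- real cells
  obtain ⟨p, hp⟩ : ∃ p : Fin n → Fin n → Fin n, ∀ i j k, q i j = Fin.castAdd r k → p i j = k := by
    refine ⟨fun i j => if h : ∃ k, q i j = Fin.castAdd r k then h.choose else i, fun i j k h => ?_⟩
    have h' : ∃ k, q i j = Fin.castAdd r k := ⟨k, h⟩
    dsimp only
    rw [dif_pos h']
    exact Fin.castAdd_injective n r (h'.choose_spec.symm.trans h)
  have hrow : ∀ i, ∃ s : Fin n → Fin n, (∀ j, (∃ k, q i j = Fin.castAdd r k) → s j = p i j) ∧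
      LinearIndependent F fun j => B i j (s j) := by
    intro i
    have h := (line_real (B i) (q i) (hq1 i) (univ.filter fun j => ∃ k, q i j = Fin.castAdd r k) (p i)
      (fun j => by simp) (fun j hj => by
        obtain ⟨k, hk⟩ := (Finset.mem_filter.mp hj).2
        rw [hp i j k hk, hk])).1
    obtain ⟨s, hs1, hs2⟩ := extend_line _ _ _ h
    exact ⟨s, fun j hj => hs1 j (by simpa using hj), hs2⟩
  choose s hs1 hs2 using hrow
  refine ⟨s, hs2, fun j => ?_⟩
  obtain ⟨h1, h2⟩ := line_real (fun i => B i j) (fun i => q i j) (hq2 j)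
    (univ.filter fun i => ∃ k, q i j = Fin.castAdd r k) (fun i => p i j)
      (fun i => by simp) (fun i hi => by
        obtain ⟨k, hk⟩ := (Finset.mem_filter.mp hi).2
        rw [hp i j k hk, hk])
  set T := univ.filter fun i => ∃ k, q i j = Fin.castAdd r k with hT
  have h3 : LinearIndepOn F (fun i => B i j (s i j)) (T : Set (Fin n)) := by
    refine h1.congr fun i hi => ?_
    have hi' : ∃ k, q i j = Fin.castAdd r k := (Finset.mem_filter.mp (Finset.mem_coe.mp hi)).2
    simp only
    rw [hs1 i j hi']
  have h4 : T.card ≤ Module.finrank F (Submodule.span F (Set.range fun i => B i j (s i j))) := by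
    have h5 : Module.finrank F (Submodule.span F (Set.range fun x : (T : Set (Fin n)) =>
        B x j (s x j))) = T.card := by
      rw [finrank_span_eq_card (R := F) h3]
      simp
    rw [← h5]
    apply Submodule.finrank_mono
    apply Submodule.span_mono
    rintro _ ⟨i, rfl⟩
    exact ⟨i, rfl⟩
  have h6 : (n : ℝ) ≤ T.card + r := by exact_mod_cast h2
  have h7 : (T.card : ℝ) ≤ Module.finrank F (Submodule.span F (Set.range fun i => B i j (s i j))) := by
    exact_mod_cast h4
  nlinarith

end Pool.Agent.H61.KA
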