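import Pool.Agent.H61.KA.Tele
import Pool.Agent.H61.KA.Avg

/-!
# KA-08. One round

With `J` the slots of `w` (`J.card <= mu`), `telescope`, `sum_avg` and exchange of the sums,
`X w (T0 + mu) = X w T0 - ∑_t ∑_{s in round} rho(..) - (Lsum (T0 + mu) - Lsum T0)`.
For `t ∉ J`, `fam S w t = ∅`, `hit = ∅` and `rho = 0`. For `t ∈ J` use `line` with the line `ptn w.1 t`, the slot `u = t`, `V = fam S w t`;
`∑_t (alive S c (ptn w.1 t) T0 t ∩ fam S w t).card = X w T0`. So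
`|X w (T0 + mu) - (1 - mu/(n - T0)) X w T0| <= mu (5 e + 4 mu^2) / (a^2 n) + 2 lam`, and
`1 - (T0 + mu)/n = (1 - mu/(n - T0)) (1 - T0/n)`, `0 <= 1 - mu/(n - T0) <= 1` (`mu <= a^2 n / 8 <= a n <= n - m <= n - T0`).
(`0 <= e` by `hE` with a test with empty slot set; `0 <= lam` by `hL`. If `mu > 0` or `mu = 0` the same computation works.)
-/

set_option autoImplicit false

namespace Pool.Agent.H61.KA

open Finset

variable {n m : ℕ}

theorem round_rho_empty {a : ℝ} (P Q : Finset (Fin n)) : rho a P Q ∅ = 0 := by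
  unfold rho
  split_ifs <;> simp

theorem round_fam_empty {S : Ln m → DS n m} {w : Ln m × Idx n m} {t : Fin m}
    (h : t ∉ w.2.2.2.2.2) : fam S w t = ∅ := by
  unfold fam
  rw [if_neg h]

theorem round_hit_empty {S : Ln m → DS n m} {c : Pth n m} {l : Ln m} {s u : Fin m} :
    hit S c l s u ∅ = ∅ := by
  unfold hit
  simp

theorem round [NeZero m] {a : ℝ} (ha : 0 < a) (ha1 : a ≤ 1) {S : Ln m → DS n m} {c : Pth n m}
    (lam : ℝ) (hL : ∀ w T, T ≤ m → |Lsum a S c w T| ≤ lam) (mu T0 : ℕ) (hT : T0 + mu ≤ m)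
    (hv : Valid a S c (T0 + mu)) (hmu : (mu : ℝ) ≤ a ^ 2 * n / 8) (hnm : a * n ≤ (n : ℝ) - m)
    (hn : 0 < n) (e : ℝ) (hE : Bd S c mu T0 e) :
    Bd S c mu (T0 + mu)
      ((1 + 5 * mu / (a ^ 2 * n)) * e + 4 * (mu : ℝ) ^ 3 / (a ^ 2 * n) + 2 * lam) := by
  intro w hw
  have hn' : (0 : ℝ) < n := by exact_mod_cast hn
  have hmn : (m : ℝ) < n := by
    have : 0 < a * n := by positivity
    linarith
  have hmn' : m < n := by exact_mod_cast hmn
  have hTm : (T0 : ℝ) + mu ≤ m := by exact_mod_cast hT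
  have hmu0 : (0 : ℝ) ≤ mu := Nat.cast_nonneg _
  have hnT : 0 < (n : ℝ) - T0 := by linarith
  have he : 0 ≤ e := (abs_nonneg _).trans (hE w hw)
  have ha2n : 0 < a ^ 2 * n := by positivity
  set B : ℝ := (5 * e + 4 * (mu : ℝ) ^ 2) / (a ^ 2 * n) with hB
  have hB0 : 0 ≤ B := by positivity
  -- the averages
  have h1 : ∑ s ∈ rnd m T0 mu, ∑ i, avg (C a S s c i) (D S s c w i) =
      ∑ t : Fin m, ∑ s ∈ rnd m T0 mu, rho a (own S c (ptn w.1 t) s)
        (own S c (ptn (ptn w.1 t) s) s) (hit S c (ptn w.1 t) s t (fam S w t)) := by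
    rw [Finset.sum_comm' (s := (univ : Finset (Fin m))) (t := fun _ => rnd m T0 mu)
      (t' := rnd m T0 mu) (s' := fun _ => univ) (by intro x y; simp)]
    refine Finset.sum_congr rfl fun s hs => ?_
    refine sum_avg ha hmn' w s ?_
    intro t ht i
    refine hv t ?_ i
    have := (Finset.mem_filter.1 hs).2.2
    omega
  have h2 : ∀ t : Fin m, |∑ s ∈ rnd m T0 mu, rho a (own S c (ptn w.1 t) s)
        (own S c (ptn (ptn w.1 t) s) s) (hit S c (ptn w.1 t) s t (fam S w t)) -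
        mu * ((alive S c (ptn w.1 t) T0 t ∩ fam S w t).card : ℝ) / ((n : ℝ) - T0)| ≤
        if t ∈ w.2.2.2.2.2 then B else 0 := by
    intro t
    by_cases ht : t ∈ w.2.2.2.2.2
    · rw [if_pos ht]
      exact line ha ha1 mu T0 hT hv hmu hnm hn e hE (ptn w.1 t) t (fam S w t)
    · rw [if_neg ht, round_fam_empty ht]
      simp [round_hit_empty, round_rho_empty]
  have h3 : |∑ s ∈ rnd m T0 mu, ∑ i, avg (C a S s c i) (D S s c w i) -
      mu * X S c w T0 / ((n : ℝ) - T0)| ≤ mu * B := by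
    have e1 : (mu : ℝ) * X S c w T0 / ((n : ℝ) - T0) =
        ∑ t : Fin m, mu * ((alive S c (ptn w.1 t) T0 t ∩ fam S w t).card : ℝ) / ((n : ℝ) - T0) := by
      unfold X
      rw [Finset.mul_sum, Finset.sum_div]
    rw [h1, e1, ← Finset.sum_sub_distrib]
    refine (Finset.abs_sum_le_sum_abs _ _).trans ((Finset.sum_le_sum fun t _ => h2 t).trans ?_)
    rw [← Finset.sum_filter, Finset.sum_const, nsmul_eq_mul]
    have e2 : (univ.filter fun t : Fin m => t ∈ w.2.2.2.2.2) = w.2.2.2.2.2 := by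
      ext t
      simp
    rw [e2]
    refine mul_le_mul_of_nonneg_right ?_ hB0
    exact_mod_cast hw
  have h4 := telescope mu T0 hT hv w
  have h5 := hL w (T0 + mu) hT
  have h6 := hL w T0 (by omega)
  have h7 := hE w hw
  set A := ∑ s ∈ rnd m T0 mu, ∑ i, avg (C a S s c i) (D S s c w i) with hA
  set κ : ℝ := 1 - mu / ((n : ℝ) - T0) with hκ
  have hκ0 : 0 ≤ κ := by
    have : (mu : ℝ) / ((n : ℝ) - T0) ≤ 1 := by
      rw [div_le_one hnT]
      linarith
    rw [hκ]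
    linarith
  have hκ1 : κ ≤ 1 := by
    have : 0 ≤ (mu : ℝ) / ((n : ℝ) - T0) := by positivity
    rw [hκ]
    linarith
  have h8 : 1 - ((T0 + mu : ℕ) : ℝ) / n = κ * (1 - (T0 : ℝ) / n) := by
    rw [hκ]
    have := hnT.ne'
    push_cast
    field_simp
    ring
  have h9 : |κ * (X S c w T0 - (1 - (T0 : ℝ) / n) * F S w)| ≤ e := by
    rw [abs_mul, abs_of_nonneg hκ0]
    calc κ * |X S c w T0 - (1 - (T0 : ℝ) / n) * F S w| ≤ 1 * e :=
          mul_le_mul hκ1 h7 (abs_nonneg _) zero_le_one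
      _ = e := one_mul e
  have h10 : X S c w (T0 + mu) - (1 - ((T0 + mu : ℕ) : ℝ) / n) * F S w =
      κ * (X S c w T0 - (1 - (T0 : ℝ) / n) * F S w) -
      (A - mu * X S c w T0 / ((n : ℝ) - T0)) - Lsum a S c w (T0 + mu) + Lsum a S c w T0 := by
    rw [h4, h8, hκ]
    ring
  rw [h10]
  have h11 : (1 + 5 * mu / (a ^ 2 * n)) * e + 4 * (mu : ℝ) ^ 3 / (a ^ 2 * n) + 2 * lam =
      e + mu * B + 2 * lam := by
    rw [hB]
    field_simp
    ring
  rw [h11]
  rw [abs_le] at h3 h5 h6 h9 ⊢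
  constructor <;> linarith

end Pool.Agent.H61.KA
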